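import Pool.Agent.L7h91.CUT.Wof

/-!
# All multiplicities
-/

set_option autoImplicit false

namespace Pool.Agent.L7h91.CUT

open Finset Pool.Agent.TH603.EL Pool.Agent.TH3.IR Pool.Agent.L7h91.IR Pool.Agent.L7h91.TW
open Pool.Agent.H350R3.MG
open scoped LinearAlgebra.Projectivization

open Pool.Agent.H932R5 in
/-- fewer points -/
theorem surj_restrict {K : Type} [Field K] {E k k' : ℕ} (ι : Fin k → Fin k')
    (hι : Function.Injective ι) {w' : Fin k' → ℕ} {P' : Fin k' → Fin (E + 1) → K} {d : ℕ}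
    (h : SurjAt w' P' d) : SurjAt (fun i => w' (ι i)) (fun i => P' (ι i)) d := by
  classical
  intro y
  let y' : Cnd E w' → K := fun q =>
    if h : ∃ i, ι i = q.1 ∧ q.2.1 ∈ dg E (w' (ι i)) then
      y ⟨h.choose, ⟨q.2.1, h.choose_spec.2⟩⟩ else 0
  obtain ⟨f, hf, hfy⟩ := h y'
  refine ⟨f, hf, ?_⟩
  funext q
  have h2 := congrFun hfy ⟨ι q.1, q.2⟩
  rw [cnd_apply] at h2 ⊢
  have hex : ∃ i, ι i = (⟨ι q.1, q.2⟩ : Cnd E w').1 ∧
      (⟨ι q.1, q.2⟩ : Cnd E w').2.1 ∈ dg E (w' (ι i)) := ⟨q.1, rfl, q.2.2⟩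
  have key : ∀ (i : Fin k) (_ : i = q.1) (hm : q.2.1 ∈ dg E (w' (ι i))),
      (⟨i, ⟨q.2.1, hm⟩⟩ : Cnd E (fun i => w' (ι i))) = q := by
    rintro i rfl hm
    rfl
  have h3 : y' ⟨ι q.1, q.2⟩ = y q := by
    show (if h : ∃ i, ι i = (⟨ι q.1, q.2⟩ : Cnd E w').1 ∧
      (⟨ι q.1, q.2⟩ : Cnd E w').2.1 ∈ dg E (w' (ι i)) then
      y ⟨h.choose, ⟨(⟨ι q.1, q.2⟩ : Cnd E w').2.1, h.choose_spec.2⟩⟩ else 0) = y q
    rw [dif_pos hex]
    exact congrArg y (key hex.choose (hι hex.choose_spec.1) hex.choose_spec.2)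
  rw [h3] at h2
  exact h2

/-- fewer points, general position -/
theorem forms_restrict {E k c : ℕ} {w : Fin k → ℕ} {d : ℕ} {w' : Fin (k + c) → ℕ}
    (hw : ∀ i, w' (Fin.castAdd c i) = w i)
    (h : ∃ F : MvPolynomial (Fin (k + c) × Fin (E + 1)) ℂ, F ≠ 0 ∧
      ∀ P : Fin (k + c) → Fin (E + 1) → ℂ,
      MvPolynomial.eval (fun q : Fin (k + c) × Fin (E + 1) => P q.1 q.2) F ≠ 0 →
      H932R5.SurjAt w' P d) :
    ∃ F : MvPolynomial (Fin k × Fin (E + 1)) ℂ, F ≠ 0 ∧ ∀ P : Fin k → Fin (E + 1) → ℂ,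
      MvPolynomial.eval (fun q : Fin k × Fin (E + 1) => P q.1 q.2) F ≠ 0 →
      H932R5.SurjAt w P d := by
  obtain ⟨F, hF, hP⟩ := h
  obtain ⟨z, hz⟩ : ∃ z : Fin (k + c) × Fin (E + 1) → ℂ, MvPolynomial.eval z F ≠ 0 := by
    by_contra hcon
    push Not at hcon
    exact hF (MvPolynomial.funext fun w => by rw [hcon w, map_zero])
  obtain ⟨g, hg⟩ : ∃ g : Fin (k + c) × Fin (E + 1) → MvPolynomial (Fin k × Fin (E + 1)) ℂ,
      g = fun q => Fin.addCases (motive := fun _ => MvPolynomial (Fin k × Fin (E + 1)) ℂ)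
        (fun i => MvPolynomial.X (i, q.2)) (fun _ => MvPolynomial.C (z q)) q.1 := ⟨_, rfl⟩
  have ev : ∀ P : Fin k → Fin (E + 1) → ℂ,
      MvPolynomial.eval (fun q : Fin k × Fin (E + 1) => P q.1 q.2) (MvPolynomial.aeval g F) =
      MvPolynomial.eval (fun q : Fin (k + c) × Fin (E + 1) =>
        (Fin.append P (fun i j => z (Fin.natAdd k i, j)) : Fin (k + c) → Fin (E + 1) → ℂ)
          q.1 q.2) F := by
    intro P
    obtain ⟨x, hx⟩ : ∃ x : Fin k × Fin (E + 1) → ℂ, x = fun q => P q.1 q.2 := ⟨_, rfl⟩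
    have h1 : (MvPolynomial.eval x).comp
        (MvPolynomial.aeval g : MvPolynomial (Fin (k + c) × Fin (E + 1)) ℂ →ₐ[ℂ] _).toRingHom =
        MvPolynomial.eval (fun q => MvPolynomial.eval x (g q)) := by
      apply MvPolynomial.ringHom_ext
      · intro a
        simp
      · intro q
        simp
    have h2 := RingHom.congr_fun h1 F
    rw [← hx]
    refine h2.trans ?_
    congr 1
    congr 1
    funext q
    obtain ⟨i, j⟩ := q
    rw [hg, hx]
    refine Fin.addCases (fun i => ?_) (fun i => ?_) i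
    · simp only [Fin.append_left, Fin.addCases_left, MvPolynomial.eval_X]
    · simp only [Fin.append_right, Fin.addCases_right, MvPolynomial.eval_C]
  refine ⟨MvPolynomial.aeval g F, ?_, ?_⟩
  · intro h0
    have h1 := ev (fun i j => z (Fin.castAdd c i, j))
    rw [h0, map_zero] at h1
    apply hz
    rw [h1]
    congr 1
    congr 1
    funext q
    obtain ⟨i, j⟩ := q
    refine Fin.addCases (fun i => ?_) (fun i => ?_) i
    · simp only [Fin.append_left]
    · simp only [Fin.append_right]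
  · intro P h1
    rw [ev] at h1
    have h2 := surj_restrict (Fin.castAdd c) (Fin.castAdd_injective k c) (hP _ h1)
    simp only [hw, Fin.append_left] at h2
    exact h2

/-- the constant -/
def Cr (r : ℕ) : ℕ := (2 * r + 1) * 4 ^ r

theorem root_facts {r N d : ℕ} (hr : 1 ≤ r) (hN : 0 < N) : ∃ D : ℝ, 0 < D ∧ D ^ r = N ∧
    (d ^ r < N → (d : ℝ) < D) ∧ (N ≤ d ^ r → D ≤ d) := by
  have hN0 : (0 : ℝ) < N := by exact_mod_cast hN
  have hr0 : (r : ℝ) ≠ 0 := by
    have : 0 < r := hr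
    positivity
  obtain ⟨D, hD⟩ : ∃ D : ℝ, D = (N : ℝ) ^ (1 / (r : ℝ)) := ⟨_, rfl⟩
  have hD0 : 0 < D := by rw [hD]; positivity
  have hDr : D ^ r = N := by
    rw [hD, ← Real.rpow_natCast, ← Real.rpow_mul hN0.le, one_div, inv_mul_cancel₀ hr0,
      Real.rpow_one]
  refine ⟨D, hD0, hDr, fun h => ?_, fun h => ?_⟩
  · by_contra hcon
    push Not at hcon
    have h1 : D ^ r ≤ (d : ℝ) ^ r := pow_le_pow_left₀ hD0.le hcon r
    rw [hDr] at h1
    have h2 : N ≤ d ^ r := by exact_mod_cast h1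
    omega
  · by_contra hcon
    push Not at hcon
    have h1 : (d : ℝ) ^ r < D ^ r := pow_lt_pow_left₀ hcon (Nat.cast_nonneg _) (by omega)
    rw [hDr] at h1
    have h2 : d ^ r < N := by exact_mod_cast h1
    omega

/-- emptiness, all multiplicities -/
theorem emptyU {E k : ℕ} (hE : 2 ≤ E) (w : Fin k → ℕ) {M : ℕ} (hM : ∀ i, w i ≤ M) {d : ℕ}
    (hd : d ^ (E + 1) + Cr (E + 1) * M ^ (E + 1) < ∑ i, w i ^ (E + 1)) :
    ∃ v, WtsA (E + 1) v ∧ (d : ℝ) < ∑ i, v i ^ E * w i := by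
  obtain ⟨u, h1, h2, h3⟩ := lower (r := E + 1) (c := 3 * 4 ^ E) w hM M le_rfl
  rw [Nat.sub_self, Nat.add_sub_cancel] at h2
  rw [Nat.add_sub_cancel] at h3
  have h4 : M * ((E + 1) * (3 * 4 ^ E * M ^ E)) ≤ Cr (E + 1) * M ^ (E + 1) := by
    unfold Cr
    have e1 : M * ((E + 1) * (3 * 4 ^ E * M ^ E)) = (3 * (E + 1)) * 4 ^ E * M ^ (E + 1) := by ring
    rw [e1]
    refine Nat.mul_le_mul_right _ ?_
    have e2 : (2 * (E + 1) + 1) * 4 ^ (E + 1) = (4 * (2 * (E + 1) + 1)) * 4 ^ E := by ring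
    rw [e2]
    exact Nat.mul_le_mul_right _ (by omega)
  have h5 : d ^ (E + 1) < ∑ i, u i ^ (E + 1) := by omega
  obtain ⟨D, hD0, hDr, hD1, -⟩ := root_facts (d := d) (r := E + 1) (by omega)
    (lt_of_le_of_lt (Nat.zero_le _) h5)
  have hdD := hD1 h5
  have hDr' : D ^ (E + 1) = ∑ i, (u i : ℝ) ^ (E + 1) := by
    rw [hDr]
    push_cast
    rfl
  refine ⟨fun i => (u i : ℝ) / D, ?_, ?_⟩
  · refine wtsA_nat (by omega) u (fun i => (h1 i).trans (hM i)) hD0 hDr' fun i hi => ?_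
    rw [Nat.add_sub_cancel]
    exact h2 i hi
  · have e : ∑ i, ((u i : ℝ) / D) ^ E * u i = D := by
      have e1 : ∀ i, ((u i : ℝ) / D) ^ E * u i = (u i : ℝ) ^ (E + 1) / D ^ E := by
        intro i
        rw [div_pow]
        ring
      simp only [e1]
      rw [← sum_div, ← hDr', div_eq_iff (by positivity)]
      ring
    refine lt_of_lt_of_le (lt_of_lt_of_eq hdD e.symm) ?_
    refine sum_le_sum fun i _ => ?_
    refine mul_le_mul_of_nonneg_left ?_ (by positivity)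
    exact_mod_cast h1 i

theorem cnt_append_left {k c : ℕ} (u : Fin k → ℕ) (M : ℕ) (i : Fin k) :
    cnt u i ≤ cnt (Fin.append u (fun _ : Fin c => M)) (Fin.castAdd c i) := by
  unfold cnt
  rw [← card_map (Fin.castAddEmb c)]
  apply card_le_card
  intro j hj
  rw [mem_map] at hj
  obtain ⟨l, hl, rfl⟩ := hj
  rw [mem_filter] at hl ⊢
  refine ⟨mem_univ _, ?_⟩
  show Fin.append u (fun _ : Fin c => M) (Fin.castAdd c l) = _
  rw [Fin.append_left, Fin.append_left]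
  exact hl.2

theorem cnt_append_right {k c : ℕ} (u : Fin k → ℕ) (M : ℕ) (i : Fin (k + c))
    (hi : Fin.append u (fun _ : Fin c => M) i = M) :
    c ≤ cnt (Fin.append u (fun _ : Fin c => M)) i := by
  unfold cnt
  have h1 : (univ.map (Fin.natAddEmb k : Fin c ↪ Fin (k + c))).card = c := by
    rw [card_map, card_univ, Fintype.card_fin]
  refine h1.symm.le.trans ?_
  apply card_le_card
  intro j hj
  rw [mem_map] at hj
  obtain ⟨l, -, rfl⟩ := hj
  rw [mem_filter]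
  refine ⟨mem_univ _, ?_⟩
  show Fin.append u (fun _ : Fin c => M) (Fin.natAdd k l) = _
  rw [Fin.append_right, hi]

/-- independence, all multiplicities -/
theorem indepU {E k : ℕ} (hE : 2 ≤ E) (w : Fin k → ℕ) {M : ℕ} (hM : ∀ i, w i ≤ M) {d : ℕ}
    (hd : ∑ i, (w i + 2 * (E + 1)) ^ (E + 1) + Cr (E + 1) * (M + 2 * (E + 1)) ^ (E + 1) ≤
      d ^ (E + 1)) :
    ∃ F : MvPolynomial (Fin k × Fin (E + 1)) ℂ, F ≠ 0 ∧ ∀ P : Fin k → Fin (E + 1) → ℂ,
      MvPolynomial.eval (fun q : Fin k × Fin (E + 1) => P q.1 q.2) F ≠ 0 →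
      H932R5.SurjAt w P d := by
  obtain ⟨M', hM'⟩ : ∃ M', M' = M + 2 * (E + 1) := ⟨_, rfl⟩
  rw [← hM'] at hd
  obtain ⟨c, hc⟩ : ∃ c, c = 3 * 4 ^ E := ⟨_, rfl⟩
  obtain ⟨u, h1, h0, h2, h3⟩ := raise (r := E + 1) (c := c) (M := M')
    (fun i => w i + 2 * (E + 1)) (fun i => by have := hM i; omega) (fun i => by omega)
    (by omega) M' le_rfl
  rw [Nat.add_sub_cancel] at h2 h3
  have hM'0 : 0 < M' := by omega
  obtain ⟨N, hN⟩ : ∃ N, N = ∑ i, u i ^ (E + 1) + c * M' ^ (E + 1) := ⟨_, rfl⟩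
  have hc0 : 0 < c := by
    rw [hc]
    positivity
  have hN0 : 0 < N := by
    rw [hN]
    have : 0 < c * M' ^ (E + 1) := by positivity
    omega
  have h4 : M' * (2 * ((E + 1) * (c * M' ^ E))) + c * M' ^ (E + 1) ≤
      Cr (E + 1) * M' ^ (E + 1) := by
    unfold Cr
    have e1 : M' * (2 * ((E + 1) * (c * M' ^ E))) + c * M' ^ (E + 1) =
        ((2 * (E + 1) + 1) * c) * M' ^ (E + 1) := by ring
    rw [e1]
    refine Nat.mul_le_mul_right _ (Nat.mul_le_mul_left _ ?_)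
    rw [hc, pow_succ]
    omega
  have hNd : N ≤ d ^ (E + 1) := by
    omega
  obtain ⟨D, hD0, hDr, -, hD1⟩ := root_facts (d := d) (r := E + 1) (by omega) hN0
  have hdD := hD1 hNd
  obtain ⟨u', hu'⟩ : ∃ u' : Fin (k + c) → ℕ, u' = Fin.append u (fun _ : Fin c => M') := ⟨_, rfl⟩
  have hDr' : D ^ (E + 1) = ∑ i, (u' i : ℝ) ^ (E + 1) := by
    rw [hDr, hN, Fin.sum_univ_add, hu']
    simp only [Fin.append_left, Fin.append_right]
    rw [sum_const, card_univ, Fintype.card_fin, nsmul_eq_mul]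
    push_cast
    rfl
  have hu'M : ∀ i, u' i ≤ M' := by
    intro i
    rw [hu']
    refine Fin.addCases (fun i => ?_) (fun i => ?_) i
    · rw [Fin.append_left]
      exact h0 i
    · rw [Fin.append_right]
  have hfr : ∀ i, c * M' ^ E ≤ cnt u' i * u' i ^ E := by
    intro i
    by_cases hi : u' i = M'
    · rw [hi]
      refine Nat.mul_le_mul_right _ ?_
      rw [hu'] at hi ⊢
      exact cnt_append_right u M' i hi
    · revert hi
      rw [hu']
      refine Fin.addCases (fun i => ?_) (fun i => ?_) i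
      · intro hi
        rw [Fin.append_left] at hi ⊢
        refine (h2 i (lt_of_le_of_ne (h0 i) hi)).trans (Nat.mul_le_mul_right _ ?_)
        exact cnt_append_left u M' i
      · intro hi
        rw [Fin.append_right] at hi
        exact absurd rfl hi
  have hW : WtsA (E + 1) (fun i => (u' i : ℝ) / D) := by
    refine wtsA_nat (by omega) u' hu'M hD0 hDr' fun i _ => ?_
    rw [Nat.add_sub_cancel, ← hc]
    exact hfr i
  refine forms_restrict (w' := Fin.append w (fun _ : Fin c => 0)) (fun i => Fin.append_left _ _ i)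
    (indepA hE _ hW d ?_)
  have hle : ∀ i, (u' i : ℝ) ≤ (u' i : ℝ) / D * d := by
    intro i
    rw [div_mul_eq_mul_div, le_div_iff₀ hD0]
    exact mul_le_mul_of_nonneg_left hdD (Nat.cast_nonneg _)
  intro i
  refine le_trans ?_ (hle i)
  rw [hu']
  refine Fin.addCases (fun i => ?_) (fun i => ?_) i
  · rw [Fin.append_left, Fin.append_left]
    exact_mod_cast h1 i
  · rw [Fin.append_right, Fin.append_right, hM']
    push_cast
    have : (0 : ℝ) ≤ M := Nat.cast_nonneg _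
    linarith

/-- all multiplicities, one open set for all degrees -/
theorem mainU {r k : ℕ} (hr : 3 ≤ r) (w : Fin k → ℕ) {M : ℕ} (hM : ∀ i, w i ≤ M) :
    Generally (fun P : Fin k → ℙ ℂ (Fin (r + 1) → ℂ) => ∀ d : ℕ,
      (d ^ r + Cr r * M ^ r < ∑ i, w i ^ r →
        pforms d w P = ⊥ ∧ (d + r).choose r ≤ ∑ i, (w i + r - 1).choose r) ∧
      (∑ i, (w i + 2 * r) ^ r + Cr r * (M + 2 * r) ^ r ≤ d ^ r →
        ∑ i, (w i + r - 1).choose r + Module.finrank ℂ ↥(pforms d w P) = (d + r).choose r)) := by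
  classical
  obtain ⟨s, rfl⟩ : ∃ s, r = s + 3 := ⟨r - 3, by omega⟩
  -- emptiness: one `F` for each degree
  have hA : ∀ d : ℕ, ∃ F : MvPolynomial (Fin k × Fin (s + 2 + 1)) ℂ, F ≠ 0 ∧
      ∀ P : Fin k → Fin (s + 2 + 1) → ℂ,
      MvPolynomial.eval (fun q : Fin k × Fin (s + 2 + 1) => P q.1 q.2) F ≠ 0 →
      d ^ (s + 3) + Cr (s + 3) * M ^ (s + 3) < ∑ i, w i ^ (s + 3) → NoForms w P d := by
    intro d
    by_cases h : d ^ (s + 3) + Cr (s + 3) * M ^ (s + 3) < ∑ i, w i ^ (s + 3)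
    · obtain ⟨v, hv, hd⟩ := emptyU (E := s + 2) (by omega) w hM h
      obtain ⟨F, hF, h1⟩ := emptyA (E := s + 2) (by omega) w hv d hd
      exact ⟨F, hF, fun P hP _ => h1 P hP⟩
    · exact ⟨1, one_ne_zero, fun P _ h1 => absurd h1 h⟩
  choose FA hFA hA' using hA
  -- independence: one `F`
  have hB : ∃ F : MvPolynomial (Fin k × Fin (s + 2 + 1)) ℂ, F ≠ 0 ∧
      ∀ P : Fin k → Fin (s + 2 + 1) → ℂ,
      MvPolynomial.eval (fun q : Fin k × Fin (s + 2 + 1) => P q.1 q.2) F ≠ 0 → ∀ d : ℕ,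
      ∑ i, (w i + 2 * (s + 3)) ^ (s + 3) + Cr (s + 3) * (M + 2 * (s + 3)) ^ (s + 3) ≤
        d ^ (s + 3) → H932R5.SurjAt w P d := by
    by_cases hex : ∃ d : ℕ, ∑ i, (w i + 2 * (s + 3)) ^ (s + 3) +
        Cr (s + 3) * (M + 2 * (s + 3)) ^ (s + 3) ≤ d ^ (s + 3)
    · obtain ⟨F, hF, h⟩ := indepU (E := s + 2) (by omega) w hM (Nat.find_spec hex)
      refine ⟨F, hF, fun P hP d hd => (h P hP).mono_d ?_⟩
      exact Nat.find_min' hex hd
    · exact ⟨1, one_ne_zero, fun P _ d hd => absurd ⟨d, hd⟩ hex⟩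
  obtain ⟨F2, hF20, hB'⟩ := hB
  obtain ⟨F1, hF1⟩ : ∃ F, F = ∏ d ∈ Finset.range (∑ i, w i + 1), FA d := ⟨_, rfl⟩
  have hF10 : F1 ≠ 0 := by
    rw [hF1]
    exact Finset.prod_ne_zero_iff.2 fun d _ => hFA d
  refine generally_of_affine (F1 * F2) (mul_ne_zero hF10 hF20) fun P hv hP d => ?_
  rw [map_mul] at hP
  have hP1 := left_ne_zero_of_mul hP
  have hP2 := right_ne_zero_of_mul hP
  rw [hF1, map_prod] at hP1
  rw [pforms_cons (E := s + 2)]
  have e1 : ∀ i, w i + (s + 3) - 1 = w i + (s + 2) := fun i => by omega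
  have e2 : d + (s + 3) = d + (s + 2) + 1 := by omega
  refine ⟨fun hd => ?_, fun hd => ?_⟩
  · simp only [e1, e2]
    have hdB : d ∈ Finset.range (∑ i, w i + 1) := by
      rw [Finset.mem_range, Nat.lt_succ_iff]
      by_contra hcon
      push Not at hcon
      have h2 : ∑ i, w i ^ (s + 3) ≤ (∑ i, w i) ^ (s + 3) := by
        obtain ⟨S, hS⟩ : ∃ S, S = ∑ i, w i := ⟨_, rfl⟩
        have h3 : ∀ i, w i ≤ S := fun i => by
          rw [hS]
          exact single_le_sum (f := w) (fun _ _ => Nat.zero_le _) (mem_univ i)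
        calc ∑ i, w i ^ (s + 3) ≤ ∑ i, w i * S ^ (s + 2) := by
              refine sum_le_sum fun i _ => ?_
              rw [pow_succ, mul_comm]
              exact Nat.mul_le_mul_left _ (Nat.pow_le_pow_left (h3 i) _)
          _ = (∑ i, w i) ^ (s + 3) := by
              rw [← sum_mul, ← hS]
              ring
      have h3 := Nat.pow_le_pow_left hcon.le (s + 3)
      omega
    have h5 := vd_eq_bot (hA' d P (Finset.prod_ne_zero_iff.1 hP1 d hdB) hd)
    refine ⟨h5, ?_⟩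
    have h6 := H932R5.finrank_ge d w P
    rw [h5, finrank_bot] at h6
    exact h6
  · simp only [e1, e2]
    exact (hB' P hP2 d hd).finrank

end Pool.Agent.L7h91.CUT
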