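import Pool.Agent.L7h91.CUT.All
import Pool.Agent.R873.SB.PMono

/-!
# All multiplicities, all degrees
-/

set_option autoImplicit false

namespace Pool.Agent.L7h91.CUT

open Finset Pool.Agent.TH603.EL Pool.Agent.TH3.IR Pool.Agent.L7h91.IR Pool.Agent.L7h91.TW
open Pool.Agent.H350R3.MG
open scoped LinearAlgebra.Projectivization

theorem fact_ge (e r : ℕ) : (e + 1) ^ r ≤ r.factorial * (e + r).choose r := by
  rw [← Nat.descFactorial_eq_factorial_mul_choose]
  have h := Nat.pow_sub_le_descFactorial (e + r) r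
  have e1 : e + r + 1 - r = e + 1 := by omega
  rw [e1] at h
  exact h

theorem fact_le (w r : ℕ) : r.factorial * (w + r - 1).choose r ≤ (w + r - 1) ^ r := by
  rw [← Nat.descFactorial_eq_factorial_mul_choose]
  exact Nat.descFactorial_le_pow _ _

theorem exists_e {S B r : ℕ} (hr : 1 ≤ r) (h : B < S) :
    ∃ e, e ^ r + B < S ∧ S ≤ (e + 1) ^ r + B := by
  have hex : ∃ n, S ≤ n ^ r + B := by
    refine ⟨S, ?_⟩
    have : S ≤ S ^ r := Nat.le_self_pow (by omega) S
    omega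
  classical
  have h1 := Nat.find_spec hex
  have h2 : Nat.find hex ≠ 0 := by
    intro h0
    rw [h0, zero_pow (by omega)] at h1
    omega
  obtain ⟨e, he⟩ : ∃ e, Nat.find hex = e + 1 := ⟨Nat.find hex - 1, by omega⟩
  refine ⟨e, ?_, by rw [← he]; exact h1⟩
  have h3 := Nat.find_min hex (m := e) (by omega)
  omega

/-- all multiplicities, one open set for all degrees, with a bound in every degree -/
theorem mainU2 {r k : ℕ} (hr : 3 ≤ r) (w : Fin k → ℕ) {M : ℕ} (hM : ∀ i, w i ≤ M) :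
    Generally (fun P : Fin k → ℙ ℂ (Fin (r + 1) → ℂ) => ∀ d : ℕ,
      (d ^ r + Cr r * M ^ r < ∑ i, w i ^ r →
        pforms d w P = ⊥ ∧ (d + r).choose r ≤ ∑ i, (w i + r - 1).choose r) ∧
      (∑ i, (w i + 2 * r) ^ r + Cr r * (M + 2 * r) ^ r ≤ d ^ r →
        ∑ i, (w i + r - 1).choose r + Module.finrank ℂ ↥(pforms d w P) = (d + r).choose r) ∧
      (Module.finrank ℂ ↥(pforms d w P) = 0 ∨
        r.factorial * Module.finrank ℂ ↥(pforms d w P) + ∑ i, w i ^ r ≤
          r.factorial * (d + r).choose r + Cr r * M ^ r)) := by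
  classical
  obtain ⟨s, rfl⟩ : ∃ s, r = s + 3 := ⟨r - 3, by omega⟩
  -- emptiness: one `F` for each degree
  have hA : ∀ d : ℕ, ∃ F : MvPolynomial (Fin k × Fin (s + 2 + 1)) ℂ, F ≠ 0 ∧
      ∀ P : Fin k → Fin (s + 2 + 1) → ℂ,
      MvPolynomial.eval (fun q : Fin k × Fin (s + 2 + 1) => P q.1 q.2) F ≠ 0 →
      d ^ (s + 3) + Cr (s + 3) * M ^ (s + 3) < ∑ i, w i ^ (s + 3) → NoForms w P d := by
    intro d
    by_cases h : d ^ (s + 3) + Cr (s + 3) * M ^ (s + 3) < ∑ i, w i ^ (s + 3)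
    · obtain ⟨v, hv, hd⟩ := emptyU (E := s + 2) (by omega) w hM h
      obtain ⟨F, hF, h1⟩ := emptyA (E := s + 2) (by omega) w hv d hd
      exact ⟨F, hF, fun P hP _ => h1 P hP⟩
    · exact ⟨1, one_ne_zero, fun P _ h1 => absurd h1 h⟩
  choose FA hFA hA' using hA
  -- independence: one `F`
  have hB : ∃ F : MvPolynomial (Fin k × Fin (s + 2 + 1)) ℂ, F ≠ 0 ∧
      ∀ P : Fin k → Fin (s + 2 + 1) → ℂ,
      MvPolynomial.eval (fun q : Fin k × Fin (s + 2 + 1) => P q.1 q.2) F ≠ 0 → ∀ d : ℕ,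
      ∑ i, (w i + 2 * (s + 3)) ^ (s + 3) + Cr (s + 3) * (M + 2 * (s + 3)) ^ (s + 3) ≤
        d ^ (s + 3) → H932R5.SurjAt w P d := by
    by_cases hex : ∃ d : ℕ, ∑ i, (w i + 2 * (s + 3)) ^ (s + 3) +
        Cr (s + 3) * (M + 2 * (s + 3)) ^ (s + 3) ≤ d ^ (s + 3)
    · obtain ⟨F, hF, h⟩ := indepU (E := s + 2) (by omega) w hM (Nat.find_spec hex)
      refine ⟨F, hF, fun P hP d hd => (h P hP).mono_d ?_⟩
      exact Nat.find_min' hex hd
    · exact ⟨1, one_ne_zero, fun P _ d hd => absurd ⟨d, hd⟩ hex⟩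
  obtain ⟨F2, hF20, hB'⟩ := hB
  obtain ⟨F1, hF1⟩ : ∃ F, F = ∏ d ∈ Finset.range (∑ i, w i + 1), FA d := ⟨_, rfl⟩
  have hF10 : F1 ≠ 0 := by
    rw [hF1]
    exact Finset.prod_ne_zero_iff.2 fun d _ => hFA d
  have hbd : ∀ d : ℕ, d ^ (s + 3) + Cr (s + 3) * M ^ (s + 3) < ∑ i, w i ^ (s + 3) →
      d ∈ Finset.range (∑ i, w i + 1) := by
    intro d hd
    rw [Finset.mem_range, Nat.lt_succ_iff]
    by_contra hcon
    push Not at hcon
    have h2 : ∑ i, w i ^ (s + 3) ≤ (∑ i, w i) ^ (s + 3) := by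
      obtain ⟨S, hS⟩ : ∃ S, S = ∑ i, w i := ⟨_, rfl⟩
      have h3 : ∀ i, w i ≤ S := fun i => by
        rw [hS]
        exact single_le_sum (f := w) (fun _ _ => Nat.zero_le _) (mem_univ i)
      calc ∑ i, w i ^ (s + 3) ≤ ∑ i, w i * S ^ (s + 2) := by
            refine sum_le_sum fun i _ => ?_
            rw [pow_succ, mul_comm]
            exact Nat.mul_le_mul_left _ (Nat.pow_le_pow_left (h3 i) _)
        _ = (∑ i, w i) ^ (s + 3) := by
            rw [← sum_mul, ← hS]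
            ring
    have h3 := Nat.pow_le_pow_left hcon.le (s + 3)
    omega
  refine generally_of_affine (F1 * F2) (mul_ne_zero hF10 hF20) fun P hv hP => ?_
  rw [map_mul] at hP
  have hP1 := left_ne_zero_of_mul hP
  have hP2 := right_ne_zero_of_mul hP
  rw [hF1, map_prod] at hP1
  have hE : ∀ d : ℕ, d ^ (s + 3) + Cr (s + 3) * M ^ (s + 3) < ∑ i, w i ^ (s + 3) →
      H932R5.Vd d w P = ⊥ := fun d hd =>
    vd_eq_bot (hA' d P (Finset.prod_ne_zero_iff.1 hP1 d (hbd d hd)) hd)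
  intro d
  rw [pforms_cons (E := s + 2)]
  have e1 : ∀ i, w i + (s + 3) - 1 = w i + (s + 2) := fun i => by omega
  have e2 : ∀ d : ℕ, d + (s + 3) = d + (s + 2) + 1 := fun d => by omega
  refine ⟨fun hd => ?_, fun hd => ?_, ?_⟩
  · simp only [e1, e2]
    have h5 := hE d hd
    refine ⟨h5, ?_⟩
    have h6 := H932R5.finrank_ge d w P
    rw [h5, finrank_bot] at h6
    exact h6
  · simp only [e1, e2]
    exact (hB' P hP2 d hd).finrank
  · obtain ⟨q, hq⟩ : ∃ q, q = Module.finrank ℂ ↥(H932R5.Vd d w P) := ⟨_, rfl⟩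
    rw [← hq]
    have hle : q ≤ (d + (s + 3)).choose (s + 3) := by
      rw [hq, e2]
      exact R873.SB.vd_le w P d
    by_cases hS : Cr (s + 3) * M ^ (s + 3) < ∑ i, w i ^ (s + 3)
    · obtain ⟨e, he1, he2⟩ := exists_e (r := s + 3) (by omega) hS
      by_cases hed : e ≤ d
      · right
        have h3 := R873.SB.vd_mono w P hed
        rw [hE e he1, finrank_bot, add_zero, ← hq] at h3
        have h4 : (e + (s + 3)).choose (s + 3) + q ≤ (d + (s + 3)).choose (s + 3) := by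
          rw [e2, e2]
          exact h3
        have h5 := Nat.mul_le_mul_left (s + 3).factorial h4
        rw [Nat.mul_add] at h5
        have h6 := fact_ge e (s + 3)
        omega
      · left
        push Not at hed
        have h3 : d ^ (s + 3) ≤ e ^ (s + 3) := Nat.pow_le_pow_left hed.le _
        rw [hq, hE d (by omega), finrank_bot]
    · right
      push Not at hS
      have h3 := Nat.mul_le_mul_left (s + 3).factorial hle
      omega

end Pool.Agent.L7h91.CUT
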