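import Pool.Agent.L7h91.CUT.Piece

/-!
# Several groups of points: cutting the simplex into pieces
-/

set_option autoImplicit false

namespace Pool.Agent.L7h91.CUT

open Finset Pool.Agent.TH603.EL Pool.Agent.TH3.IR Pool.Agent.L7h91.IR Pool.Agent.L7h91.TW

/-- the multiplicities restricted to a set of points -/
def rs {ι : Type} [DecidableEq ι] (J : Finset ι) (w : ι → ℕ) (i : ι) : ℕ := if i ∈ J then w i else 0

theorem empS_extend {ι σ : Type} [DecidableEq ι] [Fintype σ] {w : ι → ℕ} {J : Finset ι}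
    {D : Set (ℤ × (σ → ℤ))} (h : EmpS (fun i : J => w i) D) : EmpS (rs J w) D := by
  obtain ⟨K, _, _, x, y, hx, hy, hf⟩ := h
  refine ⟨K, inferInstance, inferInstance, fun i => if h : i ∈ J then x ⟨i, h⟩ else 1,
    fun i j => if h : i ∈ J then y ⟨i, h⟩ j else 1, ?_, ?_, ?_⟩
  · intro i
    simp only
    split_ifs with h
    · exact hx _
    · exact one_ne_zero
  · intro i j
    simp only
    split_ifs with h
    · exact hy _ _
    · exact one_ne_zero
  · intro f h1 h2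
    refine hf f h1 fun i => ?_
    have h3 := h2 i.1
    simp only [dif_pos i.2, rs, if_pos i.2] at h3
    exact h3

theorem empS_mono_w {ι σ : Type} [Fintype σ] {w w' : ι → ℕ} {D : Set (ℤ × (σ → ℤ))}
    (h : EmpS w D) (hw : ∀ i, w i ≤ w' i) : EmpS w' D := by
  obtain ⟨K, _, _, x, y, hx, hy, hf⟩ := h
  exact ⟨K, inferInstance, inferInstance, x, y, hx, hy, fun f h1 h2 =>
    hf f h1 fun i α γ h => h2 i α γ (lt_of_lt_of_le h (hw i))⟩

/-- the empty set of exponents -/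
theorem empS_empty {ι σ : Type} [Fintype σ] (w : ι → ℕ) : EmpS w (∅ : Set (ℤ × (σ → ℤ))) := by
  refine ⟨ℚ, inferInstance, inferInstance, fun _ => 1, fun _ _ => 1, fun _ => one_ne_zero,
    fun _ _ => one_ne_zero, fun f hf _ => ?_⟩
  have h1 := Set.subset_empty_iff.1 hf
  rw [Finset.coe_eq_empty] at h1
  exact Finsupp.support_eq_empty.1 h1

theorem nc_extend {ι : Type} (σ : Type) [Fintype ι] [DecidableEq ι] [Fintype σ] (w : ι → ℕ)
    (J : Finset ι) : Pool.Agent.TH3.IR.nc σ (fun i : J => w i) =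
      Pool.Agent.TH3.IR.nc σ (rs J w) := by
  unfold Pool.Agent.TH3.IR.nc
  rw [Finset.sum_coe_sort J (fun i => (w i + Fintype.card σ).choose (Fintype.card σ + 1))]
  rw [← Finset.sum_subset (Finset.subset_univ J)]
  · refine sum_congr rfl fun i hi => ?_
    unfold rs
    rw [if_pos hi]
  · intro i _ hi
    unfold rs
    rw [if_neg hi, zero_add]
    exact Nat.choose_eq_zero_of_lt (by omega)

theorem surS_extend {ι σ : Type} [Fintype ι] [DecidableEq ι] [Fintype σ] {w : ι → ℕ}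
    {J : Finset ι} {D : Set (ℤ × (σ → ℤ))} (h : SurS (fun i : J => w i) D) : SurS (rs J w) D := by
  obtain ⟨T, h1, h2, h3⟩ := h
  exact ⟨T, h1, h2.trans (nc_extend σ w J), empS_extend h3⟩

theorem rs_union {ι : Type} [DecidableEq ι] {J J' : Finset ι} (h : Disjoint J J') (w : ι → ℕ) :
    (fun i => rs J w i + rs J' w i) = rs (J ∪ J') w := by
  funext i
  unfold rs
  rw [Finset.disjoint_left] at h
  by_cases h1 : i ∈ J
  · rw [if_pos h1, if_neg (h h1), if_pos (mem_union_left _ h1), add_zero]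
  · by_cases h2 : i ∈ J'
    · rw [if_neg h1, if_pos h2, if_pos (mem_union_right _ h2), zero_add]
    · rw [if_neg h1, if_neg h2, if_neg (by rw [mem_union]; tauto)]

theorem rs_disj {ι : Type} [DecidableEq ι] {J J' : Finset ι} (h : Disjoint J J') (w : ι → ℕ)
    (i : ι) : rs J w i = 0 ∨ rs J' w i = 0 := by
  unfold rs
  rw [Finset.disjoint_left] at h
  by_cases h1 : i ∈ J
  · right
    rw [if_neg (h h1)]
  · left
    rw [if_neg h1]

theorem sumC {σ : Type} [Fintype σ] (κ : ℝ) (c : σ → ℤ) :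
    ∑ i, κ * (c i : ℝ) = κ * ∑ i, (c i : ℝ) := by rw [mul_sum]

/-- the condition on the pieces -/
def Ok (n : ℕ) (θ Λ : ℝ) : Prop := 0 < θ ∧ 0 < Λ ∧ 2 + θ / (4 * Λ ^ (n - 2)) < θ * Λ

/-- emptiness for a piece, of any size -/
theorem EmpS_piece' {ι σ : Type} [Fintype ι] [Fintype σ] (hσ : 2 ≤ Fintype.card σ)
    {w : ι → ℕ} {γ θ Λ L R : ℝ} (hγ0 : 0 ≤ γ) (hγθ : γ + θ ≤ 1) (hΛ : Ok (Fintype.card σ) θ Λ)
    (hk : (Fintype.card ι : ℝ) ≤ θ * Λ ^ (Fintype.card σ + 1))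
    (hw : Λ ^ Fintype.card σ * (R - L) < ∑ i, (w i : ℝ)) :
    EmpS w (RegS L R (fun _ : σ => -γ) (fun _ => γ + θ)) := by
  obtain ⟨h1, h2, h3⟩ := hΛ
  by_cases hLR : 0 ≤ R - L
  · exact EmpS_piece hσ hγ0 h1 hγθ h2 h3 hk hLR hw
  · push Not at hLR
    refine (empS_empty w).mono ?_
    rintro ⟨x, y⟩ ⟨k1, k2, k3⟩
    simp only [sumC] at k1 k2 k3
    exfalso
    have h4 : (0 : ℝ) ≤ ∑ i, (y i : ℝ) := sum_nonneg fun i _ => by exact_mod_cast k1 i
    have h5 : 0 ≤ θ * ∑ i, (y i : ℝ) := mul_nonneg h1.le h4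
    linarith

/-- the exponents of the polynomials of degree at most `d` -/
abbrev Std (σ : Type) [Fintype σ] (d : ℕ) : Set (ℤ × (σ → ℤ)) :=
  RegS (0 : ℝ) d (fun _ : σ => 0) (fun _ => 1)

/-- emptiness for several groups of points -/
theorem EmpS_asm {ι σ κ : Type} [Fintype ι] [DecidableEq ι] [Fintype σ] [DecidableEq κ]
    (hσ : 2 ≤ Fintype.card σ) {w : ι → ℕ} (d : ℕ) (J : κ → Finset ι) (θ Λ x : κ → ℝ)
    (C : Finset κ) :
    (∀ a ∈ C, ∀ b ∈ C, a ≠ b → Disjoint (J a) (J b)) → C.Nonempty →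
    (∀ a ∈ C, Ok (Fintype.card σ) (θ a) (Λ a)) →
    (∀ a ∈ C, ((J a).card : ℝ) ≤ θ a * Λ a ^ (Fintype.card σ + 1)) →
    (∀ a ∈ C, Λ a ^ Fintype.card σ * (θ a * x a) < ∑ i ∈ J a, (w i : ℝ)) →
    ∀ L γ : ℝ, 0 ≤ γ → γ + ∑ a ∈ C, θ a ≤ 1 →
      EmpS (rs (C.biUnion J) w) (RegS L (L + ∑ a ∈ C, θ a * x a) (fun _ : σ => -γ)
        (fun _ => γ + ∑ a ∈ C, θ a) ∩ Std σ d) := by
  have piece : ∀ a : κ, Ok (Fintype.card σ) (θ a) (Λ a) →
      ((J a).card : ℝ) ≤ θ a * Λ a ^ (Fintype.card σ + 1) →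
      Λ a ^ Fintype.card σ * (θ a * x a) < ∑ i ∈ J a, (w i : ℝ) →
      ∀ L γ : ℝ, 0 ≤ γ → γ + θ a ≤ 1 →
      EmpS (rs (J a) w) (RegS L (L + θ a * x a) (fun _ : σ => -γ) (fun _ => γ + θ a)) := by
    intro a h1 h3 h4 L γ h5 h6
    have e1 : L + θ a * x a - L = θ a * x a := by ring
    refine empS_extend (EmpS_piece' hσ h5 h6 h1 ?_ ?_)
    · rw [Fintype.card_coe]
      exact h3
    · rw [e1, Finset.sum_coe_sort (J a) (fun i => (w i : ℝ))]
      exact h4
  induction C using Finset.induction_on with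
  | empty =>
    intro _ h
    exact absurd h (by simp)
  | insert a C ha ih =>
    intro hdis _ hΛ hk hw L γ hγ hsum
    have ham := mem_insert_self a C
    have pJ := piece a (hΛ a ham) (hk a ham) (hw a ham) L γ hγ
    rcases C.eq_empty_or_nonempty with h0 | h0
    · subst h0
      rw [sum_insert ha, sum_empty, add_zero] at hsum
      rw [sum_insert ha, sum_empty, add_zero, sum_insert ha, sum_empty, add_zero,
        biUnion_insert, biUnion_empty, union_empty]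
      exact (pJ hsum).mono Set.inter_subset_left
    have hsub : ∀ b ∈ C, b ∈ insert a C := fun b h => mem_insert_of_mem h
    have hΘ : 0 < ∑ b ∈ C, θ b := sum_pos (fun b h => (hΛ b (hsub b h)).1) h0
    have hθa := (hΛ a ham).1
    rw [sum_insert ha] at hsum
    have h2 := ih (fun b hb c hc => hdis b (hsub b hb) c (hsub c hc)) h0
      (fun b hb => hΛ b (hsub b hb))
      (fun b hb => hk b (hsub b hb)) (fun b hb => hw b (hsub b hb)) (L + θ a * x a) (γ + θ a)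
      (by linarith) (by linarith)
    have hD : Disjoint (J a) (C.biUnion J) := by
      rw [Finset.disjoint_biUnion_right]
      intro b h
      exact hdis a ham b (hsub b h) (fun h' => ha (h' ▸ h))
    rw [sum_insert ha, sum_insert ha, biUnion_insert, ← rs_union hD]
    obtain ⟨Θ, hΘd⟩ : ∃ Θ, Θ = ∑ b ∈ C, θ b := ⟨_, rfl⟩
    obtain ⟨X, hX⟩ : ∃ X, X = ∑ b ∈ C, θ b * x b := ⟨_, rfl⟩
    rw [← hΘd] at h2 hsum hΘ ⊢
    rw [← hX] at h2 ⊢
    have key := EmpS_cut (w1 := rs (J a) w) (w2 := rs (C.biUnion J) w) (rs_disj hD w)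
      (D1 := RegS L (L + θ a * x a) (fun _ : σ => -γ) (fun _ => γ + θ a) ∩ Std σ d ∩
        {m | dot 1 (fun _ => γ + θ a) m < L + θ a * x a})
      (D2 := RegS (L + θ a * x a) (L + θ a * x a + X) (fun _ : σ => -(γ + θ a))
        (fun _ => γ + θ a + Θ) ∩ Std σ d)
      ((regS_std_finite σ d).subset fun m hm => hm.1.2)
      ((regS_std_finite σ d).subset fun m hm => hm.2)
      (fun m hm => ⟨(regS_std_mem hm.1.2).1, (regS_std_mem hm.1.2).2.1⟩)
      (fun m hm => ⟨(regS_std_mem hm.2).1, (regS_std_mem hm.2).2.1⟩)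
      ((pJ (by linarith)).mono fun m hm => hm.1.1) h2 1 (fun _ => γ + θ a) (L + θ a * x a)
      (fun m hm => hm.2) (by
        rintro ⟨z, y⟩ ⟨⟨k1, k2, k3⟩, -⟩
        simp only [sumC] at k2
        unfold dot
        simp only [sumC]
        linarith)
    refine key.mono ?_
    rintro ⟨z, y⟩ ⟨⟨k1, k2, k3⟩, k4⟩
    simp only [sumC] at k1 k2 k3
    by_cases h : dot 1 (fun _ => γ + θ a) (z, y) < L + θ a * x a
    · left
      refine ⟨⟨⟨k1, ?_, ?_⟩, k4⟩, h⟩
      · simp only [sumC]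
        exact k2
      · unfold dot at h
        simp only [sumC] at h ⊢
        linarith
    · right
      push Not at h
      refine ⟨⟨k1, ?_, ?_⟩, k4⟩
      · unfold dot at h
        simp only [sumC] at h ⊢
        linarith
      · simp only [sumC]
        have e1 : γ + θ a + Θ = γ + (θ a + Θ) := by ring
        rw [e1]
        linarith

/-- emptiness on the simplex for several groups of points -/
theorem EmpS_groups {ι σ κ : Type} [Fintype ι] [DecidableEq ι] [Fintype σ] [DecidableEq κ]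
    (hσ : 2 ≤ Fintype.card σ) {w : ι → ℕ} (d : ℕ) (J : κ → Finset ι) (θ Λ x : κ → ℝ)
    (C : Finset κ) (hdis : ∀ a ∈ C, ∀ b ∈ C, a ≠ b → Disjoint (J a) (J b)) (h0 : C.Nonempty)
    (hΛ : ∀ a ∈ C, Ok (Fintype.card σ) (θ a) (Λ a))
    (hk : ∀ a ∈ C, ((J a).card : ℝ) ≤ θ a * Λ a ^ (Fintype.card σ + 1))
    (hw : ∀ a ∈ C, Λ a ^ Fintype.card σ * (θ a * x a) < ∑ i ∈ J a, (w i : ℝ))
    (hsum : ∑ a ∈ C, θ a ≤ 1) (hx : (d : ℝ) ≤ ∑ a ∈ C, θ a * x a) : EmpS w (Std σ d) := by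
  have h1 := EmpS_asm hσ d J θ Λ x C hdis h0 hΛ hk hw 0 0 le_rfl (by rw [zero_add]; exact hsum)
  simp only [zero_add, neg_zero] at h1
  refine (empS_mono_w h1 fun i => ?_).mono ?_
  · unfold rs
    split_ifs
    · exact le_rfl
    · exact Nat.zero_le _
  · rintro ⟨z, y⟩ h
    obtain ⟨k1, k2, k3⟩ := h
    have k4 : (z, y) ∈ Std σ d := ⟨k1, k2, k3⟩
    simp only [sumC] at k1 k2 k3
    refine ⟨⟨k1, ?_, ?_⟩, k4⟩
    · simp only [sumC]
      exact k2
    · simp only [sumC]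
      have h4 : (0 : ℝ) ≤ ∑ i, (y i : ℝ) := sum_nonneg fun i _ => by exact_mod_cast k1 i
      have h5 : (∑ a ∈ C, θ a) * ∑ i, (y i : ℝ) ≤ 1 * ∑ i, (y i : ℝ) :=
        mul_le_mul_of_nonneg_right hsum h4
      linarith

/-- the shortened pieces lie in the simplex -/
theorem piece_subS {σ : Type} [Fintype σ] {α β δ : ℝ} {d : ℕ} (hδ : 0 < δ) (hα : 0 ≤ α)
    (hαβ : α ≤ β) (hβ : β ≤ 1) : RegS (α * d + δ) (β * d) (fun _ : σ => -α) (fun _ => β) ⊆
      Std σ d := by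
  rintro ⟨x, y⟩ ⟨k1, k2, k3⟩
  simp only [sumC] at k1 k2 k3
  obtain ⟨s, hs⟩ : ∃ s, s = (d : ℝ) - ∑ i, (y i : ℝ) := ⟨_, rfl⟩
  have h1 : α * s + δ ≤ x := by
    rw [hs]
    linarith
  have h2 : x ≤ β * s := by
    rw [hs]
    linarith
  have h3 : 0 ≤ s := by
    by_contra hcon
    push Not at hcon
    nlinarith
  have h4 : 0 ≤ α * s := mul_nonneg hα h3
  have h5 : β * s ≤ 1 * s := mul_le_mul_of_nonneg_right hβ h3
  refine ⟨k1, ?_, ?_⟩
  · simp only [sumC]
    linarith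
  · simp only [sumC]
    rw [hs] at h5 h2
    linarith

/-- independence for several groups of points -/
theorem SurS_asm {ι σ κ : Type} [Fintype ι] [DecidableEq ι] [Fintype σ] [DecidableEq κ]
    (hσ : 2 ≤ Fintype.card σ) {w : ι → ℕ} (d : ℕ) (J : κ → Finset ι) (θ Λ : κ → ℝ) (M : κ → ℕ)
    {δ : ℝ} (hδ : 0 < δ) (C : Finset κ) :
    (∀ a ∈ C, ∀ b ∈ C, a ≠ b → Disjoint (J a) (J b)) →
    (∀ a ∈ C, ∀ i ∈ J a, w i = M a) → (∀ a ∈ C, 3 * δ ≤ θ a) →
    (∀ a ∈ C, Ok (Fintype.card σ) (θ a) (Λ a)) →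
    (∀ a ∈ C, θ a * Λ a ^ (Fintype.card σ + 1) = ((J a).card : ℝ)) →
    (∀ a ∈ C, Λ a * (M a + Fintype.card σ + 1) + Fintype.card σ ≤ d) →
    ∀ γ : ℝ, 0 ≤ γ → γ + ∑ a ∈ C, θ a ≤ 1 →
      SurS (rs (C.biUnion J) w) (RegS (γ * d + δ) ((γ + ∑ a ∈ C, θ a) * d)
        (fun _ : σ => -γ) (fun _ => γ + ∑ a ∈ C, θ a)) := by
  have piece : ∀ a : κ, (∀ i ∈ J a, w i = M a) → 3 * δ ≤ θ a →
      Ok (Fintype.card σ) (θ a) (Λ a) →
      θ a * Λ a ^ (Fintype.card σ + 1) = ((J a).card : ℝ) →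
      Λ a * (M a + Fintype.card σ + 1) + Fintype.card σ ≤ d →
      ∀ γ : ℝ, 0 ≤ γ → γ + θ a ≤ 1 →
      SurS (rs (J a) w) (RegS (γ * d + δ) ((γ + θ a) * d) (fun _ : σ => -γ)
        (fun _ => γ + θ a)) := by
    intro a h0 h1 h2 h3 h4 γ h5 h6
    apply surS_extend
    have e0 : (fun i : J a => w i) = fun _ => M a := by
      funext i
      exact h0 i.1 i.2
    rw [e0]
    obtain ⟨g1, g2, g3⟩ := h2
    refine SurS_piece hσ (M a) h5 g1 h6 g2 g3 ?_ ?_
    · rw [Fintype.card_coe]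
      exact h3
    · have := mul_le_mul_of_nonneg_left h4 g1.le
      linarith
  induction C using Finset.induction_on with
  | empty =>
    intro _ _ _ _ _ _ γ _ _
    refine ⟨∅, by simp, ?_, ?_⟩
    · rw [Finset.card_empty, biUnion_empty]
      unfold Pool.Agent.TH3.IR.nc rs
      symm
      refine sum_eq_zero fun i _ => ?_
      rw [if_neg (by simp), zero_add]
      exact Nat.choose_eq_zero_of_lt (by omega)
    · rw [Finset.coe_empty]
      exact empS_empty _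
  | insert a C ha ih =>
    intro hdis hM hθ hΛ hk hw γ hγ hsum
    have ham := mem_insert_self a C
    have hsub : ∀ b ∈ C, b ∈ insert a C := fun b h => mem_insert_of_mem h
    have hΘ : 0 ≤ ∑ b ∈ C, θ b := sum_nonneg (fun b h => (hΛ b (hsub b h)).1.le)
    have hθa := (hΛ a ham).1
    rw [sum_insert ha] at hsum
    have pJ := piece a (hM a ham) (hθ a ham) (hΛ a ham) (hk a ham) (hw a ham) γ hγ (by linarith)
    have h2 := ih (fun b hb c hc => hdis b (hsub b hb) c (hsub c hc))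
      (fun b hb => hM b (hsub b hb))
      (fun b hb => hθ b (hsub b hb)) (fun b hb => hΛ b (hsub b hb))
      (fun b hb => hk b (hsub b hb)) (fun b hb => hw b (hsub b hb)) (γ + θ a) (by linarith)
      (by linarith)
    have hD : Disjoint (J a) (C.biUnion J) := by
      rw [Finset.disjoint_biUnion_right]
      intro b h
      exact hdis a ham b (hsub b h) (fun h' => ha (h' ▸ h))
    rw [sum_insert ha, biUnion_insert, ← rs_union hD]
    obtain ⟨Θ, hΘd⟩ : ∃ Θ, Θ = ∑ b ∈ C, θ b := ⟨_, rfl⟩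
    rw [← hΘd] at h2 hsum hΘ ⊢
    have f1 : RegS (γ * d + δ) ((γ + θ a) * d) (fun _ : σ => -γ) (fun _ => γ + θ a) ⊆ Std σ d :=
      piece_subS hδ hγ (by linarith) (by linarith)
    have f2 : RegS ((γ + θ a) * d + δ) ((γ + θ a + Θ) * d) (fun _ : σ => -(γ + θ a))
        (fun _ => γ + θ a + Θ) ⊆ Std σ d :=
      piece_subS hδ (by linarith) (by linarith) (by linarith)
    have key := SurS_cut (w1 := rs (J a) w) (w2 := rs (C.biUnion J) w) (rs_disj hD w)
      (fun m hm => ⟨(regS_std_mem (f1 hm)).1, (regS_std_mem (f1 hm)).2.1⟩)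
      (fun m hm => ⟨(regS_std_mem (f2 hm)).1, (regS_std_mem (f2 hm)).2.1⟩)
      pJ h2 1 (fun _ => γ + θ a) ((γ + θ a) * d + δ)
      (by
        rintro ⟨x, y⟩ ⟨k1, k2, k3⟩
        simp only [sumC] at k3
        unfold dot
        simp only [sumC]
        linarith)
      (by
        rintro ⟨x, y⟩ ⟨k1, k2, k3⟩
        simp only [sumC] at k2
        unfold dot
        simp only [sumC]
        linarith)
    refine key.mono ?_
    rintro ⟨x, y⟩ (⟨k1, k2, k3⟩ | ⟨k1, k2, k3⟩)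
    · simp only [sumC] at k1 k2 k3
      obtain ⟨s, hs⟩ : ∃ s, s = (d : ℝ) - ∑ i, (y i : ℝ) := ⟨_, rfl⟩
      have h1 : γ * s + δ ≤ x := by
        rw [hs]
        linarith
      have h2 : x ≤ (γ + θ a) * s := by
        rw [hs]
        linarith
      have h3 : 0 ≤ s := by
        by_contra hcon
        push Not at hcon
        nlinarith
      have h4 : 0 ≤ Θ * s := mul_nonneg hΘ h3
      refine ⟨k1, ?_, ?_⟩
      · simp only [sumC]
        exact k2
      · simp only [sumC]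
        rw [hs] at h4 h2
        linarith
    · simp only [sumC] at k1 k2 k3
      obtain ⟨s, hs⟩ : ∃ s, s = (d : ℝ) - ∑ i, (y i : ℝ) := ⟨_, rfl⟩
      have h1 : (γ + θ a) * s + δ ≤ x := by
        rw [hs]
        linarith
      have h2 : x ≤ (γ + θ a + Θ) * s := by
        rw [hs]
        linarith
      have h3 : 0 ≤ s := by
        by_contra hcon
        push Not at hcon
        nlinarith
      have h4 : 0 ≤ θ a * s := mul_nonneg hθa.le h3
      refine ⟨k1, ?_, ?_⟩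
      · simp only [sumC]
        rw [hs] at h4 h1
        linarith
      · simp only [sumC]
        have e1 : γ + (θ a + Θ) = γ + θ a + Θ := by ring
        rw [e1]
        exact k3

/-- independence on the simplex for several groups of points -/
theorem SurS_groups {ι σ κ : Type} [Fintype ι] [DecidableEq ι] [Fintype σ] [DecidableEq κ]
    (hσ : 2 ≤ Fintype.card σ) {w : ι → ℕ} (d : ℕ) (J : κ → Finset ι) (θ Λ : κ → ℝ) (M : κ → ℕ)
    (C : Finset κ) (hdis : ∀ a ∈ C, ∀ b ∈ C, a ≠ b → Disjoint (J a) (J b))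
    (hcov : ∀ i, ∃ a ∈ C, i ∈ J a) (hM : ∀ a ∈ C, ∀ i ∈ J a, w i = M a)
    (hΛ : ∀ a ∈ C, Ok (Fintype.card σ) (θ a) (Λ a))
    (hk : ∀ a ∈ C, θ a * Λ a ^ (Fintype.card σ + 1) = ((J a).card : ℝ))
    (hw : ∀ a ∈ C, Λ a * (M a + Fintype.card σ + 1) + Fintype.card σ ≤ d)
    (hsum : ∑ a ∈ C, θ a ≤ 1) : SurS w (Std σ d) := by
  obtain ⟨δ, hδ, hδθ⟩ : ∃ δ : ℝ, 0 < δ ∧ ∀ a ∈ C, 3 * δ ≤ θ a := by
    rcases C.eq_empty_or_nonempty with h0 | h0
    · exact ⟨1, one_pos, by simp [h0]⟩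
    · obtain ⟨b, hb, hmin⟩ := exists_min_image C θ h0
      have := (hΛ b hb).1
      exact ⟨θ b / 3, by positivity, fun a ha => by have := hmin a ha; linarith⟩
  have h1 := SurS_asm hσ d J θ Λ M hδ C hdis hM hδθ hΛ hk hw 0 le_rfl
    (by rw [zero_add]; exact hsum)
  have h2 : rs (C.biUnion J) w = w := by
    funext i
    unfold rs
    rw [if_pos]
    rw [mem_biUnion]
    exact hcov i
  rw [h2] at h1
  refine h1.mono (piece_subS hδ le_rfl ?_ (by rw [zero_add]; exact hsum))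
  rw [zero_add]
  exact sum_nonneg fun a ha => (hΛ a ha).1.le

end Pool.Agent.L7h91.CUT
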