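import Pool.Agent.L7h91.CUT.Lev
import Pool.Agent.L7h91.CUT.Asm

/-!
# Several groups of points: cutting the flattened simplex into pieces
-/

set_option autoImplicit false

namespace Pool.Agent.L7h91.CUT

open Finset Pool.Agent.TH603.EL Pool.Agent.TH3.IR Pool.Agent.L7h91.IR Pool.Agent.L7h91.TW

/-- the flattened simplex with the slopes `A` -/
abbrev StdA (σ : Type) [Fintype σ] (A W : ℝ) : Set (ℤ × (σ → ℤ)) :=
  RegS (0 : ℝ) W (fun _ : σ => 0) (fun _ => A)

theorem stdA_sub {σ : Type} [Fintype σ] {A W : ℝ} (hA : 1 ≤ A) :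
    StdA σ A W ⊆ Std σ ⌈W⌉₊ := by
  rintro ⟨x, y⟩ ⟨k1, k2, k3⟩
  simp only [sumC] at k1 k2 k3
  refine ⟨k1, ?_, ?_⟩
  · simp only [sumC]
    exact k2
  · simp only [sumC]
    have h4 : (0 : ℝ) ≤ ∑ i, (y i : ℝ) := sum_nonneg fun i _ => by exact_mod_cast k1 i
    have h5 : 1 * ∑ i, (y i : ℝ) ≤ A * ∑ i, (y i : ℝ) := mul_le_mul_of_nonneg_right hA h4
    have h6 := Nat.le_ceil W
    linarith

theorem stdA_finite {σ : Type} [Fintype σ] {A W : ℝ} (hA : 1 ≤ A) : (StdA σ A W).Finite :=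
  (regS_std_finite σ ⌈W⌉₊).subset (stdA_sub hA)

theorem stdA_mem {σ : Type} [Fintype σ] {A W : ℝ} (hA : 1 ≤ A) {m : ℤ × (σ → ℤ)}
    (h : m ∈ StdA σ A W) : 0 ≤ m.1 ∧ ∀ j, 0 ≤ m.2 j :=
  ⟨(regS_std_mem (stdA_sub hA h)).1, (regS_std_mem (stdA_sub hA h)).2.1⟩

/-- emptiness for several groups of points -/
theorem EmpS_asmA {ι σ κ : Type} [Fintype ι] [DecidableEq ι] [Fintype σ] [DecidableEq κ]
    {w : ι → ℕ} {A W : ℝ} (hA : 1 ≤ A) (J : κ → Finset ι) (θ x : κ → ℝ) (C : Finset κ) :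
    (∀ a ∈ C, ∀ b ∈ C, a ≠ b → Disjoint (J a) (J b)) → C.Nonempty →
    (∀ a ∈ C, 0 < θ a) →
    (∀ a ∈ C, ∀ L γ : ℝ, 0 ≤ γ → γ + θ a ≤ A →
      EmpS (rs (J a) w) (RegS L (L + θ a * x a) (fun _ : σ => -γ) (fun _ => γ + θ a))) →
    ∀ L γ : ℝ, 0 ≤ γ → γ + ∑ a ∈ C, θ a ≤ A →
      EmpS (rs (C.biUnion J) w) (RegS L (L + ∑ a ∈ C, θ a * x a) (fun _ : σ => -γ)
        (fun _ => γ + ∑ a ∈ C, θ a) ∩ StdA σ A W) := by
  induction C using Finset.induction_on with
  | empty =>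
    intro _ h
    exact absurd h (by simp)
  | insert a C ha ih =>
    intro hdis _ hΛ piece L γ hγ hsum
    have ham := mem_insert_self a C
    have pJ := piece a ham L γ hγ
    rcases C.eq_empty_or_nonempty with h0 | h0
    · subst h0
      rw [sum_insert ha, sum_empty, add_zero] at hsum
      rw [sum_insert ha, sum_empty, add_zero, sum_insert ha, sum_empty, add_zero,
        biUnion_insert, biUnion_empty, union_empty]
      exact (pJ hsum).mono Set.inter_subset_left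
    have hsub : ∀ b ∈ C, b ∈ insert a C := fun b h => mem_insert_of_mem h
    have hΘ : 0 < ∑ b ∈ C, θ b := sum_pos (fun b h => hΛ b (hsub b h)) h0
    have hθa := hΛ a ham
    rw [sum_insert ha] at hsum
    have h2 := ih (fun b hb c hc => hdis b (hsub b hb) c (hsub c hc)) h0
      (fun b hb => hΛ b (hsub b hb)) (fun b hb => piece b (hsub b hb)) (L + θ a * x a) (γ + θ a)
      (by linarith) (by linarith)
    have hD : Disjoint (J a) (C.biUnion J) := by
      rw [Finset.disjoint_biUnion_right]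
      intro b h
      exact hdis a ham b (hsub b h) (fun h' => ha (h' ▸ h))
    rw [sum_insert ha, sum_insert ha, biUnion_insert, ← rs_union hD]
    obtain ⟨Θ, hΘd⟩ : ∃ Θ, Θ = ∑ b ∈ C, θ b := ⟨_, rfl⟩
    obtain ⟨X, hX⟩ : ∃ X, X = ∑ b ∈ C, θ b * x b := ⟨_, rfl⟩
    rw [← hΘd] at h2 hsum hΘ ⊢
    rw [← hX] at h2 ⊢
    have key := EmpS_cut (w1 := rs (J a) w) (w2 := rs (C.biUnion J) w) (rs_disj hD w)
      (D1 := RegS L (L + θ a * x a) (fun _ : σ => -γ) (fun _ => γ + θ a) ∩ StdA σ A W ∩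
        {m | dot 1 (fun _ => γ + θ a) m < L + θ a * x a})
      (D2 := RegS (L + θ a * x a) (L + θ a * x a + X) (fun _ : σ => -(γ + θ a))
        (fun _ => γ + θ a + Θ) ∩ StdA σ A W)
      ((stdA_finite hA).subset fun m hm => hm.1.2)
      ((stdA_finite hA).subset fun m hm => hm.2)
      (fun m hm => stdA_mem hA hm.1.2)
      (fun m hm => stdA_mem hA hm.2)
      ((pJ (by linarith)).mono fun m hm => hm.1.1) h2 1 (fun _ => γ + θ a) (L + θ a * x a)
      (fun m hm => hm.2) (by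
        rintro ⟨z, y⟩ ⟨⟨k1, k2, k3⟩, -⟩
        simp only [sumC] at k2
        unfold dot
        simp only [sumC]
        linarith)
    refine key.mono ?_
    rintro ⟨z, y⟩ ⟨⟨k1, k2, k3⟩, k4⟩
    simp only [sumC] at k1 k2 k3
    by_cases h : dot 1 (fun _ => γ + θ a) (z, y) < L + θ a * x a
    · left
      refine ⟨⟨⟨k1, ?_, ?_⟩, k4⟩, h⟩
      · simp only [sumC]
        exact k2
      · unfold dot at h
        simp only [sumC] at h ⊢
        linarith
    · right
      push Not at h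
      refine ⟨⟨k1, ?_, ?_⟩, k4⟩
      · unfold dot at h
        simp only [sumC] at h ⊢
        linarith
      · simp only [sumC]
        have e1 : γ + θ a + Θ = γ + (θ a + Θ) := by ring
        rw [e1]
        linarith

/-- emptiness on the flattened simplex for several groups of points -/
theorem EmpS_groupsA {ι σ κ : Type} [Fintype ι] [DecidableEq ι] [Fintype σ] [DecidableEq κ]
    {w : ι → ℕ} {A W : ℝ} (hA : 1 ≤ A) (J : κ → Finset ι) (θ x : κ → ℝ)
    (C : Finset κ) (hdis : ∀ a ∈ C, ∀ b ∈ C, a ≠ b → Disjoint (J a) (J b)) (h0 : C.Nonempty)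
    (hθ : ∀ a ∈ C, 0 < θ a)
    (hp : ∀ a ∈ C, ∀ L γ : ℝ, 0 ≤ γ → γ + θ a ≤ A →
      EmpS (rs (J a) w) (RegS L (L + θ a * x a) (fun _ : σ => -γ) (fun _ => γ + θ a)))
    (hsum : ∑ a ∈ C, θ a ≤ A) (hx : W ≤ ∑ a ∈ C, θ a * x a) : EmpS w (StdA σ A W) := by
  have h1 := EmpS_asmA (W := W) hA J θ x C hdis h0 hθ hp 0 0 le_rfl
    (by rw [zero_add]; exact hsum)
  simp only [zero_add, neg_zero] at h1
  refine (empS_mono_w h1 fun i => ?_).mono ?_
  · unfold rs
    split_ifs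
    · exact le_rfl
    · exact Nat.zero_le _
  · rintro ⟨z, y⟩ h
    obtain ⟨k1, k2, k3⟩ := h
    have k4 : (z, y) ∈ StdA σ A W := ⟨k1, k2, k3⟩
    simp only [sumC] at k1 k2 k3
    refine ⟨⟨k1, ?_, ?_⟩, k4⟩
    · simp only [sumC]
      exact k2
    · simp only [sumC]
      have h4 : (0 : ℝ) ≤ ∑ i, (y i : ℝ) := sum_nonneg fun i _ => by exact_mod_cast k1 i
      have h5 : (∑ a ∈ C, θ a) * ∑ i, (y i : ℝ) ≤ A * ∑ i, (y i : ℝ) :=
        mul_le_mul_of_nonneg_right hsum h4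
      linarith

/-- the shortened pieces lie in the flattened simplex -/
theorem piece_subA {σ : Type} [Fintype σ] {α β δ A D : ℝ} (hδ : 0 < δ) (hα : 0 ≤ α)
    (hαβ : α ≤ β) (hβ : β ≤ A) : RegS (α * D + δ) (β * D) (fun _ : σ => -α) (fun _ => β) ⊆
      StdA σ A (A * D) := by
  rintro ⟨x, y⟩ ⟨k1, k2, k3⟩
  simp only [sumC] at k1 k2 k3
  obtain ⟨s, hs⟩ : ∃ s, s = D - ∑ i, (y i : ℝ) := ⟨_, rfl⟩
  have h1 : α * s + δ ≤ x := by
    rw [hs]
    linarith
  have h2 : x ≤ β * s := by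
    rw [hs]
    linarith
  have h3 : 0 ≤ s := by
    by_contra hcon
    push Not at hcon
    nlinarith
  have h4 : 0 ≤ α * s := mul_nonneg hα h3
  have h5 : β * s ≤ A * s := mul_le_mul_of_nonneg_right hβ h3
  refine ⟨k1, ?_, ?_⟩
  · simp only [sumC]
    linarith
  · simp only [sumC]
    rw [hs] at h5 h2
    linarith

/-- independence for several groups of points -/
theorem SurS_asmA {ι σ κ : Type} [Fintype ι] [DecidableEq ι] [Fintype σ] [DecidableEq κ]
    {w : ι → ℕ} {A D : ℝ} (hA : 1 ≤ A) (J : κ → Finset ι) (θ : κ → ℝ)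
    {δ : ℝ} (hδ : 0 < δ) (C : Finset κ) :
    (∀ a ∈ C, ∀ b ∈ C, a ≠ b → Disjoint (J a) (J b)) → (∀ a ∈ C, 0 < θ a) →
    (∀ a ∈ C, ∀ γ : ℝ, 0 ≤ γ → γ + θ a ≤ A →
      SurS (rs (J a) w) (RegS (γ * D + δ) ((γ + θ a) * D) (fun _ : σ => -γ)
        (fun _ => γ + θ a))) →
    ∀ γ : ℝ, 0 ≤ γ → γ + ∑ a ∈ C, θ a ≤ A →
      SurS (rs (C.biUnion J) w) (RegS (γ * D + δ) ((γ + ∑ a ∈ C, θ a) * D)
        (fun _ : σ => -γ) (fun _ => γ + ∑ a ∈ C, θ a)) := by
  induction C using Finset.induction_on with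
  | empty =>
    intro _ _ _ γ _ _
    refine ⟨∅, by simp, ?_, ?_⟩
    · rw [Finset.card_empty, biUnion_empty]
      unfold Pool.Agent.TH3.IR.nc rs
      symm
      refine sum_eq_zero fun i _ => ?_
      rw [if_neg (by simp), zero_add]
      exact Nat.choose_eq_zero_of_lt (by omega)
    · rw [Finset.coe_empty]
      exact empS_empty _
  | insert a C ha ih =>
    intro hdis hΛ piece γ hγ hsum
    have ham := mem_insert_self a C
    have hsub : ∀ b ∈ C, b ∈ insert a C := fun b h => mem_insert_of_mem h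
    have hΘ : 0 ≤ ∑ b ∈ C, θ b := sum_nonneg (fun b h => (hΛ b (hsub b h)).le)
    have hθa := hΛ a ham
    rw [sum_insert ha] at hsum
    have pJ := piece a ham γ hγ (by linarith)
    have h2 := ih (fun b hb c hc => hdis b (hsub b hb) c (hsub c hc))
      (fun b hb => hΛ b (hsub b hb)) (fun b hb => piece b (hsub b hb)) (γ + θ a) (by linarith)
      (by linarith)
    have hD : Disjoint (J a) (C.biUnion J) := by
      rw [Finset.disjoint_biUnion_right]
      intro b h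
      exact hdis a ham b (hsub b h) (fun h' => ha (h' ▸ h))
    rw [sum_insert ha, biUnion_insert, ← rs_union hD]
    obtain ⟨Θ, hΘd⟩ : ∃ Θ, Θ = ∑ b ∈ C, θ b := ⟨_, rfl⟩
    rw [← hΘd] at h2 hsum hΘ ⊢
    have f1 : RegS (γ * D + δ) ((γ + θ a) * D) (fun _ : σ => -γ) (fun _ => γ + θ a) ⊆
        StdA σ A (A * D) := piece_subA hδ hγ (by linarith) (by linarith)
    have f2 : RegS ((γ + θ a) * D + δ) ((γ + θ a + Θ) * D) (fun _ : σ => -(γ + θ a))
        (fun _ => γ + θ a + Θ) ⊆ StdA σ A (A * D) :=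
      piece_subA hδ (by linarith) (by linarith) (by linarith)
    have key := SurS_cut (w1 := rs (J a) w) (w2 := rs (C.biUnion J) w) (rs_disj hD w)
      (fun m hm => stdA_mem hA (f1 hm)) (fun m hm => stdA_mem hA (f2 hm))
      pJ h2 1 (fun _ => γ + θ a) ((γ + θ a) * D + δ)
      (by
        rintro ⟨x, y⟩ ⟨k1, k2, k3⟩
        simp only [sumC] at k3
        unfold dot
        simp only [sumC]
        linarith)
      (by
        rintro ⟨x, y⟩ ⟨k1, k2, k3⟩
        simp only [sumC] at k2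
        unfold dot
        simp only [sumC]
        linarith)
    refine key.mono ?_
    rintro ⟨x, y⟩ (⟨k1, k2, k3⟩ | ⟨k1, k2, k3⟩)
    · simp only [sumC] at k1 k2 k3
      obtain ⟨s, hs⟩ : ∃ s, s = D - ∑ i, (y i : ℝ) := ⟨_, rfl⟩
      have h1 : γ * s + δ ≤ x := by
        rw [hs]
        linarith
      have h2 : x ≤ (γ + θ a) * s := by
        rw [hs]
        linarith
      have h3 : 0 ≤ s := by
        by_contra hcon
        push Not at hcon
        nlinarith
      have h4 : 0 ≤ Θ * s := mul_nonneg hΘ h3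
      refine ⟨k1, ?_, ?_⟩
      · simp only [sumC]
        exact k2
      · simp only [sumC]
        rw [hs] at h4 h2
        linarith
    · simp only [sumC] at k1 k2 k3
      obtain ⟨s, hs⟩ : ∃ s, s = D - ∑ i, (y i : ℝ) := ⟨_, rfl⟩
      have h1 : (γ + θ a) * s + δ ≤ x := by
        rw [hs]
        linarith
      have h2 : x ≤ (γ + θ a + Θ) * s := by
        rw [hs]
        linarith
      have h3 : 0 ≤ s := by
        by_contra hcon
        push Not at hcon
        nlinarith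
      have h4 : 0 ≤ θ a * s := mul_nonneg hθa.le h3
      refine ⟨k1, ?_, ?_⟩
      · simp only [sumC]
        rw [hs] at h4 h1
        linarith
      · simp only [sumC]
        have e1 : γ + (θ a + Θ) = γ + θ a + Θ := by ring
        rw [e1]
        exact k3

/-- independence on the flattened simplex for several groups of points -/
theorem SurS_groupsA {ι σ κ : Type} [Fintype ι] [DecidableEq ι] [Fintype σ] [DecidableEq κ]
    {w : ι → ℕ} {A D : ℝ} (hA : 1 ≤ A) (J : κ → Finset ι) (θ : κ → ℝ)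
    (C : Finset κ) (hdis : ∀ a ∈ C, ∀ b ∈ C, a ≠ b → Disjoint (J a) (J b))
    (hcov : ∀ i, ∃ a ∈ C, i ∈ J a) (hθ : ∀ a ∈ C, 0 < θ a) {δ : ℝ} (hδ : 0 < δ)
    (hp : ∀ a ∈ C, ∀ γ : ℝ, 0 ≤ γ → γ + θ a ≤ A →
      SurS (rs (J a) w) (RegS (γ * D + δ) ((γ + θ a) * D) (fun _ : σ => -γ)
        (fun _ => γ + θ a)))
    (hsum : ∑ a ∈ C, θ a ≤ A) : SurS w (StdA σ A (A * D)) := by
  have h1 := SurS_asmA hA J θ hδ C hdis hθ hp 0 le_rfl
    (by rw [zero_add]; exact hsum)
  have h2 : rs (C.biUnion J) w = w := by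
    funext i
    unfold rs
    rw [if_pos]
    rw [mem_biUnion]
    exact hcov i
  rw [h2] at h1
  refine h1.mono (piece_subA hδ le_rfl ?_ (by rw [zero_add]; exact hsum))
  rw [zero_add]
  exact sum_nonneg fun a ha => (hθ a ha).le

end Pool.Agent.L7h91.CUT
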