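import Pool.Agent.L7h91.CUT.Freq

/-!
# Classes of points with similar multiplicities, all of them large
-/

set_option autoImplicit false

namespace Pool.Agent.L7h91.CUT

open Finset

/-- the number `(∑ (u i) ^ r) ^ (1 / r)` -/
noncomputable def sz (r : ℕ) {k : ℕ} (u : Fin k → ℝ) : ℝ := (∑ i, u i ^ r) ^ (1 / (r : ℝ))

/-- the class of `i` -/
def cls {k : ℕ} (g : Fin k → Fin k) (i : Fin k) : Finset (Fin k) :=
  univ.filter (fun j => g j = g i)

/-- the average over the class of `i` -/
noncomputable def mean {k : ℕ} (g : Fin k → Fin k) (m : Fin k → ℕ) (i : Fin k) : ℝ :=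
  (∑ j ∈ cls g i, (m j : ℝ)) / (cls g i).card

/-- the maximum over the class of `i` -/
def top {k : ℕ} (g : Fin k → Fin k) (m : Fin k → ℕ) (i : Fin k) : ℕ := (cls g i).sup m

theorem sz_nonneg (r : ℕ) {k : ℕ} {u : Fin k → ℝ} (hu : ∀ i, 0 ≤ u i) : 0 ≤ sz r u := by
  unfold sz
  apply Real.rpow_nonneg
  exact sum_nonneg fun i _ => pow_nonneg (hu i) _

theorem sz_pow {r : ℕ} (hr : 1 ≤ r) {k : ℕ} {u : Fin k → ℝ} (hu : ∀ i, 0 ≤ u i) :
    sz r u ^ r = ∑ i, u i ^ r := by
  unfold sz
  have h0 : 0 ≤ ∑ i, u i ^ r := sum_nonneg fun i _ => pow_nonneg (hu i) _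
  have hr0 : (r : ℝ) ≠ 0 := by
    have : 0 < r := hr
    positivity
  rw [← Real.rpow_natCast, ← Real.rpow_mul h0, one_div, inv_mul_cancel₀ hr0, Real.rpow_one]

theorem sz_pos {r k : ℕ} {u : Fin k → ℝ} (hk : 0 < k) (hu : ∀ i, 0 < u i) : 0 < sz r u := by
  unfold sz
  apply Real.rpow_pos_of_pos
  exact sum_pos (fun i _ => pow_pos (hu i) _) ⟨⟨0, hk⟩, mem_univ _⟩

theorem sz_mono {r k : ℕ} {u w : Fin k → ℝ} (hu : ∀ i, 0 ≤ u i) (h : ∀ i, u i ≤ w i) :
    sz r u ≤ sz r w := by
  unfold sz
  apply Real.rpow_le_rpow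
  · exact sum_nonneg fun i _ => pow_nonneg (hu i) _
  · exact sum_le_sum fun i _ => pow_le_pow_left₀ (hu i) (h i) _
  · positivity

theorem sz_add {r : ℕ} (hr : 1 ≤ r) {k : ℕ} {u : Fin k → ℝ} (hu : ∀ i, 0 ≤ u i) {a : ℝ}
    (ha : 0 ≤ a) : sz r (fun i => u i + a) ≤ sz r u + a * (k : ℝ) ^ (1 / (r : ℝ)) := by
  have hr1 : (1 : ℝ) ≤ (r : ℝ) := by exact_mod_cast hr
  have hr0 : (r : ℝ) ≠ 0 := by linarith
  have h := Real.Lp_add_le (univ : Finset (Fin k)) u (fun _ => a) hr1
  have e1 : ∀ i : Fin k, |u i + a| ^ (r : ℝ) = (u i + a) ^ r := by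
    intro i
    rw [abs_of_nonneg (add_nonneg (hu i) ha), Real.rpow_natCast]
  have e2 : ∀ i : Fin k, |u i| ^ (r : ℝ) = u i ^ r := by
    intro i
    rw [abs_of_nonneg (hu i), Real.rpow_natCast]
  simp only [e1, e2] at h
  have e3 : (∑ _i : Fin k, |a| ^ (r : ℝ)) ^ (1 / (r : ℝ)) = a * (k : ℝ) ^ (1 / (r : ℝ)) := by
    rw [sum_const, card_univ, Fintype.card_fin, nsmul_eq_mul, abs_of_nonneg ha,
      Real.mul_rpow (Nat.cast_nonneg _) (Real.rpow_nonneg ha _), ← Real.rpow_mul ha,
      mul_one_div_cancel hr0, Real.rpow_one, mul_comm]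
  rw [e3] at h
  exact h

theorem mem_cls {k : ℕ} (g : Fin k → Fin k) (i : Fin k) : i ∈ cls g i := by
  unfold cls
  simp

theorem cls_eq {k : ℕ} (g : Fin k → Fin k) {i j : Fin k} (h : g j = g i) : cls g j = cls g i := by
  unfold cls
  rw [h]

theorem mean_eq {k : ℕ} (g : Fin k → Fin k) (m : Fin k → ℕ) {i j : Fin k} (h : g j = g i) :
    mean g m j = mean g m i := by
  unfold mean
  rw [cls_eq g h]

theorem card_le_num {k : ℕ} (g : Fin k → Fin k) (u : Fin k → ℝ)
    (hu : ∀ i j, g j = g i → u j = u i) (i : Fin k) : (cls g i).card ≤ num u i := by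
  unfold num
  rw [← Set.ncard_coe_finset]
  apply Set.ncard_le_ncard
  · intro j hj
    have h1 : g j = g i := by
      have h2 : j ∈ cls g i := hj
      unfold cls at h2
      exact (mem_filter.1 h2).2
    exact hu i j h1
  · exact Set.toFinite _

theorem mean_le_top {k : ℕ} (g : Fin k → Fin k) (m : Fin k → ℕ) (i : Fin k) :
    mean g m i ≤ top g m i := by
  unfold mean top
  have hc : (0 : ℝ) < (cls g i).card := by
    have : 0 < (cls g i).card := card_pos.2 ⟨i, mem_cls g i⟩
    exact_mod_cast this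
  rw [div_le_iff₀ hc]
  calc ∑ j ∈ cls g i, (m j : ℝ) ≤ ∑ _j ∈ cls g i, (((cls g i).sup m : ℕ) : ℝ) := by
        refine sum_le_sum fun j hj => ?_
        exact_mod_cast le_sup (f := m) hj
    _ = _ := by rw [sum_const, nsmul_eq_mul, mul_comm]

theorem le_top {k : ℕ} (g : Fin k → Fin k) (m : Fin k → ℕ) (i : Fin k) : m i ≤ top g m i :=
  le_sup (f := m) (mem_cls g i)

theorem mean_nonneg {k : ℕ} (g : Fin k → Fin k) (m : Fin k → ℕ) (i : Fin k) :
    0 ≤ mean g m i := by
  unfold mean
  positivity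

theorem sum_mean {k : ℕ} (g : Fin k → Fin k) (m : Fin k → ℕ) (f : ℝ → ℝ) :
    ∑ i, f (mean g m i) * m i = ∑ i, f (mean g m i) * mean g m i := by
  rw [← sum_fiberwise_of_maps_to (s := univ) (t := univ) (g := g) (fun _ _ => mem_univ _)
    (f := fun i => f (mean g m i) * m i), ← sum_fiberwise_of_maps_to (s := univ) (t := univ)
    (g := g) (fun _ _ => mem_univ _) (f := fun i => f (mean g m i) * mean g m i)]
  refine sum_congr rfl fun c _ => ?_
  rcases (univ.filter (fun i => g i = c)).eq_empty_or_nonempty with h | ⟨i, hi⟩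
  · rw [h, sum_empty, sum_empty]
  · have hi1 : g i = c := (mem_filter.1 hi).2
    subst hi1
    have e1 : ∀ j ∈ univ.filter (fun j => g j = g i), mean g m j = mean g m i := fun j hj =>
      mean_eq g m (mem_filter.1 hj).2
    have hc : (0 : ℝ) < (cls g i).card := by
      have : 0 < (cls g i).card := card_pos.2 ⟨i, mem_cls g i⟩
      exact_mod_cast this
    have e2 : ∑ j ∈ univ.filter (fun j => g j = g i), (m j : ℝ) =
        (univ.filter (fun j => g j = g i)).card * mean g m i := by
      unfold mean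
      show ∑ j ∈ cls g i, (m j : ℝ) = (cls g i).card * _
      rw [mul_div_cancel₀ _ hc.ne']
    have e3 : ∑ j ∈ univ.filter (fun j => g j = g i), f (mean g m j) * m j =
        f (mean g m i) * ∑ j ∈ univ.filter (fun j => g j = g i), (m j : ℝ) := by
      rw [mul_sum]
      exact sum_congr rfl fun j hj => by rw [e1 j hj]
    have e4 : ∑ j ∈ univ.filter (fun j => g j = g i), f (mean g m j) * mean g m j =
        (univ.filter (fun j => g j = g i)).card * (f (mean g m i) * mean g m i) := by
      rw [← nsmul_eq_mul, ← sum_const]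
      exact sum_congr rfl fun j hj => by rw [e1 j hj]
    rw [e3, e4, e2]
    ring

/-- classes all of which are large -/
theorem freq2 {r k : ℕ} (hr : 3 ≤ r) (m : Fin k → ℕ) (g : Fin k → Fin k)
    (h : ∀ i, 9 * sz r (fun j => (top g m j : ℝ) + r) ^ (r - 1) <
      4 * ((cls g i).card * mean g m i ^ (r - 1))) (d : ℕ) :
    ((d : ℝ) < sz r (mean g m) → ∃ v, Wts r v ∧ (d : ℝ) < ∑ i, v i ^ (r - 1) * m i) ∧
    (sz r (fun j => (top g m j : ℝ) + r) + r - 1 ≤ d →
      ∃ v, Wts r v ∧ ∀ i, (m i : ℝ) + r ≤ v i * (d - r + 1)) := by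
  have hr1 : 1 ≤ r := by omega
  have hr0 : (0 : ℝ) ≤ r := Nat.cast_nonneg _
  have hrp : (0 : ℝ) < r := by
    have : 0 < r := by omega
    exact_mod_cast this
  rcases Nat.eq_zero_or_pos k with hk | hk
  · subst hk
    constructor
    · intro hd
      exfalso
      unfold sz at hd
      rw [Finset.univ_eq_empty, sum_empty, Real.zero_rpow (by positivity)] at hd
      have : (0 : ℝ) ≤ d := Nat.cast_nonneg _
      linarith
    · intro _
      exact ⟨fun _ => 0, ⟨fun i => i.elim0, by simp, fun i => i.elim0⟩, fun i => i.elim0⟩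
  have htp : ∀ i, (0 : ℝ) < (top g m i : ℝ) + r := fun i => by positivity
  have hm : ∀ i, 0 < mean g m i := by
    intro i
    rcases (mean_nonneg g m i).lt_or_eq with h1 | h1
    · exact h1
    · exfalso
      have h2 := h i
      rw [← h1, zero_pow (by omega), mul_zero, mul_zero] at h2
      have h3 : 0 ≤ sz r (fun j => (top g m j : ℝ) + r) ^ (r - 1) :=
        pow_nonneg (sz_nonneg r fun i => (htp i).le) _
      linarith
  have hmono : sz r (mean g m) ≤ sz r (fun j => (top g m j : ℝ) + r) :=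
    sz_mono (fun i => (hm i).le) fun i => by have := mean_le_top g m i; linarith
  constructor
  · intro hd
    have hD := sz_pos (r := r) hk hm
    refine ⟨fun i => mean g m i / sz r (mean g m), ?_, ?_⟩
    · refine wts_of hr (mean g m) hD hm (sz_pow hr1 fun i => (hm i).le) fun i => ?_
      have h1 := pow_le_pow_left₀ hD.le hmono (r - 1)
      have h2 : ((cls g i).card : ℝ) ≤ num (mean g m) i := by
        exact_mod_cast card_le_num g (mean g m) (fun i j hij => mean_eq g m hij) i
      have h3 := mul_le_mul_of_nonneg_right h2 (pow_nonneg (hm i).le (r - 1))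
      have h4 := h i
      linarith
    · have e : ∑ i, (mean g m i / sz r (mean g m)) ^ (r - 1) * m i = sz r (mean g m) := by
        have e1 : ∀ i, (mean g m i / sz r (mean g m)) ^ (r - 1) * m i =
            mean g m i ^ (r - 1) * m i / sz r (mean g m) ^ (r - 1) := by
          intro i
          rw [div_pow]
          ring
        simp only [e1]
        rw [← sum_div, sum_mean g m (fun x => x ^ (r - 1)), div_eq_iff (by positivity)]
        obtain ⟨s, rfl⟩ : ∃ s, r = s + 1 := ⟨r - 1, by omega⟩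
        have e2 : sz (s + 1) (mean g m) * sz (s + 1) (mean g m) ^ (s + 1 - 1) =
            sz (s + 1) (mean g m) ^ (s + 1) := by
          rw [Nat.add_sub_cancel, pow_succ]
          ring
        rw [e2, sz_pow hr1 fun i => (hm i).le]
        refine sum_congr rfl fun i _ => ?_
        rw [Nat.add_sub_cancel, pow_succ]
      rw [e]
      exact hd
  · intro hd
    have hD := sz_pos (r := r) hk htp
    refine ⟨fun i => ((top g m i : ℝ) + r) / sz r (fun j => (top g m j : ℝ) + r), ?_, ?_⟩
    · refine wts_of hr (fun i => (top g m i : ℝ) + r) hD htp (sz_pow hr1 fun i => (htp i).le)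
        fun i => ?_
      have h2 : ((cls g i).card : ℝ) ≤ num (fun i => (top g m i : ℝ) + r) i := by
        have h5 := card_le_num g (fun i => (top g m i : ℝ) + r)
          (fun i j hij => by
            show (top g m j : ℝ) + r = (top g m i : ℝ) + r
            unfold top
            rw [cls_eq g hij]) i
        exact_mod_cast h5
      have h6 : mean g m i ^ (r - 1) ≤ ((top g m i : ℝ) + r) ^ (r - 1) :=
        pow_le_pow_left₀ (hm i).le (by have := mean_le_top g m i; linarith) _
      have h3 := mul_le_mul h2 h6 (pow_nonneg (hm i).le _) (Nat.cast_nonneg _)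
      have h4 := h i
      linarith
    · intro i
      show (m i : ℝ) + r ≤ ((top g m i : ℝ) + r) / sz r (fun j => (top g m j : ℝ) + r) *
        ((d : ℝ) - r + 1)
      rw [div_mul_eq_mul_div, le_div_iff₀ hD]
      have h1 : (m i : ℝ) ≤ top g m i := by exact_mod_cast le_top g m i
      exact mul_le_mul (by linarith) (by linarith) hD.le (htp i).le

/-- the length of the window -/
theorem window {r k : ℕ} (hr : 1 ≤ r) (m : Fin k → ℕ) (g : Fin k → Fin k) {δ : ℝ}
    (hδ : ∀ i, (top g m i : ℝ) ≤ mean g m i + δ) :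
    sz r (fun j => (top g m j : ℝ) + r) ≤ sz r (mean g m) + (r + δ) * (k : ℝ) ^ (1 / (r : ℝ)) := by
  rcases Nat.eq_zero_or_pos k with hk | hk
  · subst hk
    have hr0 : (1 : ℝ) / (r : ℝ) ≠ 0 := by
      have : (0 : ℝ) < r := by exact_mod_cast hr
      positivity
    unfold sz
    rw [Finset.univ_eq_empty, sum_empty, sum_empty, Nat.cast_zero, Real.zero_rpow hr0]
    linarith
  · have hd0 : 0 ≤ δ := by
      have h1 := hδ ⟨0, hk⟩
      have h2 := mean_le_top g m ⟨0, hk⟩
      linarith
    refine le_trans ?_ (sz_add hr (mean_nonneg g m) (by positivity))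
    refine sz_mono (fun i => by positivity) fun i => ?_
    have := hδ i
    linarith

end Pool.Agent.L7h91.CUT
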