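import Pool.Agent.L7h91.CUT.Fin

/-!
# Multiplicities every value of which occurs often
-/

set_option autoImplicit false

namespace Pool.Agent.L7h91.CUT

open Finset

theorem num_div {k : ℕ} (u : Fin k → ℝ) {D : ℝ} (hD : 0 < D) (i : Fin k) :
    num (fun i => u i / D) i = num u i := by
  unfold num
  congr 1
  ext j
  simp only [Set.mem_ofPred_eq]
  constructor
  · intro h
    have h1 : u j / D = u i / D := h
    rw [div_left_inj' hD.ne'] at h1
    exact h1
  · intro h
    have h1 : u j = u i := h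
    show u j / D = u i / D
    rw [h1]

theorem num_cast {k : ℕ} (m : Fin k → ℕ) (a : ℝ) (i : Fin k) :
    num (fun i => (m i : ℝ) + a) i = Set.ncard {j | m j = m i} := by
  unfold num
  congr 1
  ext j
  simp only [Set.mem_ofPred_eq]
  constructor
  · intro h
    have h1 : (m j : ℝ) + a = (m i : ℝ) + a := h
    have h2 : (m j : ℝ) = m i := by linarith
    exact_mod_cast h2
  · intro h
    have h1 : m j = m i := h
    show (m j : ℝ) + a = (m i : ℝ) + a
    rw [h1]

theorem num_mul_le {k : ℕ} (u : Fin k → ℝ) (f : ℝ → ℝ) (hf : ∀ i, 0 ≤ f (u i)) (i : Fin k) :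
    (num u i : ℝ) * f (u i) ≤ ∑ i, f (u i) := by
  classical
  have h1 : (num u i : ℝ) * f (u i) = ∑ j ∈ univ.filter (fun j => u j = u i), f (u j) := by
    rw [sum_congr rfl (g := fun _ => f (u i)) (fun j hj => by rw [(mem_filter.1 hj).2]), sum_const,
      nsmul_eq_mul]
    congr 2
    unfold num
    rw [← Set.ncard_coe_finset]
    congr 1
    ext j
    simp
  rw [h1]
  exact sum_le_sum_of_subset_of_nonneg (subset_univ _) fun j _ _ => hf j

/-- weights from a vector every value of which occurs often -/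
theorem wts_of {r k : ℕ} (hr : 3 ≤ r) (u : Fin k → ℝ) {D : ℝ} (hD : 0 < D) (hu : ∀ i, 0 < u i)
    (hDr : D ^ r = ∑ i, u i ^ r) (hn : ∀ i, 9 * D ^ (r - 1) < 4 * (num u i * u i ^ (r - 1))) :
    Wts r (fun i => u i / D) := by
  have hsum : ∑ i, (u i / D) ^ r = 1 := by
    simp only [div_pow]
    rw [← sum_div, ← hDr, div_self (by positivity)]
  refine ⟨fun i => (div_pos (hu i) hD).le, hsum.le, fun i _ => ?_⟩
  rw [num_div u hD]
  obtain ⟨s, rfl⟩ : ∃ s, r = s + 3 := ⟨r - 3, by omega⟩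
  have e1 : s + 3 - 1 = s + 2 := by omega
  have e2 : 2 * (s + 3) - 3 = s + 3 + s := by omega
  have h1 := hn i
  rw [e1] at h1
  rw [e1, e2]
  have hv0 : 0 < u i / D := div_pos (hu i) hD
  have h2 : (num u i : ℝ) * (u i / D) ^ (s + 3) ≤ 1 := by
    rw [← hsum, ← num_div u hD]
    exact num_mul_le (fun i => u i / D) (fun x => x ^ (s + 3))
      (fun i => pow_nonneg (div_pos (hu i) hD).le _) i
  have hn1 : (1 : ℝ) ≤ num u i := by
    have : 0 < num u i := by
      unfold num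
      rw [Set.ncard_pos]
      exact ⟨i, rfl⟩
    exact_mod_cast this
  have hv1 : u i / D ≤ 1 := by
    by_contra hcon
    push Not at hcon
    have h3 : 1 < (u i / D) ^ (s + 3) := one_lt_pow₀ hcon (by omega)
    nlinarith
  have h3 : (num u i : ℝ) * (u i / D) ^ (s + 3 + s) ≤ 1 := by
    rw [pow_add, ← mul_assoc]
    have h4 : (u i / D) ^ s ≤ 1 := pow_le_one₀ hv0.le hv1
    have h5 : 0 ≤ (num u i : ℝ) * (u i / D) ^ (s + 3) := by positivity
    nlinarith [pow_pos hv0 s]
  have h4 : 9 / 4 < (num u i : ℝ) * (u i / D) ^ (s + 2) := by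
    rw [div_pow, mul_div_assoc', lt_div_iff₀ (by positivity)]
    linarith
  linarith

/-- the number `(∑ (m i + a) ^ r) ^ (1 / r)` -/
noncomputable def szr (r : ℕ) {k : ℕ} (m : Fin k → ℕ) (a : ℝ) : ℝ :=
  (∑ i, ((m i : ℝ) + a) ^ r) ^ (1 / (r : ℝ))

theorem szr_nonneg (r : ℕ) {k : ℕ} (m : Fin k → ℕ) {a : ℝ} (ha : 0 ≤ a) : 0 ≤ szr r m a := by
  unfold szr
  apply Real.rpow_nonneg
  exact sum_nonneg fun i _ => pow_nonneg (add_nonneg (Nat.cast_nonneg _) ha) _

theorem szr_pow {r : ℕ} (hr : 1 ≤ r) {k : ℕ} (m : Fin k → ℕ) {a : ℝ} (ha : 0 ≤ a) :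
    szr r m a ^ r = ∑ i, ((m i : ℝ) + a) ^ r := by
  unfold szr
  have h0 : 0 ≤ ∑ i, ((m i : ℝ) + a) ^ r :=
    sum_nonneg fun i _ => pow_nonneg (add_nonneg (Nat.cast_nonneg _) ha) _
  have hr0 : (r : ℝ) ≠ 0 := by
    have : 0 < r := hr
    positivity
  rw [← Real.rpow_natCast, ← Real.rpow_mul h0, one_div, inv_mul_cancel₀ hr0, Real.rpow_one]

theorem szr_le {r : ℕ} (hr : 1 ≤ r) {k : ℕ} (m : Fin k → ℕ) {a : ℝ} (ha : 0 ≤ a) :
    szr r m a ≤ szr r m 0 + a * (k : ℝ) ^ (1 / (r : ℝ)) := by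
  have hr1 : (1 : ℝ) ≤ (r : ℝ) := by exact_mod_cast hr
  have hr0 : (r : ℝ) ≠ 0 := by linarith
  have h := Real.Lp_add_le (univ : Finset (Fin k)) (fun i => (m i : ℝ)) (fun _ => a) hr1
  have e1 : ∀ i : Fin k, |(m i : ℝ) + a| ^ (r : ℝ) = ((m i : ℝ) + a) ^ r := by
    intro i
    rw [abs_of_nonneg (add_nonneg (Nat.cast_nonneg _) ha), Real.rpow_natCast]
  have e2 : ∀ i : Fin k, |(m i : ℝ)| ^ (r : ℝ) = ((m i : ℝ) + 0) ^ r := by
    intro i
    rw [abs_of_nonneg (Nat.cast_nonneg _), Real.rpow_natCast, add_zero]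
  simp only [e1, e2] at h
  have e3 : (∑ _i : Fin k, |a| ^ (r : ℝ)) ^ (1 / (r : ℝ)) = a * (k : ℝ) ^ (1 / (r : ℝ)) := by
    rw [sum_const, card_univ, Fintype.card_fin, nsmul_eq_mul, abs_of_nonneg ha,
      Real.mul_rpow (Nat.cast_nonneg _) (Real.rpow_nonneg ha _), ← Real.rpow_mul ha,
      mul_one_div_cancel hr0, Real.rpow_one, mul_comm]
  rw [e3] at h
  exact h

theorem szr_mono {r : ℕ} {k : ℕ} (m : Fin k → ℕ) {a : ℝ} (ha : 0 ≤ a) :
    szr r m 0 ≤ szr r m a := by
  unfold szr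
  apply Real.rpow_le_rpow
  · exact sum_nonneg fun i _ => pow_nonneg (by rw [add_zero]; exact Nat.cast_nonneg _) _
  · refine sum_le_sum fun i _ => ?_
    exact pow_le_pow_left₀ (by rw [add_zero]; exact Nat.cast_nonneg _) (by linarith) _
  · positivity

/-- multiplicities every value of which occurs often -/
theorem freq {r k : ℕ} (hr : 3 ≤ r) (m : Fin k → ℕ)
    (h : ∀ i, 9 * szr r m r ^ (r - 1) < 4 * (Set.ncard {j | m j = m i} * (m i : ℝ) ^ (r - 1)))
    (d : ℕ) :
    ((d : ℝ) < szr r m 0 → ∃ v, Wts r v ∧ (d : ℝ) < ∑ i, v i ^ (r - 1) * m i) ∧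
    (szr r m r + r - 1 ≤ d → ∃ v, Wts r v ∧ ∀ i, (m i : ℝ) + r ≤ v i * (d - r + 1)) := by
  have hr1 : 1 ≤ r := by omega
  have hr0 : (0 : ℝ) ≤ r := Nat.cast_nonneg _
  have hrp : (0 : ℝ) < r := by
    have : 0 < r := by omega
    exact_mod_cast this
  rcases Nat.eq_zero_or_pos k with hk | hk
  · subst hk
    constructor
    · intro hd
      exfalso
      unfold szr at hd
      rw [Finset.univ_eq_empty, sum_empty, Real.zero_rpow (by positivity)] at hd
      have : (0 : ℝ) ≤ d := Nat.cast_nonneg _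
      linarith
    · intro _
      exact ⟨fun _ => 0, ⟨fun i => i.elim0, by simp, fun i => i.elim0⟩, fun i => i.elim0⟩
  have hm : ∀ i, 0 < m i := by
    intro i
    rw [Nat.pos_iff_ne_zero]
    intro h0
    have h1 := h i
    rw [h0, Nat.cast_zero, zero_pow (by omega), mul_zero, mul_zero] at h1
    have h2 : 0 ≤ szr r m r ^ (r - 1) := pow_nonneg (szr_nonneg r m hr0) _
    linarith
  have hpos : ∀ a : ℝ, 0 ≤ a → 0 < szr r m a := by
    intro a ha
    unfold szr
    apply Real.rpow_pos_of_pos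
    refine sum_pos (fun i _ => ?_) ⟨⟨0, hk⟩, mem_univ _⟩
    have h1 : (0 : ℝ) < m i := by exact_mod_cast hm i
    positivity
  have hmp : ∀ i, (0 : ℝ) < m i := fun i => by exact_mod_cast hm i
  constructor
  · intro hd
    refine ⟨fun i => ((m i : ℝ) + 0) / szr r m 0, ?_, ?_⟩
    · refine wts_of hr (fun i => (m i : ℝ) + 0) (hpos 0 le_rfl)
        (fun i => by rw [add_zero]; exact hmp i) (szr_pow hr1 m le_rfl) fun i => ?_
      rw [num_cast m 0 i]
      refine lt_of_le_of_lt ?_ (lt_of_lt_of_eq (h i) ?_)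
      · have h1 := pow_le_pow_left₀ (szr_nonneg r m le_rfl) (szr_mono (r := r) m hr0) (r - 1)
        linarith
      · simp only [add_zero]
    · have hD := hpos 0 le_rfl
      have e : ∑ i, (((m i : ℝ) + 0) / szr r m 0) ^ (r - 1) * m i = szr r m 0 := by
        have e1 : ∀ i, (((m i : ℝ) + 0) / szr r m 0) ^ (r - 1) * m i =
            ((m i : ℝ) + 0) ^ r / szr r m 0 ^ (r - 1) := by
          intro i
          obtain ⟨s, rfl⟩ : ∃ s, r = s + 1 := ⟨r - 1, by omega⟩
          rw [Nat.add_sub_cancel, div_pow, add_zero]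
          field_simp
          ring
        simp only [e1]
        rw [← sum_div, ← szr_pow hr1 m le_rfl]
        obtain ⟨s, rfl⟩ : ∃ s, r = s + 1 := ⟨r - 1, by omega⟩
        rw [Nat.add_sub_cancel, div_eq_iff (by positivity)]
        ring
      rw [e]
      exact hd
  · intro hd
    have hD := hpos r hr0
    refine ⟨fun i => ((m i : ℝ) + r) / szr r m r, ?_, ?_⟩
    · refine wts_of hr (fun i => (m i : ℝ) + r) hD
        (fun i => by have := hmp i; linarith) (szr_pow hr1 m hr0) fun i => ?_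
      rw [num_cast m r i]
      refine lt_of_lt_of_le (h i) ?_
      have h1 : (m i : ℝ) ^ (r - 1) ≤ ((m i : ℝ) + r) ^ (r - 1) :=
        pow_le_pow_left₀ (hmp i).le (by linarith) _
      have h2 := mul_le_mul_of_nonneg_left h1 (Nat.cast_nonneg (Set.ncard {j | m j = m i}) :
        (0 : ℝ) ≤ _)
      linarith
    · intro i
      rw [div_mul_eq_mul_div, le_div_iff₀ hD]
      have h1 : (0 : ℝ) ≤ (m i : ℝ) + r := by have := hmp i; linarith
      exact mul_le_mul_of_nonneg_left (by linarith) h1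

end Pool.Agent.L7h91.CUT
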