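import Mathlib

/-!
# Rounding multiplicities so that every value occurs often
-/

set_option autoImplicit false

namespace Pool.Agent.L7h91.CUT

open Finset

/-- the number of the indices with the value of `i` -/
def cnt {k : ℕ} (u : Fin k → ℕ) (i : Fin k) : ℕ := (univ.filter fun j => u j = u i).card

theorem pow_step (s r : ℕ) : (s + 1) ^ r ≤ s ^ r + r * (s + 1) ^ (r - 1) := by
  induction r with
  | zero => simp
  | succ r ih =>
    rcases Nat.eq_zero_or_pos r with h | h
    · subst h
      simp
    · obtain ⟨q, rfl⟩ : ∃ q, r = q + 1 := ⟨r - 1, by omega⟩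
      rw [Nat.add_sub_cancel] at ih
      have h1 : s ^ (q + 1) ≤ (s + 1) ^ (q + 1) := Nat.pow_le_pow_left (by omega) _
      calc (s + 1) ^ (q + 1 + 1) = (s + 1) * (s + 1) ^ (q + 1) := by ring
        _ ≤ (s + 1) * (s ^ (q + 1) + (q + 1) * (s + 1) ^ q) := Nat.mul_le_mul_left _ ih
        _ = s ^ (q + 1 + 1) + s ^ (q + 1) + (q + 1) * (s + 1) ^ (q + 1) := by ring
        _ ≤ s ^ (q + 1 + 1) + (s + 1) ^ (q + 1) + (q + 1) * (s + 1) ^ (q + 1) := by omega
        _ = s ^ (q + 1 + 1) + (q + 1 + 1) * (s + 1) ^ (q + 1 + 1 - 1) := by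
          rw [Nat.add_sub_cancel]
          ring

theorem pow_two_le {t n : ℕ} (h : 2 * n ≤ t) (ht : 0 < t) : (t + 1) ^ n ≤ 2 * t ^ n := by
  have key : ∀ n : ℕ, n ≤ t → (t + 1) ^ n * (t - n) ≤ t ^ (n + 1) := by
    intro n
    induction n with
    | zero =>
      intro _
      simp
    | succ n ih =>
      intro hn
      have h1 := ih (by omega)
      obtain ⟨s, hs⟩ : ∃ s, t = n + 1 + s := ⟨t - (n + 1), by omega⟩
      have e1 : t - (n + 1) = s := by omega
      have e2 : t - n = s + 1 := by omega
      rw [e1]
      rw [e2] at h1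
      have h2 : (t + 1) * s ≤ t * (s + 1) := by
        rw [hs]
        nlinarith
      calc (t + 1) ^ (n + 1) * s = (t + 1) ^ n * ((t + 1) * s) := by ring
        _ ≤ (t + 1) ^ n * (t * (s + 1)) := Nat.mul_le_mul_left _ h2
        _ = t * ((t + 1) ^ n * (s + 1)) := by ring
        _ ≤ t * t ^ (n + 1) := Nat.mul_le_mul_left _ h1
        _ = t ^ (n + 1 + 1) := by ring
  have h1 := key n (by omega)
  have h2 : t ≤ 2 * (t - n) := by omega
  have h3 : t * (t + 1) ^ n ≤ t * (2 * t ^ n) := by
    calc t * (t + 1) ^ n ≤ 2 * (t - n) * (t + 1) ^ n := Nat.mul_le_mul_right _ h2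
      _ = 2 * ((t + 1) ^ n * (t - n)) := by ring
      _ ≤ 2 * t ^ (n + 1) := Nat.mul_le_mul_left _ h1
      _ = t * (2 * t ^ n) := by ring
  exact Nat.le_of_mul_le_mul_left h3 ht

/-- lowering the multiplicities -/
theorem lower {k r c M : ℕ} (m : Fin k → ℕ) (hm : ∀ i, m i ≤ M) :
    ∀ n ≤ M, ∃ u : Fin k → ℕ, (∀ i, u i ≤ m i) ∧
      (∀ i, M - n < u i → c * M ^ (r - 1) ≤ cnt u i * u i ^ (r - 1)) ∧
      ∑ i, m i ^ r ≤ ∑ i, u i ^ r + n * (r * (c * M ^ (r - 1))) := by
  intro n
  induction n with
  | zero =>
    intro _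
    refine ⟨m, fun i => le_rfl, fun i hi => ?_, by simp⟩
    have := hm i
    omega
  | succ n ih =>
    intro hn
    obtain ⟨u, h1, h2, h3⟩ := ih (by omega)
    obtain ⟨t, ht⟩ : ∃ t, M - n = t + 1 := ⟨M - n - 1, by omega⟩
    have ht' : M - (n + 1) = t := by omega
    rw [ht] at h2
    rw [ht']
    obtain ⟨Q, hQ⟩ : ∃ Q, Q = univ.filter fun j => u j = t + 1 := ⟨_, rfl⟩
    by_cases hc : c * M ^ (r - 1) ≤ Q.card * (t + 1) ^ (r - 1)
    · refine ⟨u, h1, fun i hi => ?_, ?_⟩
      · by_cases hi2 : u i = t + 1
        · have e : cnt u i = Q.card := by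
            unfold cnt
            rw [hQ, hi2]
          rw [e, hi2]
          exact hc
        · exact h2 i (by omega)
      · refine h3.trans (Nat.add_le_add_left ?_ _)
        exact Nat.mul_le_mul_right _ (by omega)
    · push Not at hc
      refine ⟨fun i => if u i = t + 1 then t else u i, fun i => ?_, fun i hi => ?_, ?_⟩
      · have := h1 i
        simp only
        split_ifs with h
        · omega
        · exact this
      · simp only at hi ⊢
        have hne : u i ≠ t + 1 := by
          intro h
          rw [if_pos h] at hi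
          omega
        rw [if_neg hne] at hi ⊢
        refine (h2 i (by omega)).trans (Nat.mul_le_mul_right _ ?_)
        unfold cnt
        apply card_le_card
        intro j hj
        rw [mem_filter] at hj ⊢
        refine ⟨mem_univ _, ?_⟩
        simp only
        rw [if_neg hne, if_neg (by rw [hj.2]; exact hne)]
        exact hj.2
      · have h4 : ∑ i, u i ^ r ≤ ∑ i, (if u i = t + 1 then t else u i) ^ r +
            Q.card * (r * (t + 1) ^ (r - 1)) := by
          have e1 : Q.card * (r * (t + 1) ^ (r - 1)) =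
              ∑ i, (if u i = t + 1 then r * (t + 1) ^ (r - 1) else 0) := by
            rw [← sum_filter, sum_const, smul_eq_mul, hQ]
          rw [e1, ← sum_add_distrib]
          refine sum_le_sum fun i _ => ?_
          split_ifs with h
          · rw [h]
            exact pow_step t r
          · rw [add_zero]
        have h5 : Q.card * (r * (t + 1) ^ (r - 1)) ≤ r * (c * M ^ (r - 1)) := by
          calc Q.card * (r * (t + 1) ^ (r - 1)) = r * (Q.card * (t + 1) ^ (r - 1)) := by ring
            _ ≤ r * (c * M ^ (r - 1)) := Nat.mul_le_mul_left _ hc.le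
        have e2 : (n + 1) * (r * (c * M ^ (r - 1))) =
            n * (r * (c * M ^ (r - 1))) + r * (c * M ^ (r - 1)) := by ring
        rw [e2]
        beta_reduce
        linarith

/-- raising the multiplicities -/
theorem raise {k r c M : ℕ} (x : Fin k → ℕ) (hx : ∀ i, x i ≤ M) (hx2 : ∀ i, 2 * r ≤ x i)
    (hr : 1 ≤ r) :
    ∀ t ≤ M, ∃ u : Fin k → ℕ, (∀ i, x i ≤ u i) ∧ (∀ i, u i ≤ M) ∧
      (∀ i, u i < t → c * M ^ (r - 1) ≤ cnt u i * u i ^ (r - 1)) ∧
      ∑ i, u i ^ r ≤ ∑ i, x i ^ r + t * (2 * (r * (c * M ^ (r - 1)))) := by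
  intro t
  induction t with
  | zero =>
    intro _
    exact ⟨x, fun i => le_rfl, hx, fun i hi => absurd hi (Nat.not_lt_zero _), by simp⟩
  | succ t ih =>
    intro hn
    obtain ⟨u, h1, h0, h2, h3⟩ := ih (by omega)
    obtain ⟨Q, hQ⟩ : ∃ Q, Q = univ.filter fun j => u j = t := ⟨_, rfl⟩
    by_cases hc : c * M ^ (r - 1) ≤ Q.card * t ^ (r - 1)
    · refine ⟨u, h1, h0, fun i hi => ?_, ?_⟩
      · by_cases hi2 : u i = t
        · have e : cnt u i = Q.card := by
            unfold cnt
            rw [hQ, hi2]
          rw [e, hi2]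
          exact hc
        · exact h2 i (by omega)
      · refine h3.trans (Nat.add_le_add_left ?_ _)
        exact Nat.mul_le_mul_right _ (by omega)
    · push Not at hc
      refine ⟨fun i => if u i = t then t + 1 else u i, fun i => ?_, fun i => ?_, fun i hi => ?_, ?_⟩
      · have := h1 i
        simp only
        split_ifs with h
        · omega
        · exact this
      · have := h0 i
        simp only
        split_ifs with h
        · omega
        · exact this
      · simp only at hi ⊢
        have hne : u i ≠ t := by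
          intro h
          rw [if_pos h] at hi
          omega
        rw [if_neg hne] at hi ⊢
        refine (h2 i (by omega)).trans (Nat.mul_le_mul_right _ ?_)
        unfold cnt
        apply card_le_card
        intro j hj
        rw [mem_filter] at hj ⊢
        refine ⟨mem_univ _, ?_⟩
        simp only
        rw [if_neg hne, if_neg (by rw [hj.2]; exact hne)]
        exact hj.2
      · have h4 : ∑ i, (if u i = t then t + 1 else u i) ^ r ≤ ∑ i, u i ^ r +
            Q.card * (2 * (r * t ^ (r - 1))) := by
          have e1 : Q.card * (2 * (r * t ^ (r - 1))) =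
              ∑ i, (if u i = t then 2 * (r * t ^ (r - 1)) else 0) := by
            rw [← sum_filter, sum_const, smul_eq_mul, hQ]
          rw [e1, ← sum_add_distrib]
          refine sum_le_sum fun i _ => ?_
          split_ifs with h
          · have h6 := hx2 i
            have h7 := h1 i
            have h8 : (t + 1) ^ (r - 1) ≤ 2 * t ^ (r - 1) := pow_two_le (by omega) (by omega)
            have h9 := pow_step t r
            rw [h]
            calc (t + 1) ^ r ≤ t ^ r + r * (t + 1) ^ (r - 1) := h9
              _ ≤ t ^ r + r * (2 * t ^ (r - 1)) :=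
                Nat.add_le_add_left (Nat.mul_le_mul_left _ h8) _
              _ = t ^ r + 2 * (r * t ^ (r - 1)) := by ring
          · rw [add_zero]
        have h5 : Q.card * (2 * (r * t ^ (r - 1))) ≤ 2 * (r * (c * M ^ (r - 1))) := by
          calc Q.card * (2 * (r * t ^ (r - 1))) = 2 * (r * (Q.card * t ^ (r - 1))) := by ring
            _ ≤ 2 * (r * (c * M ^ (r - 1))) :=
              Nat.mul_le_mul_left _ (Nat.mul_le_mul_left _ hc.le)
        have e2 : (t + 1) * (2 * (r * (c * M ^ (r - 1)))) =
            t * (2 * (r * (c * M ^ (r - 1)))) + 2 * (r * (c * M ^ (r - 1))) := by ring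
        rw [e2]
        beta_reduce
        linarith

end Pool.Agent.L7h91.CUT
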