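import Pool.Agent.L7h91.CUT.FinA
import Pool.Agent.L7h91.CUT.Freq
import Pool.Agent.L7h91.CUT.Round

/-!
# Weights from vectors every value of which occurs often compared with the maximum
-/

set_option autoImplicit false

namespace Pool.Agent.L7h91.CUT

open Finset

/-- weights from a vector every value of which occurs often -/
theorem wtsA_of {r k : ℕ} (hr : 3 ≤ r) (u : Fin k → ℝ) {D : ℝ} (hD : 0 < D)
    (hu : ∀ i, 0 ≤ u i) (hDr : D ^ r = ∑ i, u i ^ r)
    (hn : ∀ i j, 0 < u i → 3 * (4 * u j) ^ (r - 1) ≤ num u i * u i ^ (r - 1)) :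
    WtsA r (fun i => u i / D) := by
  have hsum : ∑ i, (u i / D) ^ r = 1 := by
    simp only [div_pow]
    rw [← sum_div, ← hDr, div_self (by positivity)]
  obtain ⟨i0, hi0⟩ : ∃ i0, 0 < u i0 := by
    by_contra hcon
    push Not at hcon
    have h1 : ∑ i, u i ^ r = 0 := sum_eq_zero fun i _ => by
      rw [le_antisymm (hcon i) (hu i), zero_pow (by omega)]
    rw [h1] at hDr
    have : 0 < D ^ r := by positivity
    linarith
  obtain ⟨j0, -, hj0⟩ := exists_max_image (univ : Finset (Fin k)) u ⟨i0, mem_univ _⟩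
  have hmax : ∀ i, u i ≤ u j0 := fun i => hj0 i (mem_univ i)
  obtain ⟨U, hU⟩ : ∃ U, U = u j0 := ⟨_, rfl⟩
  have hU0 : 0 < U := by rw [hU]; exact lt_of_lt_of_le hi0 (hmax i0)
  obtain ⟨q, rfl⟩ : ∃ q, r = q + 1 := ⟨r - 1, by omega⟩
  rw [Nat.add_sub_cancel] at hn
  have h2U : 2 * U < D := by
    by_contra hcon
    push Not at hcon
    have h1 : D ^ (q + 1) ≤ (2 * U) ^ (q + 1) := pow_le_pow_left₀ hD.le hcon _
    have h2 := num_mul_le u (fun x => x ^ (q + 1)) (fun i => pow_nonneg (hu i) _) j0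
    rw [← hDr] at h2
    have h3 := hn j0 j0 (by rw [← hU]; exact hU0)
    rw [← hU] at h2 h3
    have h4 : 3 * (4 * U) ^ q * U ≤ (num u j0 : ℝ) * U ^ q * U :=
      mul_le_mul_of_nonneg_right h3 hU0.le
    have h5 : (num u j0 : ℝ) * U ^ q * U = num u j0 * U ^ (q + 1) := by ring
    have h6 : (2 * U) ^ (q + 1) = 2 * (2 * U) ^ q * U := by ring
    have h7 : (2 * U) ^ q ≤ (4 * U) ^ q := pow_le_pow_left₀ (by positivity) (by linarith) _
    have h8 : 0 < (2 * U) ^ q * U := by positivity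
    have h9 : (2 * U) ^ q * U ≤ (4 * U) ^ q * U := mul_le_mul_of_nonneg_right h7 hU0.le
    nlinarith
  obtain ⟨x, hx⟩ : ∃ x, x = D / (2 * U) := ⟨_, rfl⟩
  have hx1 : 1 < x := by
    rw [hx, lt_div_iff₀ (by positivity)]
    linarith
  obtain ⟨a, ha⟩ : ∃ a : ℕ, ⌈x⌉₊ = a + 1 := by
    have : 0 < ⌈x⌉₊ := Nat.ceil_pos.2 (by linarith)
    exact ⟨⌈x⌉₊ - 1, by omega⟩
  have h1c : x ≤ (a : ℝ) + 1 := by
    have := Nat.le_ceil x
    rw [ha] at this
    push_cast at this
    exact this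
  have h2c : (a : ℝ) < x := by
    have := Nat.ceil_lt_add_one (by linarith : 0 ≤ x)
    rw [ha] at this
    push_cast at this
    linarith
  have ha1 : 1 ≤ a := by
    by_contra hcon
    have : a = 0 := by omega
    rw [this] at h1c
    push_cast at h1c
    linarith
  have ha1r : (1 : ℝ) ≤ a := by exact_mod_cast ha1
  have hhalf : x / 2 ≤ a := by
    rcases le_total x 2 with h | h <;> linarith
  refine ⟨fun i => div_nonneg (hu i) hD.le, hsum.le, a, ha1, fun i hi => Or.inl ⟨?_, ?_⟩⟩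
  · have h3 : (a : ℝ) * (u i / D) ≤ a * (U / D) :=
      mul_le_mul_of_nonneg_left (div_le_div_of_nonneg_right (by rw [hU]; exact hmax i) hD.le)
        (by linarith)
    have h4 : (a : ℝ) * (U / D) < x * (U / D) := mul_lt_mul_of_pos_right h2c (by positivity)
    have h5 : x * (U / D) = 1 / 2 := by
      rw [hx]
      field_simp
    linarith
  · have hui : 0 < u i := by
      have hi' : 0 < u i / D := hi
      rcases (hu i).lt_or_eq with h | h
      · exact h
      · rw [← h, zero_div] at hi'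
        exact absurd hi' (lt_irrefl _)
    rw [num_div u hD, Nat.add_sub_cancel]
    have h3 := hn i j0 hui
    rw [← hU] at h3
    have e1 : (num u i : ℝ) * (a * (u i / D)) ^ q = num u i * u i ^ q * (a / D) ^ q := by
      rw [mul_pow, div_pow, div_pow]
      ring
    have h4 : 3 * (4 * U) ^ q * (a / D) ^ q ≤ num u i * u i ^ q * (a / D) ^ q :=
      mul_le_mul_of_nonneg_right h3 (by positivity)
    have e2 : 3 * (4 * U) ^ q * (a / D) ^ q = 3 * (4 * U * (a / D)) ^ q := by
      rw [mul_pow (4 * U) (a / D)]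
      ring
    have h5 : 1 ≤ 4 * U * (a / D) := by
      have h6 : 4 * U * (x / 2 / D) ≤ 4 * U * (a / D) :=
        mul_le_mul_of_nonneg_left (div_le_div_of_nonneg_right hhalf hD.le) (by positivity)
      have h7 : 4 * U * (x / 2 / D) = 1 := by
        rw [hx]
        field_simp
        norm_num
      linarith
    have h6 : 1 ≤ (4 * U * (a / D)) ^ q := one_le_pow₀ h5
    rw [e1]
    linarith

theorem num_cnt {k : ℕ} (u : Fin k → ℕ) (i : Fin k) : num (fun i => (u i : ℝ)) i = cnt u i := by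
  unfold num cnt
  rw [← Set.ncard_coe_finset]
  congr 1
  ext j
  simp

/-- the same for natural numbers -/
theorem wtsA_nat {r k M : ℕ} (hr : 3 ≤ r) (u : Fin k → ℕ) (hM : ∀ i, u i ≤ M) {D : ℝ}
    (hD : 0 < D) (hDr : D ^ r = ∑ i, (u i : ℝ) ^ r)
    (hn : ∀ i, 0 < u i → 3 * 4 ^ (r - 1) * M ^ (r - 1) ≤ cnt u i * u i ^ (r - 1)) :
    WtsA r (fun i => (u i : ℝ) / D) := by
  refine wtsA_of hr (fun i => (u i : ℝ)) hD (fun i => Nat.cast_nonneg _) hDr ?_
  intro i j hi
  have hi' : 0 < u i := by exact_mod_cast hi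
  rw [num_cnt]
  have h1 := hn i hi'
  have h2 : 3 * (4 * u j) ^ (r - 1) ≤ cnt u i * u i ^ (r - 1) := by
    refine le_trans ?_ h1
    rw [mul_pow, mul_assoc]
    exact Nat.mul_le_mul_left _ (Nat.mul_le_mul_left _ (Nat.pow_le_pow_left (hM j) _))
  exact_mod_cast h2

end Pool.Agent.L7h91.CUT
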