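import Pool.Agent.L7h91.CUT.Cls
import Pool.Agent.L7h91.CUT.Wof

/-!
# Classes of points with similar multiplicities, compared with the maximal multiplicity
-/

set_option autoImplicit false

namespace Pool.Agent.L7h91.CUT

open Finset

/-- classes all of which are large -/
theorem freq3 {r k : ℕ} (hr : 3 ≤ r) (m : Fin k → ℕ) (g : Fin k → Fin k)
    (h : ∀ i j, 3 * (4 * ((top g m j : ℝ) + 2 * r)) ^ (r - 1) ≤
      (cls g i).card * mean g m i ^ (r - 1)) (d : ℕ) :
    ((d : ℝ) < sz r (mean g m) → ∃ v, WtsA r v ∧ (d : ℝ) < ∑ i, v i ^ (r - 1) * m i) ∧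
    (sz r (fun j => (top g m j : ℝ) + 2 * r) ≤ d →
      ∃ v, WtsA r v ∧ ∀ i, (m i : ℝ) + 2 * r ≤ v i * d) := by
  have hr1 : 1 ≤ r := by omega
  have hr0 : (0 : ℝ) ≤ r := Nat.cast_nonneg _
  have hrp : (0 : ℝ) < r := by
    have : 0 < r := by omega
    exact_mod_cast this
  rcases Nat.eq_zero_or_pos k with hk | hk
  · subst hk
    constructor
    · intro hd
      exfalso
      unfold sz at hd
      rw [Finset.univ_eq_empty, sum_empty, Real.zero_rpow (by positivity)] at hd
      have : (0 : ℝ) ≤ d := Nat.cast_nonneg _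
      linarith
    · intro _
      exact ⟨fun _ => 0, ⟨fun i => i.elim0, by simp, 1, le_rfl, fun i => i.elim0⟩,
        fun i => i.elim0⟩
  have htp : ∀ i, (0 : ℝ) < (top g m i : ℝ) + 2 * r := fun i => by positivity
  have hm : ∀ i, 0 < mean g m i := by
    intro i
    rcases (mean_nonneg g m i).lt_or_eq with h1 | h1
    · exact h1
    · exfalso
      have h2 := h i i
      rw [← h1, zero_pow (by omega), mul_zero] at h2
      have h3 : 0 < 3 * (4 * ((top g m i : ℝ) + 2 * r)) ^ (r - 1) := by
        have := htp i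
        positivity
      linarith
  have hmt : ∀ i, mean g m i ≤ (top g m i : ℝ) + 2 * r := fun i => by
    have := mean_le_top g m i
    linarith
  constructor
  · intro hd
    have hD := sz_pos (r := r) hk hm
    refine ⟨fun i => mean g m i / sz r (mean g m), ?_, ?_⟩
    · refine wtsA_of hr (mean g m) hD (fun i => (hm i).le) (sz_pow hr1 fun i => (hm i).le)
        fun i j _ => ?_
      have h2 : ((cls g i).card : ℝ) ≤ num (mean g m) i := by
        exact_mod_cast card_le_num g (mean g m) (fun i j hij => mean_eq g m hij) i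
      have h3 := mul_le_mul_of_nonneg_right h2 (pow_nonneg (hm i).le (r - 1))
      have h4 := h i j
      have h5 : (4 * mean g m j) ^ (r - 1) ≤ (4 * ((top g m j : ℝ) + 2 * r)) ^ (r - 1) :=
        pow_le_pow_left₀ (mul_nonneg (by norm_num) (hm j).le)
          (mul_le_mul_of_nonneg_left (hmt j) (by norm_num)) _
      linarith
    · have e : ∑ i, (mean g m i / sz r (mean g m)) ^ (r - 1) * m i = sz r (mean g m) := by
        have e1 : ∀ i, (mean g m i / sz r (mean g m)) ^ (r - 1) * m i =
            mean g m i ^ (r - 1) * m i / sz r (mean g m) ^ (r - 1) := by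
          intro i
          rw [div_pow]
          ring
        simp only [e1]
        rw [← sum_div, sum_mean g m (fun x => x ^ (r - 1)), div_eq_iff (by positivity)]
        obtain ⟨s, rfl⟩ : ∃ s, r = s + 1 := ⟨r - 1, by omega⟩
        have e2 : sz (s + 1) (mean g m) * sz (s + 1) (mean g m) ^ (s + 1 - 1) =
            sz (s + 1) (mean g m) ^ (s + 1) := by
          rw [Nat.add_sub_cancel, pow_succ]
          ring
        rw [e2, sz_pow hr1 fun i => (hm i).le]
        refine sum_congr rfl fun i _ => ?_
        rw [Nat.add_sub_cancel, pow_succ]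
      rw [e]
      exact hd
  · intro hd
    have hD := sz_pos (r := r) hk htp
    refine ⟨fun i => ((top g m i : ℝ) + 2 * r) / sz r (fun j => (top g m j : ℝ) + 2 * r), ?_, ?_⟩
    · refine wtsA_of hr (fun i => (top g m i : ℝ) + 2 * r) hD (fun i => (htp i).le)
        (sz_pow hr1 fun i => (htp i).le) fun i j _ => ?_
      have h2 : ((cls g i).card : ℝ) ≤ num (fun i => (top g m i : ℝ) + 2 * r) i := by
        have h5 := card_le_num g (fun i => (top g m i : ℝ) + 2 * r)
          (fun i j hij => by
            show (top g m j : ℝ) + 2 * r = (top g m i : ℝ) + 2 * r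
            unfold top
            rw [cls_eq g hij]) i
        exact_mod_cast h5
      have h6 : mean g m i ^ (r - 1) ≤ ((top g m i : ℝ) + 2 * r) ^ (r - 1) :=
        pow_le_pow_left₀ (hm i).le (hmt i) _
      have h3 := mul_le_mul h2 h6 (pow_nonneg (hm i).le _) (Nat.cast_nonneg _)
      have h4 := h i j
      linarith
    · intro i
      show (m i : ℝ) + 2 * r ≤ ((top g m i : ℝ) + 2 * r) /
        sz r (fun j => (top g m j : ℝ) + 2 * r) * (d : ℝ)
      rw [div_mul_eq_mul_div, le_div_iff₀ hD]
      have h1 : (m i : ℝ) ≤ top g m i := by exact_mod_cast le_top g m i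
      exact mul_le_mul (by linarith) hd hD.le (htp i).le

/-- the length of the window -/
theorem window2 {r k : ℕ} (hr : 1 ≤ r) (m : Fin k → ℕ) (g : Fin k → Fin k) {δ : ℝ}
    (hδ : ∀ i, (top g m i : ℝ) ≤ mean g m i + δ) :
    sz r (fun j => (top g m j : ℝ) + 2 * r) ≤
      sz r (mean g m) + (2 * r + δ) * (k : ℝ) ^ (1 / (r : ℝ)) := by
  rcases Nat.eq_zero_or_pos k with hk | hk
  · subst hk
    have hr0 : (1 : ℝ) / (r : ℝ) ≠ 0 := by
      have : (0 : ℝ) < r := by exact_mod_cast hr
      positivity
    unfold sz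
    rw [Finset.univ_eq_empty, sum_empty, sum_empty, Nat.cast_zero, Real.zero_rpow hr0]
    linarith
  · have hd0 : 0 ≤ δ := by
      have h1 := hδ ⟨0, hk⟩
      have h2 := mean_le_top g m ⟨0, hk⟩
      linarith
    refine le_trans ?_ (sz_add hr (mean_nonneg g m) (by positivity))
    refine sz_mono (fun i => by positivity) fun i => ?_
    have := hδ i
    linarith

end Pool.Agent.L7h91.CUT
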