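import Pool.Agent.L7h91.CUT.FlatG

/-!
# Cutting the set of the exponents by a hyperplane
-/

set_option autoImplicit false

namespace Pool.Agent.L7h91.CUT

open Finset Pool.Agent.TH3.IR

section
variable {K : Type} [Field K] {σ : Type} [Fintype σ]

theorem sg_zpow (a : ℝ) (r : K) (n : ℤ) :
    (HahnSeries.single a r : HahnSeries ℝ K) ^ n = HahnSeries.single (a * n) (r ^ n) := by
  cases n with
  | ofNat n =>
    simp only [Int.ofNat_eq_natCast, zpow_natCast, HahnSeries.single_pow, nsmul_eq_mul,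
      Int.cast_natCast]
    rw [mul_comm]
  | negSucc n =>
    have e : -(((n + 1 : ℕ) : ℝ) * a) = a * ((Int.negSucc n : ℤ) : ℝ) := by
      rw [Int.cast_negSucc]
      push_cast
      ring
    rw [zpow_negSucc, zpow_negSucc, HahnSeries.single_pow, HahnSeries.inv_single, nsmul_eq_mul, e]

omit [Fintype σ] in
theorem sg_prod (s : Finset σ) (a : σ → ℝ) (r : σ → K) :
    ∏ j ∈ s, (HahnSeries.single (a j) (r j) : HahnSeries ℝ K) =
      HahnSeries.single (∑ j ∈ s, a j) (∏ j ∈ s, r j) := by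
  classical
  induction s using Finset.induction_on with
  | empty => rfl
  | insert j s hj ih =>
    rw [prod_insert hj, sum_insert hj, prod_insert hj, ih, HahnSeries.single_mul_single]

/-- the linear function -/
def dot (v0 : ℝ) (v : σ → ℝ) (m : ℤ × (σ → ℤ)) : ℝ := v0 * m.1 + ∑ i, v i * (m.2 i : ℝ)

theorem ch_sg (v0 : ℝ) (v : σ → ℝ) (x : K) (y : σ → K) (m : ℤ × (σ → ℤ)) :
    ch (HahnSeries.single v0 x : HahnSeries ℝ K) (fun j => HahnSeries.single (v j) (y j)) m =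
      HahnSeries.single (dot v0 v m) (ch x y m) := by
  unfold ch dot
  simp only [sg_zpow]
  rw [sg_prod, HahnSeries.single_mul_single]

/-- the coefficients of the leading form -/
noncomputable def ld (v0 : ℝ) (v : σ → ℝ) (β : ℝ) (f : (ℤ × (σ → ℤ)) →₀ HahnSeries ℝ K) :
    (ℤ × (σ → ℤ)) →₀ K :=
  Finsupp.onFinset f.support (fun m => (f m).coeff (β - dot v0 v m)) (by
    intro m hm
    rw [Finsupp.mem_support_iff]
    intro h
    apply hm
    rw [h]
    rfl)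

theorem ld_apply (v0 : ℝ) (v : σ → ℝ) (β : ℝ) (f : (ℤ × (σ → ℤ)) →₀ HahnSeries ℝ K)
    (m : ℤ × (σ → ℤ)) : ld v0 v β f m = (f m).coeff (β - dot v0 v m) := rfl

theorem coeff_mul_sg (x : HahnSeries ℝ K) (a β : ℝ) (r : K) :
    (x * HahnSeries.single a r).coeff β = x.coeff (β - a) * r := by
  have h := HahnSeries.coeff_mul_single_add (r := r) (x := x) (a := β - a) (b := a)
  rw [sub_add_cancel] at h
  exact h

theorem mo_coeff (v0 : ℝ) (v : σ → ℝ) (β : ℝ) (f : (ℤ × (σ → ℤ)) →₀ HahnSeries ℝ K) (x : K)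
    (y : σ → K) (α : ℕ) (γ : σ → ℕ) :
    (mo f (HahnSeries.single v0 x : HahnSeries ℝ K) (fun j => HahnSeries.single (v j) (y j))
      α γ).coeff β = mo (ld v0 v β f) x y α γ := by
  have hsub : (ld v0 v β f).support ⊆ f.support := Finsupp.support_onFinset_subset
  unfold mo
  rw [Finsupp.sum_of_support_subset (ld v0 v β f) hsub _ (by intros; ring)]
  unfold Finsupp.sum
  have e1 : ∀ (s : Finset (ℤ × (σ → ℤ))) (g : (ℤ × (σ → ℤ)) → HahnSeries ℝ K),
      (∑ m ∈ s, g m).coeff β = ∑ m ∈ s, (g m).coeff β := by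
    classical
    intro s g
    induction s using Finset.induction_on with
    | empty => rfl
    | insert j s hj ih =>
      rw [sum_insert hj, sum_insert hj, HahnSeries.coeff_add, ih]
  rw [e1]
  refine sum_congr rfl fun m _ => ?_
  beta_reduce
  rw [ch_sg]
  have e2 : ((m.1 : HahnSeries ℝ K) ^ α * ∏ i, (m.2 i : HahnSeries ℝ K) ^ γ i) =
      HahnSeries.single 0 ((m.1 : K) ^ α * ∏ i, (m.2 i : K) ^ γ i) := by
    have h : (HahnSeries.C ((m.1 : K) ^ α * ∏ i, (m.2 i : K) ^ γ i) : HahnSeries ℝ K) =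
        ((m.1 : HahnSeries ℝ K) ^ α * ∏ i, (m.2 i : HahnSeries ℝ K) ^ γ i) := by
      simp only [map_mul, map_pow, map_prod, map_intCast]
    rw [← h]
    rfl
  rw [e2, mul_assoc, HahnSeries.single_mul_single, coeff_mul_sg, zero_add, ld_apply]
  ring

/-- the leading form satisfies the conditions -/
theorem ld_main (v0 : ℝ) (v : σ → ℝ) {f : (ℤ × (σ → ℤ)) →₀ HahnSeries ℝ K} (hf : f ≠ 0) :
    ∃ β : ℝ, ld v0 v β f ≠ 0 ∧ ∀ m ∈ f.support, β ≤ (f m).order + dot v0 v m := by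
  obtain ⟨m0, hm0⟩ := Finsupp.support_nonempty_iff.2 hf
  obtain ⟨m, hm, hmin⟩ := exists_min_image f.support (fun m => (f m).order + dot v0 v m) ⟨m0, hm0⟩
  refine ⟨(f m).order + dot v0 v m, ?_, hmin⟩
  intro h
  have h1 := DFunLike.congr_fun h m
  rw [ld_apply, add_sub_cancel_right, Finsupp.zero_apply] at h1
  exact (HahnSeries.coeff_order_eq_zero (x := f m)).not.2 (Finsupp.mem_support_iff.1 hm) h1

end

/-- cutting by a hyperplane, points over the same field -/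
theorem cut_at {ι σ K : Type} [Fintype σ] [Field K] [CharZero K] {x1 x2 : ι → K}
    {y1 y2 : ι → σ → K} {w1 w2 : ι → ℕ} {D1 D2 : Set (ℤ × (σ → ℤ))}
    (hx1 : ∀ i, x1 i ≠ 0) (hy1 : ∀ i j, y1 i j ≠ 0) (hx2 : ∀ i, x2 i ≠ 0)
    (hy2 : ∀ i j, y2 i j ≠ 0) (h1 : EmpAt x1 y1 w1 D1) (h2 : EmpAt x2 y2 w2 D2)
    (hw : ∀ i, w1 i = 0 ∨ w2 i = 0) (v0 : ℝ) (v : σ → ℝ) (c : ℝ)
    (hD1 : ∀ m ∈ D1, dot v0 v m < c) (hD2 : ∀ m ∈ D2, c ≤ dot v0 v m) :
    EmpS (fun i => w1 i + w2 i) (D1 ∪ D2) := by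
  classical
  have hcz : CharZero (HahnSeries ℝ K) :=
    charZero_of_injective_ringHom (f := (HahnSeries.C : K →+* HahnSeries ℝ K))
      HahnSeries.C_injective
  refine ⟨HahnSeries ℝ K, inferInstance, hcz,
    fun i => if w2 i = 0 then HahnSeries.single v0 (x1 i) else HahnSeries.single 0 (x2 i),
    fun i j => if w2 i = 0 then HahnSeries.single (v j) (y1 i j) else
      HahnSeries.single 0 (y2 i j), ?_, ?_, ?_⟩
  · intro i
    simp only
    split_ifs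
    · exact HahnSeries.single_ne_zero (hx1 i)
    · exact HahnSeries.single_ne_zero (hx2 i)
  · intro i j
    simp only
    split_ifs
    · exact HahnSeries.single_ne_zero (hy1 i j)
    · exact HahnSeries.single_ne_zero (hy2 i j)
  intro f hf hL
  by_contra hne
  obtain ⟨α, hα0, hα⟩ := ld_main (0 : ℝ) (fun _ : σ => (0 : ℝ)) hne
  obtain ⟨β, hβ0, hβ⟩ := ld_main v0 v hne
  have hdot0 : ∀ m : ℤ × (σ → ℤ), dot 0 (fun _ : σ => (0 : ℝ)) m = 0 := by
    intro m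
    unfold dot
    simp
  -- the conditions at the points of the second kind
  have c2 : ∀ i, LMS (ld (0 : ℝ) (fun _ : σ => (0 : ℝ)) α f) (x2 i) (y2 i) (w2 i) := by
    intro i a γ h
    have hi : w2 i ≠ 0 := by omega
    have h3 := hL i a γ (by show a + ∑ i, γ i < w1 i + w2 i; omega)
    simp only [if_neg hi] at h3
    rw [← mo_coeff, h3]
    rfl
  have c1 : ∀ i, LMS (ld v0 v β f) (x1 i) (y1 i) (w1 i) := by
    intro i a γ h
    have hi : w2 i = 0 := by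
      rcases hw i with h4 | h4
      · omega
      · exact h4
    have h3 := hL i a γ (by show a + ∑ i, γ i < w1 i + w2 i; omega)
    simp only [if_pos hi] at h3
    rw [← mo_coeff, h3]
    rfl
  have hsub : ∀ (u0 : ℝ) (u : σ → ℝ) (b : ℝ) (m : ℤ × (σ → ℤ)), ld u0 u b f m ≠ 0 →
      m ∈ f.support := by
    intro u0 u b m hm
    rw [Finsupp.mem_support_iff]
    intro h
    apply hm
    rw [ld_apply, h]
    rfl
  obtain ⟨m1, hm1, hm1'⟩ : ∃ m ∈ D1, ld (0 : ℝ) (fun _ : σ => (0 : ℝ)) α f m ≠ 0 := by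
    by_contra hcon
    push Not at hcon
    apply hα0
    refine h2 _ ?_ c2
    intro m hm
    have hm' := Finsupp.mem_support_iff.1 (Finset.mem_coe.1 hm)
    rcases hf (Finset.mem_coe.2 (hsub _ _ _ m hm')) with h | h
    · exact absurd (hcon m h) hm'
    · exact h
  obtain ⟨m2, hm2, hm2'⟩ : ∃ m ∈ D2, ld v0 v β f m ≠ 0 := by
    by_contra hcon
    push Not at hcon
    apply hβ0
    refine h1 _ ?_ c1
    intro m hm
    have hm' := Finsupp.mem_support_iff.1 (Finset.mem_coe.1 hm)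
    rcases hf (Finset.mem_coe.2 (hsub _ _ _ m hm')) with h | h
    · exact h
    · exact absurd (hcon m h) hm'
  have a1 := hα m2 (hsub _ _ _ m2 hm2')
  have a2 := hβ m1 (hsub _ _ _ m1 hm1')
  rw [hdot0] at a1
  rw [ld_apply, hdot0] at hm1'
  rw [ld_apply] at hm2'
  have b1 : (f m1).order ≤ α - 0 := HahnSeries.order_le_of_coeff_ne_zero hm1'
  have b2 : (f m2).order ≤ β - dot v0 v m2 := HahnSeries.order_le_of_coeff_ne_zero hm2'
  have d1 := hD1 m1 hm1
  have d2 := hD2 m2 hm2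
  linarith

/-- rational points -/
theorem exists_rat {ι σ : Type} [Fintype ι] [Fintype σ] {w : ι → ℕ} (T : Finset (ℤ × (σ → ℤ)))
    (hT0 : ∀ m ∈ T, 0 ≤ m.1 ∧ ∀ j, 0 ≤ m.2 j) (h : EmpS w (↑T : Set (ℤ × (σ → ℤ)))) :
    ∃ (x : ι → ℚ) (y : ι → σ → ℚ), (∀ i, x i ≠ 0) ∧ (∀ i j, y i j ≠ 0) ∧
      EmpAt x y w (↑T : Set (ℤ × (σ → ℤ))) := by
  classical
  obtain ⟨G, hG0, hG⟩ := minor_fin T hT0 h
  have h1 : MvPolynomial.map (Int.castRingHom ℚ) G *
      ∏ q : ι × Option σ, (MvPolynomial.X q : MvPolynomial (ι × Option σ) ℚ) ≠ 0 := by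
    refine mul_ne_zero ?_ (Finset.prod_ne_zero_iff.2 fun q _ => MvPolynomial.X_ne_zero q)
    intro h0
    apply hG0
    have h1 := MvPolynomial.map_injective (σ := ι × Option σ) (Int.castRingHom ℚ)
      (RingHom.injective_int (Int.castRingHom ℚ)) (h0.trans (map_zero _).symm)
    exact h1
  obtain ⟨z, hz⟩ : ∃ z : ι × Option σ → ℚ, MvPolynomial.eval z
      (MvPolynomial.map (Int.castRingHom ℚ) G *
      ∏ q : ι × Option σ, (MvPolynomial.X q : MvPolynomial (ι × Option σ) ℚ)) ≠ 0 := by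
    by_contra hcon
    push Not at hcon
    apply h1
    apply MvPolynomial.funext
    intro z
    rw [hcon z, map_zero]
  rw [map_mul, map_prod] at hz
  have h2 := left_ne_zero_of_mul hz
  have h3 := Finset.prod_ne_zero_iff.1 (right_ne_zero_of_mul hz)
  simp only [MvPolynomial.eval_X] at h3
  refine ⟨fun i => z (i, none), fun i j => z (i, some j), fun i => h3 _ (mem_univ _),
    fun i j => h3 _ (mem_univ _), hG ℚ _ _ ?_⟩
  rw [MvPolynomial.eval_map] at h2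
  have e : (fun q : ι × Option σ => Option.elim q.2 (z (q.1, none)) (fun j => z (q.1, some j))) =
      z := by
    funext q
    rcases q with ⟨i, _ | j⟩ <;> rfl
  rw [e]
  exact h2

/-- cutting by a hyperplane, emptiness -/
theorem EmpS_cut {ι σ : Type} [Fintype ι] [Fintype σ] {w1 w2 : ι → ℕ}
    (hw : ∀ i, w1 i = 0 ∨ w2 i = 0) {D1 D2 : Set (ℤ × (σ → ℤ))} (f1 : D1.Finite) (f2 : D2.Finite)
    (n1 : ∀ m ∈ D1, 0 ≤ m.1 ∧ ∀ j, 0 ≤ m.2 j) (n2 : ∀ m ∈ D2, 0 ≤ m.1 ∧ ∀ j, 0 ≤ m.2 j)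
    (h1 : EmpS w1 D1) (h2 : EmpS w2 D2) (v0 : ℝ) (v : σ → ℝ) (c : ℝ)
    (hD1 : ∀ m ∈ D1, dot v0 v m < c) (hD2 : ∀ m ∈ D2, c ≤ dot v0 v m) :
    EmpS (fun i => w1 i + w2 i) (D1 ∪ D2) := by
  obtain ⟨T1, rfl⟩ := f1.exists_finset_coe
  obtain ⟨T2, rfl⟩ := f2.exists_finset_coe
  obtain ⟨x1, y1, a1, a2, a3⟩ := exists_rat T1 (fun m hm => n1 m (Finset.mem_coe.2 hm)) h1
  obtain ⟨x2, y2, b1, b2, b3⟩ := exists_rat T2 (fun m hm => n2 m (Finset.mem_coe.2 hm)) h2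
  exact cut_at a1 a2 b1 b2 a3 b3 hw v0 v c hD1 hD2

theorem nc_add {ι σ : Type} [Fintype ι] [Fintype σ] {w1 w2 : ι → ℕ}
    (hw : ∀ i, w1 i = 0 ∨ w2 i = 0) : nc σ (fun i => w1 i + w2 i) = nc σ w1 + nc σ w2 := by
  unfold nc
  rw [← sum_add_distrib]
  refine sum_congr rfl fun i _ => ?_
  beta_reduce
  rcases hw i with h | h
  · rw [h, zero_add, zero_add, Nat.choose_eq_zero_of_lt (by omega : Fintype.card σ < _), zero_add]
  · rw [h, add_zero, zero_add, Nat.choose_eq_zero_of_lt (by omega : Fintype.card σ < _), add_zero]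

/-- cutting by a hyperplane, independence -/
theorem SurS_cut {ι σ : Type} [Fintype ι] [Fintype σ] {w1 w2 : ι → ℕ}
    (hw : ∀ i, w1 i = 0 ∨ w2 i = 0) {D1 D2 : Set (ℤ × (σ → ℤ))}
    (n1 : ∀ m ∈ D1, 0 ≤ m.1 ∧ ∀ j, 0 ≤ m.2 j) (n2 : ∀ m ∈ D2, 0 ≤ m.1 ∧ ∀ j, 0 ≤ m.2 j)
    (h1 : SurS w1 D1) (h2 : SurS w2 D2) (v0 : ℝ) (v : σ → ℝ) (c : ℝ)
    (hD1 : ∀ m ∈ D1, dot v0 v m < c) (hD2 : ∀ m ∈ D2, c ≤ dot v0 v m) :
    SurS (fun i => w1 i + w2 i) (D1 ∪ D2) := by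
  classical
  obtain ⟨T1, a1, a2, a3⟩ := h1
  obtain ⟨T2, b1, b2, b3⟩ := h2
  refine ⟨T1 ∪ T2, ?_, ?_, ?_⟩
  · rw [Finset.coe_union]
    exact Set.union_subset_union a1 b1
  · rw [Finset.card_union_of_disjoint, a2, b2, nc_add hw]
    rw [Finset.disjoint_left]
    intro m hm1 hm2
    have h3 := hD1 m (a1 (Finset.mem_coe.2 hm1))
    have h4 := hD2 m (b1 (Finset.mem_coe.2 hm2))
    linarith
  · rw [Finset.coe_union]
    exact EmpS_cut hw T1.finite_toSet T2.finite_toSet (fun m hm => n1 m (a1 hm))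
      (fun m hm => n2 m (b1 hm)) a3 b3 v0 v c (fun m hm => hD1 m (a1 hm))
      (fun m hm => hD2 m (b1 hm))

end Pool.Agent.L7h91.CUT
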