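import Pool.Agent.L7h91.CUT.Asm

/-!
# Several groups of general points
-/

set_option autoImplicit false

namespace Pool.Agent.L7h91.CUT

open Finset MvPolynomial Pool.Agent.TH603.EL Pool.Agent.TH3.IR Pool.Agent.L7h91.IR
  Pool.Agent.L7h91.TW
open scoped LinearAlgebra.Projectivization
open Pool.Agent.H350R3.MG

open SMain in
/-- independence at general points from independence on the simplex -/
theorem forms_of_surSG {r k d : ℕ} {w : Fin r → ℕ}
    (hS : SurS w (RegS (0 : ℝ) d (fun _ : Fin (k + 1) => 0) (fun _ => 1))) :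
    ∃ F : MvPolynomial (Fin r × Fin (k + 2)) ℂ, F ≠ 0 ∧ ∀ P : Fin r → Fin (k + 2) → ℂ,
      MvPolynomial.eval (fun q : Fin r × Fin (k + 2) => P q.1 q.2) F ≠ 0 →
      H932R5.SurjAt (E := k + 1) w P d := by
  obtain ⟨G, hG0, hG⟩ := exists_minorS hS
  let e : Fin r × Option (Fin (k + 1)) → Fin r × Fin (k + 2) :=
    fun q => (q.1, Option.elim q.2 0 Fin.succ)
  have he : Function.Injective e := by
    rintro ⟨a, b⟩ ⟨a', b'⟩ h
    have h1 : a = a' := congrArg Prod.fst h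
    have h2 : Option.elim b 0 Fin.succ = Option.elim b' 0 Fin.succ := congrArg Prod.snd h
    subst h1
    cases b with
    | none =>
      cases b' with
      | none => rfl
      | some j => exact absurd h2.symm (Fin.succ_ne_zero j)
    | some i =>
      cases b' with
      | none => exact absurd h2 (Fin.succ_ne_zero i)
      | some j => rw [Fin.succ_injective _ h2]
  refine ⟨MvPolynomial.map (Int.castRingHom ℂ) (rename e G), ?_, ?_⟩
  · intro h0
    apply hG0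
    have h1 := MvPolynomial.map_injective (σ := Fin r × Fin (k + 2)) (Int.castRingHom ℂ)
      (RingHom.injective_int (Int.castRingHom ℂ)) (h0.trans (map_zero _).symm)
    exact rename_injective e he (h1.trans (map_zero _).symm)
  intro P hP
  have hev : MvPolynomial.eval (fun q : Fin r × Fin (k + 2) => P q.1 q.2)
      (MvPolynomial.map (Int.castRingHom ℂ) (rename e G)) =
      MvPolynomial.eval₂ (Int.castRingHom ℂ)
        (fun q => Option.elim q.2 (P q.1 0) (fun j : Fin (k + 1) => P q.1 j.succ)) G := by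
    rw [MvPolynomial.eval_map, MvPolynomial.eval₂_rename]
    congr 1
    funext q
    obtain ⟨a, b⟩ := q
    cases b <;> rfl
  rw [hev] at hP
  obtain ⟨T, hT, hTc, hEmp⟩ := hG ℂ (fun i => P i 0) (fun i j => P i j.succ) hP
  have hnc : Pool.Agent.TH3.IR.nc (Fin (k + 1)) w =
      ∑ i, (w i + (k + 1)).choose (k + 1 + 1) := by
    unfold Pool.Agent.TH3.IR.nc
    rw [Fintype.card_fin]
  have hlow := Pool.Agent.H932R5.finrank_ge (K := ℂ) (E := k + 1) d w P
  have hup := upper (n := k + 1) (d := d) (Pool.Agent.H932R5.Vd d w P)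
    (fun f hf => (Submodule.mem_inf.1 hf).1) T hT (by
    intro f hf hs
    have hfh : f.IsHomogeneous d := (Submodule.mem_inf.1 hf).1
    refine lau_eq_zero hfh (hEmp (lau f) hs fun i => ?_)
    have h1 : f ∈ (RingHom.ker (MvPolynomial.eval (Fin.cons 1 (P i) : Fin (k + 3) → ℂ))) ^
        (w i) := by
      have h2 : f ∈ (Pool.Agent.H932R5.hI (P i)) ^ (w i) := by
        have h3 := (Submodule.mem_inf.1 hf).2
        rw [Submodule.restrictScalars_mem, Ideal.mem_iInf] at h3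
        exact h3 i
      refine Ideal.pow_right_mono ?_ (w i) h2
      unfold Pool.Agent.H932R5.hI
      rw [Ideal.span_le]
      rintro _ ⟨j, rfl⟩
      rw [SetLike.mem_coe, RingHom.mem_ker]
      simp
    have h4 := lau_LMS hfh (P := (Fin.cons 1 (P i) : Fin (k + 3) → ℂ)) one_ne_zero h1
    have e1 : (Fin.cons 1 (P i) : Fin (k + 3) → ℂ) 1 / (Fin.cons 1 (P i) : Fin (k + 3) → ℂ) 0 =
        P i 0 := by
      show P i 0 / 1 = P i 0
      rw [div_one]
    have e2 : (fun j : Fin (k + 1) => (Fin.cons 1 (P i) : Fin (k + 3) → ℂ) j.succ.succ /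
        (Fin.cons 1 (P i) : Fin (k + 3) → ℂ) 0) = fun j => P i j.succ := by
      funext j
      show P i j.succ / 1 = P i j.succ
      rw [div_one]
    rw [e1, e2] at h4
    exact h4)
  rw [hTc, hnc] at hup
  apply surjAt_of_finrank
  omega

/-- the number of the indices with the same value of `v` -/
noncomputable def num {k : ℕ} (v : Fin k → ℝ) (i : Fin k) : ℕ := Set.ncard {j | v j = v i}

/-- the weights: every positive value is attained often -/
def Wts (r : ℕ) {k : ℕ} (v : Fin k → ℝ) : Prop :=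
  (∀ i, 0 ≤ v i) ∧ ∑ i, v i ^ r ≤ 1 ∧
    ∀ i, 0 < v i → 2 + num v i * v i ^ (2 * r - 3) / 4 < num v i * v i ^ (r - 1)

/-- the indices with positive weight -/
noncomputable def ps {k : ℕ} (v : Fin k → ℝ) : Finset (Fin k) := univ.filter fun i => 0 < v i

/-- the values of the weights -/
noncomputable def vals {k : ℕ} (v : Fin k → ℝ) : Finset ℝ := (ps v).image v

/-- the indices with a given positive weight -/
noncomputable def grp {k : ℕ} (v : Fin k → ℝ) (c : ℝ) : Finset (Fin k) :=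
  (ps v).filter fun i => v i = c

theorem sum_grp {k : ℕ} (v f : Fin k → ℝ) :
    ∑ c ∈ vals v, ∑ i ∈ grp v c, f i = ∑ i ∈ ps v, f i :=
  sum_fiberwise_of_maps_to (fun _ hi => mem_image_of_mem v hi) f

theorem mem_ps {k : ℕ} {v : Fin k → ℝ} {i : Fin k} : i ∈ ps v ↔ 0 < v i := by
  unfold ps
  rw [mem_filter]
  exact ⟨fun h => h.2, fun h => ⟨mem_univ _, h⟩⟩

theorem mem_grp {k : ℕ} {v : Fin k → ℝ} {c : ℝ} {i : Fin k} :
    i ∈ grp v c ↔ 0 < v i ∧ v i = c := by
  unfold grp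
  rw [mem_filter, mem_ps]

theorem card_grp {k : ℕ} {v : Fin k → ℝ} {i : Fin k} (hi : 0 < v i) :
    (grp v (v i)).card = num v i := by
  unfold num
  rw [← Set.ncard_coe_finset]
  congr 1
  ext j
  rw [Finset.mem_coe, mem_grp]
  refine ⟨fun h => h.2, fun h => ⟨?_, h⟩⟩
  have h' : v j = v i := h
  rw [h']
  exact hi

theorem grp_sum {k : ℕ} (v : Fin k → ℝ) (c : ℝ) (f : ℝ → ℝ) :
    ∑ i ∈ grp v c, f (v i) = (grp v c).card * f c := by
  rw [sum_congr rfl (g := fun _ => f c) (fun i hi => by rw [(mem_grp.1 hi).2]), sum_const,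
    nsmul_eq_mul]

theorem sum_le_ps {k : ℕ} {v f : Fin k → ℝ} (hf : ∀ i, 0 ≤ f i) : ∑ i ∈ ps v, f i ≤ ∑ i, f i :=
  sum_le_sum_of_subset_of_nonneg (subset_univ _) fun i _ _ => hf i

/-- the facts about a value of the weights -/
theorem vals_facts {E k : ℕ} (hE : 2 ≤ E) {v : Fin k → ℝ} (hv : Wts (E + 1) v) {c : ℝ}
    (hc : c ∈ vals v) : 0 < c ∧ (0 : ℝ) < (grp v c).card ∧
      Ok E ((grp v c).card * c ^ (E + 1)) (1 / c) := by
  unfold vals at hc
  rw [mem_image] at hc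
  obtain ⟨i, hi, rfl⟩ := hc
  rw [mem_ps] at hi
  have h1 := hv.2.2 i hi
  rw [← card_grp hi] at h1
  obtain ⟨n, hn⟩ : ∃ n : ℝ, n = ((grp v (v i)).card : ℝ) := ⟨_, rfl⟩
  rw [← hn] at h1 ⊢
  obtain ⟨c, hc⟩ : ∃ c, c = v i := ⟨_, rfl⟩
  rw [← hc] at h1 hi ⊢
  have hn0 : 0 < n := by
    rw [hn]
    have : i ∈ grp v (v i) := mem_grp.2 ⟨by rw [← hc]; exact hi, rfl⟩
    exact_mod_cast Finset.card_pos.2 ⟨i, this⟩
  refine ⟨hi, hn0, by positivity, by positivity, ?_⟩
  obtain ⟨s, rfl⟩ : ∃ s, E = s + 2 := ⟨E - 2, by omega⟩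
  have e1 : 2 * (s + 2 + 1) - 3 = s + 2 + 1 + s := by omega
  have e2 : s + 2 + 1 - 1 = s + 2 := by omega
  have e3 : s + 2 - 2 = s := by omega
  rw [e1, e2] at h1
  rw [e3]
  have e4 : n * c ^ (s + 2 + 1) / (4 * (1 / c) ^ s) = n * c ^ (s + 2 + 1 + s) / 4 := by
    rw [div_pow, one_pow]
    field_simp
    ring
  have e5 : n * c ^ (s + 2 + 1) * (1 / c) = n * c ^ (s + 2) := by
    field_simp
    ring
  rw [e4, e5]
  exact h1

theorem grp_disj {k : ℕ} (v : Fin k → ℝ) : ∀ a ∈ vals v, ∀ b ∈ vals v, a ≠ b →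
    Disjoint (grp v a) (grp v b) := by
  intro a _ b _ hab
  rw [Finset.disjoint_left]
  intro i hi hi'
  exact hab ((mem_grp.1 hi).2.symm.trans (mem_grp.1 hi').2)

theorem theta_sum {E k : ℕ} {v : Fin k → ℝ} (hv : Wts (E + 1) v) :
    ∑ c ∈ vals v, ((grp v c).card : ℝ) * c ^ (E + 1) ≤ 1 := by
  have h1 : ∑ c ∈ vals v, ((grp v c).card : ℝ) * c ^ (E + 1) = ∑ i ∈ ps v, v i ^ (E + 1) := by
    rw [← sum_grp]
    exact sum_congr rfl fun c _ => (grp_sum v c fun x => x ^ (E + 1)).symm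
  rw [h1]
  exact (sum_le_ps fun i => pow_nonneg (hv.1 i) _).trans hv.2.1

/-- emptiness in one degree -/
theorem emptyV {E k : ℕ} (hE : 2 ≤ E) (w : Fin k → ℕ) {v : Fin k → ℝ} (hv : Wts (E + 1) v)
    (d : ℕ) (hd : (d : ℝ) < ∑ i, v i ^ E * w i) :
    ∃ F : MvPolynomial (Fin k × Fin (E + 1)) ℂ, F ≠ 0 ∧ ∀ P : Fin k → Fin (E + 1) → ℂ,
      MvPolynomial.eval (fun q : Fin k × Fin (E + 1) => P q.1 q.2) F ≠ 0 → NoForms w P d := by
  obtain ⟨Y, hY⟩ : ∃ Y, Y = ∑ i, v i ^ E * (w i : ℝ) := ⟨_, rfl⟩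
  rw [← hY] at hd
  obtain ⟨ε, hε⟩ : ∃ ε, ε = Y - d := ⟨_, rfl⟩
  have hε0 : 0 < ε := by rw [hε]; linarith
  -- the sum over the positive weights
  have hYp : Y = ∑ i ∈ ps v, v i ^ E * (w i : ℝ) := by
    rw [hY]
    symm
    refine sum_subset (subset_univ _) fun i _ hi => ?_
    rw [mem_ps] at hi
    have : v i = 0 := le_antisymm (not_lt.1 hi) (hv.1 i)
    rw [this, zero_pow (by omega), zero_mul]
  have hYc : Y = ∑ c ∈ vals v, c ^ E * ∑ i ∈ grp v c, (w i : ℝ) := by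
    rw [hYp, ← sum_grp]
    refine sum_congr rfl fun c _ => ?_
    rw [mul_sum]
    refine sum_congr rfl fun i hi => ?_
    rw [(mem_grp.1 hi).2]
  have hC : (vals v).Nonempty := by
    rw [Finset.nonempty_iff_ne_empty]
    intro h
    rw [h, sum_empty] at hYc
    have : (0 : ℝ) ≤ d := Nat.cast_nonneg _
    linarith
  apply forms_of_empS
  refine EmpS_groups (ι := Fin k) (σ := Fin E) (by rw [Fintype.card_fin]; exact hE) d
    (grp v) (fun c => (grp v c).card * c ^ (E + 1)) (fun c => 1 / c)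
    (fun c => (∑ i ∈ grp v c, (w i : ℝ)) / ((grp v c).card * c) - ε) (vals v) (grp_disj v) hC
    ?_ ?_ ?_ (theta_sum hv) ?_
  · intro c hc
    rw [Fintype.card_fin]
    exact (vals_facts hE hv hc).2.2
  · intro c hc
    obtain ⟨h1, h2, -⟩ := vals_facts hE hv hc
    rw [Fintype.card_fin]
    apply le_of_eq
    rw [div_pow, one_pow]
    field_simp
  · intro c hc
    obtain ⟨h1, h2, -⟩ := vals_facts hE hv hc
    rw [Fintype.card_fin]
    have e : (1 / c) ^ E * (((grp v c).card : ℝ) * c ^ (E + 1) *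
        ((∑ i ∈ grp v c, (w i : ℝ)) / ((grp v c).card * c) - ε)) =
        ∑ i ∈ grp v c, (w i : ℝ) - (grp v c).card * c * ε := by
      rw [div_pow, one_pow]
      field_simp
      ring
    simp only [e]
    have h3 : 0 < ((grp v c).card : ℝ) * c * ε := by positivity
    linarith
  · have e : ∀ c ∈ vals v, ((grp v c).card : ℝ) * c ^ (E + 1) *
        ((∑ i ∈ grp v c, (w i : ℝ)) / ((grp v c).card * c) - ε) =
        c ^ E * ∑ i ∈ grp v c, (w i : ℝ) - ε * (((grp v c).card : ℝ) * c ^ (E + 1)) := by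
      intro c hc
      obtain ⟨h1, h2, -⟩ := vals_facts hE hv hc
      field_simp
      ring
    rw [sum_congr rfl e, sum_sub_distrib, ← hYc, ← mul_sum]
    have h1 := mul_le_mul_of_nonneg_left (theta_sum hv) hε0.le
    rw [hε] at h1 ⊢
    linarith

/-- independence in one degree -/
theorem indepV {E k : ℕ} (hE : 2 ≤ E) (w : Fin k → ℕ) {v : Fin k → ℝ} (hv : Wts (E + 1) v)
    (d : ℕ) (hd : ∀ i, (w i : ℝ) + (E + 1) ≤ v i * (d - E)) :
    ∃ F : MvPolynomial (Fin k × Fin (E + 1)) ℂ, F ≠ 0 ∧ ∀ P : Fin k → Fin (E + 1) → ℂ,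
      MvPolynomial.eval (fun q : Fin k × Fin (E + 1) => P q.1 q.2) F ≠ 0 →
      H932R5.SurjAt w P d := by
  obtain ⟨s, rfl⟩ : ∃ s, E = s + 1 := ⟨E - 1, by omega⟩
  have hv0 : ∀ i, 0 < v i := by
    intro i
    refine lt_of_le_of_ne (hv.1 i) fun h => ?_
    have h1 := hd i
    rw [← h, zero_mul] at h1
    have : (0 : ℝ) ≤ (w i : ℝ) + ((s + 1 : ℕ) : ℝ) := by positivity
    linarith
  obtain ⟨M, hM⟩ : ∃ M : ℝ → ℕ, M = fun c : ℝ => ⌊c * (d - (s + 1 : ℕ))⌋₊ - (s + 1 + 1) :=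
    ⟨_, rfl⟩
  have hfl : ∀ i, w i + (s + 1 + 1) ≤ ⌊v i * (d - (s + 1 : ℕ))⌋₊ := by
    intro i
    apply Nat.le_floor
    have := hd i
    push_cast at this ⊢
    linarith
  have hw : ∀ i, w i ≤ M (v i) := by
    intro i
    have := hfl i
    rw [hM]
    simp only
    omega
  have key : ∃ F : MvPolynomial (Fin k × Fin (s + 1 + 1)) ℂ, F ≠ 0 ∧
      ∀ P : Fin k → Fin (s + 1 + 1) → ℂ,
      MvPolynomial.eval (fun q : Fin k × Fin (s + 1 + 1) => P q.1 q.2) F ≠ 0 →
      H932R5.SurjAt (fun i => M (v i)) P d := by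
    apply forms_of_surSG
    refine SurS_groups (ι := Fin k) (σ := Fin (s + 1)) (by rw [Fintype.card_fin]; exact hE) d
      (grp v) (fun c => (grp v c).card * c ^ (s + 1 + 1)) (fun c => 1 / c) M (vals v)
      (grp_disj v) ?_ ?_ ?_ ?_ ?_ (theta_sum hv)
    · intro i
      exact ⟨v i, mem_image_of_mem v (mem_ps.2 (hv0 i)), mem_grp.2 ⟨hv0 i, rfl⟩⟩
    · intro c _ i hi
      rw [(mem_grp.1 hi).2]
    · intro c hc
      rw [Fintype.card_fin]
      exact (vals_facts hE hv hc).2.2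
    · intro c hc
      obtain ⟨h1, h2, -⟩ := vals_facts hE hv hc
      rw [Fintype.card_fin]
      rw [div_pow, one_pow]
      field_simp
    · intro c hc
      obtain ⟨h1, h2, -⟩ := vals_facts hE hv hc
      rw [Fintype.card_fin]
      unfold vals at hc
      rw [mem_image] at hc
      obtain ⟨i, hi, rfl⟩ := hc
      have h3 := hfl i
      have h4 : ((M (v i) + (s + 1 + 1) : ℕ) : ℝ) ≤ v i * (d - (s + 1 : ℕ)) := by
        have h5 : M (v i) + (s + 1 + 1) = ⌊v i * (d - (s + 1 : ℕ))⌋₊ := by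
          rw [hM]
          simp only
          omega
        rw [h5]
        apply Nat.floor_le
        have h6 := hd i
        have : (0 : ℝ) ≤ (w i : ℝ) + (((s + 1 : ℕ) : ℝ) + 1) := by positivity
        linarith
      have h7 : 1 / v i * ((M (v i) : ℝ) + (s + 1 : ℕ) + 1) ≤ (d : ℝ) - (s + 1 : ℕ) := by
        rw [one_div, inv_mul_le_iff₀ h1]
        push_cast at h4 ⊢
        linarith
      linarith
  obtain ⟨F, hF, h⟩ := key
  exact ⟨F, hF, fun P hP => (h P hP).mono_w hw⟩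

/-- one open set for all degrees and all weights -/
theorem mainV {r k : ℕ} (hr : 3 ≤ r) (w : Fin k → ℕ) :
    Generally (fun P : Fin k → ℙ ℂ (Fin (r + 1) → ℂ) => ∀ (d : ℕ) (v : Fin k → ℝ), Wts r v →
      ((d : ℝ) < ∑ i, v i ^ (r - 1) * w i →
        pforms d w P = ⊥ ∧ (d + r).choose r ≤ ∑ i, (w i + r - 1).choose r) ∧
      ((∀ i, (w i : ℝ) + r ≤ v i * (d - r + 1)) →
        ∑ i, (w i + r - 1).choose r + Module.finrank ℂ ↥(pforms d w P) = (d + r).choose r)) := by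
  classical
  obtain ⟨s, rfl⟩ : ∃ s, r = s + 3 := ⟨r - 3, by omega⟩
  have er : s + 3 - 1 = s + 2 := by omega
  rw [er]
  -- emptiness: one `F` for each degree
  have hA : ∀ d : ℕ, ∃ F : MvPolynomial (Fin k × Fin (s + 2 + 1)) ℂ, F ≠ 0 ∧
      ∀ P : Fin k → Fin (s + 2 + 1) → ℂ,
      MvPolynomial.eval (fun q : Fin k × Fin (s + 2 + 1) => P q.1 q.2) F ≠ 0 →
      (∃ v, Wts (s + 3) v ∧ (d : ℝ) < ∑ i, v i ^ (s + 2) * w i) → NoForms w P d := by
    intro d
    by_cases h : ∃ v, Wts (s + 3) v ∧ (d : ℝ) < ∑ i, v i ^ (s + 2) * w i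
    · obtain ⟨v, hv, hd⟩ := h
      obtain ⟨F, hF, h1⟩ := emptyV (E := s + 2) (by omega) w hv d hd
      exact ⟨F, hF, fun P hP _ => h1 P hP⟩
    · exact ⟨1, one_ne_zero, fun P _ h1 => absurd h1 h⟩
  choose FA hFA hA' using hA
  -- independence: one `F`
  have hB : ∃ F : MvPolynomial (Fin k × Fin (s + 2 + 1)) ℂ, F ≠ 0 ∧
      ∀ P : Fin k → Fin (s + 2 + 1) → ℂ,
      MvPolynomial.eval (fun q : Fin k × Fin (s + 2 + 1) => P q.1 q.2) F ≠ 0 → ∀ d : ℕ,
      (∃ v, Wts (s + 3) v ∧ ∀ i, (w i : ℝ) + ((s + 2 : ℕ) + 1) ≤ v i * (d - (s + 2 : ℕ))) →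
      H932R5.SurjAt w P d := by
    by_cases hex : ∃ d : ℕ, ∃ v, Wts (s + 3) v ∧
        ∀ i, (w i : ℝ) + ((s + 2 : ℕ) + 1) ≤ v i * (d - (s + 2 : ℕ))
    · obtain ⟨v, hv, hD⟩ := Nat.find_spec hex
      obtain ⟨F, hF, h⟩ := indepV (E := s + 2) (by omega) w hv (Nat.find hex) hD
      refine ⟨F, hF, fun P hP d hd => (h P hP).mono_d ?_⟩
      exact Nat.find_min' hex hd
    · exact ⟨1, one_ne_zero, fun P _ d hd => absurd ⟨d, hd⟩ hex⟩
  obtain ⟨F2, hF20, hB'⟩ := hB
  obtain ⟨F1, hF1⟩ : ∃ F, F = ∏ d ∈ Finset.range (∑ i, w i + 1), FA d := ⟨_, rfl⟩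
  have hF10 : F1 ≠ 0 := by
    rw [hF1]
    exact Finset.prod_ne_zero_iff.2 fun d _ => hFA d
  refine generally_of_affine (F1 * F2) (mul_ne_zero hF10 hF20) fun P hv hP d v hvw => ?_
  rw [map_mul] at hP
  have hP1 := left_ne_zero_of_mul hP
  have hP2 := right_ne_zero_of_mul hP
  rw [hF1, map_prod] at hP1
  rw [pforms_cons (E := s + 2)]
  have e1 : ∀ i, w i + (s + 3) - 1 = w i + (s + 2) := fun i => by omega
  have e2 : d + (s + 3) = d + (s + 2) + 1 := by omega
  simp only [e1, e2]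
  refine ⟨fun hd => ?_, fun hd => ?_⟩
  · have hle1 : ∀ i, v i ≤ 1 := by
      intro i
      by_contra hcon
      push Not at hcon
      have h1 : 1 < v i ^ (s + 3) := one_lt_pow₀ hcon (by omega)
      have h2 : v i ^ (s + 3) ≤ ∑ i, v i ^ (s + 3) :=
        single_le_sum (f := fun i => v i ^ (s + 3)) (fun i _ => pow_nonneg (hvw.1 i) _)
          (mem_univ i)
      have h3 := hvw.2.1
      linarith
    have hdB : d ∈ Finset.range (∑ i, w i + 1) := by
      rw [Finset.mem_range, Nat.lt_succ_iff]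
      have h2 : ∑ i, v i ^ (s + 2) * (w i : ℝ) ≤ ∑ i, (w i : ℝ) := by
        refine sum_le_sum fun i _ => ?_
        have h3 : v i ^ (s + 2) ≤ 1 := pow_le_one₀ (hvw.1 i) (hle1 i)
        have h4 : (0 : ℝ) ≤ w i := Nat.cast_nonneg _
        nlinarith
      have h3 : (d : ℝ) ≤ ((∑ i, w i : ℕ) : ℝ) := by
        push_cast
        linarith
      exact_mod_cast h3
    have h5 := vd_eq_bot (hA' d P (Finset.prod_ne_zero_iff.1 hP1 d hdB) ⟨v, hvw, hd⟩)
    refine ⟨h5, ?_⟩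
    have h6 := H932R5.finrank_ge d w P
    rw [h5, finrank_bot] at h6
    exact h6
  · refine (hB' P hP2 d ⟨v, hvw, fun i => ?_⟩).finrank
    have h1 := hd i
    push_cast at h1 ⊢
    have e3 : (d : ℝ) - (s + 3) + 1 = d - (s + 2) := by ring
    rw [e3] at h1
    linarith

end Pool.Agent.L7h91.CUT
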