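import Pool.Agent.L7h91.CUT.AsmA
import Pool.Agent.L7h91.CUT.Fin

/-!
# General fat points with weights, first flattening by an integral factor
-/

set_option autoImplicit false

namespace Pool.Agent.L7h91.CUT

open Finset Pool.Agent.TH603.EL Pool.Agent.TH3.IR Pool.Agent.L7h91.IR Pool.Agent.L7h91.TW
open Pool.Agent.H350R3.MG
open scoped LinearAlgebra.Projectivization

/-- the condition on the pieces -/
def OkA (n : ℕ) (A s Λ : ℝ) : Prop :=
  0 < s ∧ 0 < Λ ∧ ((2 < Λ ∧ 3 ≤ s * Λ) ∨ (A = 1 ∧ 2 + s / (4 * Λ ^ (n - 2)) < s * Λ))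

theorem OkA.two {n : ℕ} {A s Λ : ℝ} (h : OkA n A s Λ) : 2 ≤ s * Λ := by
  obtain ⟨h1, h2, h3 | h3⟩ := h
  · linarith [h3.2]
  · have : 0 < s / (4 * Λ ^ (n - 2)) := by positivity
    linarith [h3.2]

/-- emptiness for a piece, of any size -/
theorem EmpS_pieceO {ι σ : Type} [Fintype ι] [Fintype σ] (hσ : 2 ≤ Fintype.card σ)
    {w : ι → ℕ} {γ A s Λ L R : ℝ} (hγ0 : 0 ≤ γ) (hγs : γ + s ≤ A)
    (hΛ : OkA (Fintype.card σ) A s Λ)
    (hk : (Fintype.card ι : ℝ) ≤ s * Λ ^ (Fintype.card σ + 1))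
    (hw : Λ ^ Fintype.card σ * (R - L) < ∑ i, (w i : ℝ)) :
    EmpS w (RegS L R (fun _ : σ => -γ) (fun _ => γ + s)) := by
  obtain ⟨h1, h2, h3⟩ := hΛ
  by_cases hLR : 0 ≤ R - L
  · rcases h3 with ⟨h3, h4⟩ | ⟨h3, h4⟩
    · exact EmpS_pieceA hσ h1 h3 h4 hk hLR hw
    · exact EmpS_piece hσ hγ0 h1 (by linarith) h2 h4 hk hLR hw
  · push Not at hLR
    refine (empS_empty w).mono ?_
    rintro ⟨x, y⟩ ⟨k1, k2, k3⟩
    simp only [sumC] at k1 k2 k3
    exfalso
    have h4 : (0 : ℝ) ≤ ∑ i, (y i : ℝ) := sum_nonneg fun i _ => by exact_mod_cast k1 i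
    have h5 : 0 ≤ s * ∑ i, (y i : ℝ) := mul_nonneg h1.le h4
    linarith

/-- independence for a piece -/
theorem SurS_pieceO {ι σ : Type} [Fintype ι] [Fintype σ] (hσ : 2 ≤ Fintype.card σ)
    (m : ℕ) {γ A s Λ D : ℝ} (hγ0 : 0 ≤ γ) (hγs : γ + s ≤ A)
    (hΛ : OkA (Fintype.card σ) A s Λ)
    (hk : s * Λ ^ (Fintype.card σ + 1) = (Fintype.card ι : ℝ))
    (hw : Λ * (m + Fintype.card σ + 2) + Fintype.card σ ≤ D) :
    SurS (fun _ : ι => m) (RegS (γ * D + 1) ((γ + s) * D) (fun _ : σ => -γ)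
      (fun _ => γ + s)) := by
  have h20 := hΛ.two
  obtain ⟨h1, h2, h3⟩ := hΛ
  have h5 := mul_le_mul_of_nonneg_left hw h1.le
  rcases h3 with ⟨h3, h4⟩ | ⟨h3, h4⟩
  · refine SurS_pieceA hσ m h1 h3 h4 hk ?_
    linarith
  · refine SurS_piece hσ m hγ0 h1 (by linarith) h2 h4 hk ?_
    nlinarith

/-- the weights -/
def WtsA (r : ℕ) {k : ℕ} (v : Fin k → ℝ) : Prop :=
  (∀ i, 0 ≤ v i) ∧ ∑ i, v i ^ r ≤ 1 ∧ ∃ a : ℕ, 1 ≤ a ∧ ∀ i, 0 < v i →
    ((a * v i < 1 / 2 ∧ 3 ≤ num v i * (a * v i) ^ (r - 1)) ∨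
      (a = 1 ∧ 2 + num v i * v i ^ (2 * r - 3) / 4 < num v i * v i ^ (r - 1)))

/-- the facts about a value of the weights -/
theorem vals_factsA {E k : ℕ} (hE : 2 ≤ E) {v : Fin k → ℝ} {a : ℕ} (ha : 1 ≤ a)
    (hsum : ∑ i, v i ^ (E + 1) ≤ 1)
    (hv : ∀ i, 0 < v i → ((a * v i < 1 / 2 ∧ 3 ≤ num v i * (a * v i) ^ E) ∨
      (a = 1 ∧ 2 + num v i * v i ^ (2 * E - 1) / 4 < num v i * v i ^ E))) {c : ℝ}
    (hv0 : ∀ i, 0 ≤ v i)
    (hc : c ∈ vals v) : 0 < c ∧ (0 : ℝ) < (grp v c).card ∧ a * c < 1 / 2 ∧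
      OkA E (a ^ (E + 1)) ((grp v c).card * (a * c) ^ (E + 1)) (1 / (a * c)) := by
  have ha0 : (0 : ℝ) < a := by exact_mod_cast ha
  unfold vals at hc
  rw [mem_image] at hc
  obtain ⟨i, hi, rfl⟩ := hc
  rw [mem_ps] at hi
  have h1 := hv i hi
  rw [← card_grp hi] at h1
  have hle : ((grp v (v i)).card : ℝ) * v i ^ (E + 1) ≤ 1 := by
    rw [← grp_sum v (v i) (fun x => x ^ (E + 1))]
    refine le_trans ?_ hsum
    exact sum_le_sum_of_subset_of_nonneg (subset_univ _) fun j _ _ => pow_nonneg (hv0 j) _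
  obtain ⟨n, hn⟩ : ∃ n : ℝ, n = ((grp v (v i)).card : ℝ) := ⟨_, rfl⟩
  rw [← hn] at h1 hle ⊢
  obtain ⟨c, hc⟩ : ∃ c, c = v i := ⟨_, rfl⟩
  rw [← hc] at h1 hi hle ⊢
  have hn0 : 0 < n := by
    rw [hn]
    have : i ∈ grp v (v i) := mem_grp.2 ⟨by rw [← hc]; exact hi, rfl⟩
    exact_mod_cast Finset.card_pos.2 ⟨i, this⟩
  have hac : 0 < a * c := by positivity
  refine ⟨hi, hn0, ?_, by positivity, by positivity, ?_⟩
  · rcases h1 with ⟨h1, -⟩ | ⟨h1, h2⟩
    · exact h1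
    · rw [h1, Nat.cast_one, one_mul]
      by_contra hcon
      push Not at hcon
      have h3 : 0 < n * c ^ (2 * E - 1) / 4 := by positivity
      have h4 : n * c ^ E * c ≤ 1 := by
        rw [pow_succ] at hle
        linarith
      nlinarith
  · rcases h1 with ⟨h1, h2⟩ | ⟨h1, h2⟩
    · left
      refine ⟨?_, ?_⟩
      · rw [lt_div_iff₀ hac]
        linarith
      · have e5 : n * (a * c) ^ (E + 1) * (1 / (a * c)) = n * (a * c) ^ E := by
          field_simp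
          ring
        rw [e5]
        exact h2
    · right
      subst h1
      rw [Nat.cast_one, one_mul, one_pow]
      refine ⟨rfl, ?_⟩
      obtain ⟨s, rfl⟩ : ∃ s, E = s + 2 := ⟨E - 2, by omega⟩
      have e1 : 2 * (s + 2) - 1 = s + 2 + 1 + s := by omega
      have e3 : s + 2 - 2 = s := by omega
      rw [e1] at h2
      rw [e3]
      have e4 : n * c ^ (s + 2 + 1) / (4 * (1 / c) ^ s) = n * c ^ (s + 2 + 1 + s) / 4 := by
        rw [div_pow, one_pow]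
        field_simp
        ring
      have e5 : n * c ^ (s + 2 + 1) * (1 / c) = n * c ^ (s + 2) := by
        field_simp
        ring
      rw [e4, e5]
      exact h2

theorem theta_sumA {E k : ℕ} {v : Fin k → ℝ} (h0 : ∀ i, 0 ≤ v i)
    (hsum : ∑ i, v i ^ (E + 1) ≤ 1) (a : ℕ) :
    ∑ c ∈ vals v, ((grp v c).card : ℝ) * (a * c) ^ (E + 1) ≤ (a : ℝ) ^ (E + 1) := by
  have h1 : ∑ c ∈ vals v, ((grp v c).card : ℝ) * (a * c) ^ (E + 1) =
      a ^ (E + 1) * ∑ i ∈ ps v, v i ^ (E + 1) := by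
    rw [← sum_grp, mul_sum]
    refine sum_congr rfl fun c _ => ?_
    rw [grp_sum v c fun x => x ^ (E + 1), mul_pow]
    ring
  rw [h1]
  have h2 := (sum_le_ps (v := v) (f := fun i => v i ^ (E + 1))
    fun i => pow_nonneg (h0 i) _).trans hsum
  have h3 : (0 : ℝ) ≤ (a : ℝ) ^ (E + 1) := by positivity
  nlinarith

/-- emptiness in one degree -/
theorem emptyA {E k : ℕ} (hE : 2 ≤ E) (w : Fin k → ℕ) {v : Fin k → ℝ} (hv : WtsA (E + 1) v)
    (d : ℕ) (hd : (d : ℝ) < ∑ i, v i ^ E * w i) :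
    ∃ F : MvPolynomial (Fin k × Fin (E + 1)) ℂ, F ≠ 0 ∧ ∀ P : Fin k → Fin (E + 1) → ℂ,
      MvPolynomial.eval (fun q : Fin k × Fin (E + 1) => P q.1 q.2) F ≠ 0 → NoForms w P d := by
  obtain ⟨hv0, hvs, a, ha, hva⟩ := hv
  have e2E : 2 * (E + 1) - 3 = 2 * E - 1 := by omega
  rw [e2E, Nat.add_sub_cancel] at hva
  have ha0 : (0 : ℝ) < a := by exact_mod_cast ha
  have ha1 : (1 : ℝ) ≤ a := by exact_mod_cast ha
  obtain ⟨Y, hY⟩ : ∃ Y, Y = ∑ i, v i ^ E * (w i : ℝ) := ⟨_, rfl⟩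
  rw [← hY] at hd
  obtain ⟨ε, hε⟩ : ∃ ε, ε = (Y - d) / a := ⟨_, rfl⟩
  have hε0 : 0 < ε := by rw [hε]; exact div_pos (by linarith) ha0
  -- the sum over the positive weights
  have hYp : Y = ∑ i ∈ ps v, v i ^ E * (w i : ℝ) := by
    rw [hY]
    symm
    refine sum_subset (subset_univ _) fun i _ hi => ?_
    rw [mem_ps] at hi
    have : v i = 0 := le_antisymm (not_lt.1 hi) (hv0 i)
    rw [this, zero_pow (by omega), zero_mul]
  have hYc : Y = ∑ c ∈ vals v, c ^ E * ∑ i ∈ grp v c, (w i : ℝ) := by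
    rw [hYp, ← sum_grp]
    refine sum_congr rfl fun c _ => ?_
    rw [mul_sum]
    refine sum_congr rfl fun i hi => ?_
    rw [(mem_grp.1 hi).2]
  have hC : (vals v).Nonempty := by
    rw [Finset.nonempty_iff_ne_empty]
    intro h
    rw [h, sum_empty] at hYc
    have : (0 : ℝ) ≤ d := Nat.cast_nonneg _
    linarith
  have facts := fun c hc => vals_factsA (c := c) hE ha hvs hva hv0 hc
  have hA1 : (1 : ℝ) ≤ (a : ℝ) ^ (E + 1) := one_le_pow₀ ha1
  apply forms_of_empS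
  apply EmpS_lev ha
  rw [Fintype.card_fin]
  refine EmpS_groupsA (ι := Fin k) (σ := Fin E) hA1
    (grp v) (fun c => (grp v c).card * (a * c) ^ (E + 1))
    (fun c => (∑ i ∈ grp v c, (w i : ℝ)) / ((grp v c).card * (a * c)) - ε) (vals v)
    (grp_disj v) hC ?_ ?_ (theta_sumA hv0 hvs a) ?_
  · intro c hc
    exact (facts c hc).2.2.2.1
  · intro c hc L γ hγ hγA
    obtain ⟨h1, h2, -, h4⟩ := facts c hc
    have e1 : L + ((grp v c).card : ℝ) * (a * c) ^ (E + 1) *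
        ((∑ i ∈ grp v c, (w i : ℝ)) / ((grp v c).card * (a * c)) - ε) - L =
        (a * c) ^ E * ∑ i ∈ grp v c, (w i : ℝ) -
          ε * (((grp v c).card : ℝ) * (a * c) ^ (E + 1)) := by
      field_simp
      ring
    refine empS_extend (EmpS_pieceO (Λ := 1 / (a * c)) (by rw [Fintype.card_fin]; exact hE) hγ hγA
      (by rw [Fintype.card_fin]; exact h4) ?_ ?_)
    · rw [Fintype.card_coe, Fintype.card_fin]
      apply le_of_eq
      rw [div_pow, one_pow]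
      field_simp
    · rw [e1, Fintype.card_fin, Finset.sum_coe_sort (grp v c) (fun i => (w i : ℝ))]
      have e : (1 / (a * c)) ^ E * ((a * c) ^ E * ∑ i ∈ grp v c, (w i : ℝ) -
          ε * (((grp v c).card : ℝ) * (a * c) ^ (E + 1))) =
          ∑ i ∈ grp v c, (w i : ℝ) - (grp v c).card * (a * c) * ε := by
        rw [div_pow, one_pow]
        field_simp
        ring
      rw [e]
      have h3 : 0 < ((grp v c).card : ℝ) * (a * c) * ε := by positivity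
      linarith
  · have e : ∀ c ∈ vals v, ((grp v c).card : ℝ) * (a * c) ^ (E + 1) *
        ((∑ i ∈ grp v c, (w i : ℝ)) / ((grp v c).card * (a * c)) - ε) =
        a ^ E * (c ^ E * ∑ i ∈ grp v c, (w i : ℝ)) -
          ε * (((grp v c).card : ℝ) * (a * c) ^ (E + 1)) := by
      intro c hc
      obtain ⟨h1, h2, -⟩ := facts c hc
      field_simp
      ring
    rw [sum_congr rfl e, sum_sub_distrib, ← mul_sum, ← mul_sum, ← hYc]
    have h1 := mul_le_mul_of_nonneg_left (theta_sumA hv0 hvs a) hε0.le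
    have h2 : ε * (a : ℝ) ^ (E + 1) = a ^ E * (Y - d) := by
      rw [hε]
      field_simp
      ring
    rw [h2] at h1
    linarith

/-- independence in one degree -/
theorem indepA {E k : ℕ} (hE : 2 ≤ E) (w : Fin k → ℕ) {v : Fin k → ℝ} (hv : WtsA (E + 1) v)
    (d : ℕ) (hd : ∀ i, (w i : ℝ) + 2 * (E + 1) ≤ v i * d) :
    ∃ F : MvPolynomial (Fin k × Fin (E + 1)) ℂ, F ≠ 0 ∧ ∀ P : Fin k → Fin (E + 1) → ℂ,
      MvPolynomial.eval (fun q : Fin k × Fin (E + 1) => P q.1 q.2) F ≠ 0 →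
      H932R5.SurjAt w P d := by
  obtain ⟨hv0', hvs, a, ha, hva⟩ := hv
  have e2E : 2 * (E + 1) - 3 = 2 * E - 1 := by omega
  rw [e2E, Nat.add_sub_cancel] at hva
  have ha0 : (0 : ℝ) < a := by exact_mod_cast ha
  have ha1 : (1 : ℝ) ≤ a := by exact_mod_cast ha
  have hA1 : (1 : ℝ) ≤ (a : ℝ) ^ (E + 1) := one_le_pow₀ ha1
  obtain ⟨s, rfl⟩ : ∃ s, E = s + 1 := ⟨E - 1, by omega⟩
  have hv0 : ∀ i, 0 < v i := by
    intro i
    refine lt_of_le_of_ne (hv0' i) fun h => ?_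
    have h1 := hd i
    rw [← h, zero_mul] at h1
    have : (0 : ℝ) ≤ (w i : ℝ) + ((s + 1 : ℕ) : ℝ) := by positivity
    push_cast at h1 this
    linarith
  obtain ⟨M, hM⟩ : ∃ M : ℝ → ℕ, M = fun c : ℝ => ⌊c * d⌋₊ - 2 * (s + 1 + 1) := ⟨_, rfl⟩
  have hfl : ∀ i, w i + 2 * (s + 1 + 1) ≤ ⌊v i * d⌋₊ := by
    intro i
    apply Nat.le_floor
    have := hd i
    push_cast at this ⊢
    linarith
  have hw : ∀ i, w i ≤ M (v i) := by
    intro i
    have := hfl i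
    rw [hM]
    simp only
    omega
  have facts := fun c hc => vals_factsA (c := c) hE ha hvs hva hv0' hc
  have key : ∃ F : MvPolynomial (Fin k × Fin (s + 1 + 1)) ℂ, F ≠ 0 ∧
      ∀ P : Fin k → Fin (s + 1 + 1) → ℂ,
      MvPolynomial.eval (fun q : Fin k × Fin (s + 1 + 1) => P q.1 q.2) F ≠ 0 →
      H932R5.SurjAt (fun i => M (v i)) P d := by
    apply forms_of_surSG
    apply SurS_lev ha
    rw [Fintype.card_fin]
    have eD : (a : ℝ) ^ (s + 1) * (d - ((s + 1 : ℕ) : ℝ) * a) =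
        a ^ (s + 1 + 1) * ((d : ℝ) / a - (s + 1 : ℕ)) := by
      field_simp
      ring
    rw [eD]
    refine SurS_groupsA (ι := Fin k) (σ := Fin (s + 1)) hA1
      (grp v) (fun c => (grp v c).card * (a * c) ^ (s + 1 + 1)) (vals v)
      (grp_disj v) ?_ ?_ one_pos ?_ (theta_sumA hv0' hvs a)
    · intro i
      exact ⟨v i, mem_image_of_mem v (mem_ps.2 (hv0 i)), mem_grp.2 ⟨hv0 i, rfl⟩⟩
    · intro c hc
      exact (facts c hc).2.2.2.1
    · intro c hc γ hγ hγA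
      obtain ⟨h1, h2, h3, h4⟩ := facts c hc
      apply surS_extend
      have e0 : (fun i : grp v c => M (v i)) = fun _ => M c := by
        funext i
        rw [(mem_grp.1 i.2).2]
      rw [e0]
      refine SurS_pieceO (Λ := 1 / (a * c)) (by rw [Fintype.card_fin]; exact hE) (M c) hγ hγA
        (by rw [Fintype.card_fin]; exact h4) ?_ ?_
      · rw [Fintype.card_coe, Fintype.card_fin]
        rw [div_pow, one_pow]
        field_simp
      · rw [Fintype.card_fin]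
        unfold vals at hc
        rw [mem_image] at hc
        obtain ⟨i, hi, rfl⟩ := hc
        have h5 := hfl i
        have h6 : ((M (v i) + 2 * (s + 1 + 1) : ℕ) : ℝ) ≤ v i * d := by
          have h7 : M (v i) + 2 * (s + 1 + 1) = ⌊v i * d⌋₊ := by
            rw [hM]
            simp only
            omega
          rw [h7]
          apply Nat.floor_le
          positivity
        have hac : 0 < a * v i := by positivity
        have h8 : 1 / (a * v i) * ((M (v i) : ℝ) + (s + 1 : ℕ) + 2) + 2 * (s + 1 : ℕ) ≤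
            (d : ℝ) / a := by
          rw [le_div_iff₀ ha0]
          have e3 : (1 / (a * v i) * ((M (v i) : ℝ) + (s + 1 : ℕ) + 2) + 2 * (s + 1 : ℕ)) * a =
              ((M (v i) : ℝ) + (s + 1 : ℕ) + 2 + 2 * (s + 1 : ℕ) * (a * v i)) / v i := by
            field_simp
          rw [e3, div_le_iff₀ h1]
          push_cast at h6 ⊢
          have h9 : 2 * ((s : ℝ) + 1) * (a * v i) ≤ 2 * ((s : ℝ) + 1) * (1 / 2) :=
            mul_le_mul_of_nonneg_left h3.le (by positivity)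
          linarith
        linarith
  obtain ⟨F, hF, h⟩ := key
  exact ⟨F, hF, fun P hP => (h P hP).mono_w hw⟩

/-- one open set for all degrees and all weights -/
theorem mainA {r k : ℕ} (hr : 3 ≤ r) (w : Fin k → ℕ) :
    Generally (fun P : Fin k → ℙ ℂ (Fin (r + 1) → ℂ) => ∀ (d : ℕ) (v : Fin k → ℝ), WtsA r v →
      ((d : ℝ) < ∑ i, v i ^ (r - 1) * w i →
        pforms d w P = ⊥ ∧ (d + r).choose r ≤ ∑ i, (w i + r - 1).choose r) ∧
      ((∀ i, (w i : ℝ) + 2 * r ≤ v i * d) →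
        ∑ i, (w i + r - 1).choose r + Module.finrank ℂ ↥(pforms d w P) = (d + r).choose r)) := by
  classical
  obtain ⟨s, rfl⟩ : ∃ s, r = s + 3 := ⟨r - 3, by omega⟩
  have er : s + 3 - 1 = s + 2 := by omega
  rw [er]
  -- emptiness: one `F` for each degree
  have hA : ∀ d : ℕ, ∃ F : MvPolynomial (Fin k × Fin (s + 2 + 1)) ℂ, F ≠ 0 ∧
      ∀ P : Fin k → Fin (s + 2 + 1) → ℂ,
      MvPolynomial.eval (fun q : Fin k × Fin (s + 2 + 1) => P q.1 q.2) F ≠ 0 →
      (∃ v, WtsA (s + 3) v ∧ (d : ℝ) < ∑ i, v i ^ (s + 2) * w i) → NoForms w P d := by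
    intro d
    by_cases h : ∃ v, WtsA (s + 3) v ∧ (d : ℝ) < ∑ i, v i ^ (s + 2) * w i
    · obtain ⟨v, hv, hd⟩ := h
      obtain ⟨F, hF, h1⟩ := emptyA (E := s + 2) (by omega) w hv d hd
      exact ⟨F, hF, fun P hP _ => h1 P hP⟩
    · exact ⟨1, one_ne_zero, fun P _ h1 => absurd h1 h⟩
  choose FA hFA hA' using hA
  -- independence: one `F`
  have hB : ∃ F : MvPolynomial (Fin k × Fin (s + 2 + 1)) ℂ, F ≠ 0 ∧
      ∀ P : Fin k → Fin (s + 2 + 1) → ℂ,
      MvPolynomial.eval (fun q : Fin k × Fin (s + 2 + 1) => P q.1 q.2) F ≠ 0 → ∀ d : ℕ,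
      (∃ v, WtsA (s + 3) v ∧ ∀ i, (w i : ℝ) + 2 * ((s + 2 : ℕ) + 1) ≤ v i * d) →
      H932R5.SurjAt w P d := by
    by_cases hex : ∃ d : ℕ, ∃ v, WtsA (s + 3) v ∧
        ∀ i, (w i : ℝ) + 2 * ((s + 2 : ℕ) + 1) ≤ v i * d
    · obtain ⟨v, hv, hD⟩ := Nat.find_spec hex
      obtain ⟨F, hF, h⟩ := indepA (E := s + 2) (by omega) w hv (Nat.find hex) hD
      refine ⟨F, hF, fun P hP d hd => (h P hP).mono_d ?_⟩
      exact Nat.find_min' hex hd
    · exact ⟨1, one_ne_zero, fun P _ d hd => absurd ⟨d, hd⟩ hex⟩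
  obtain ⟨F2, hF20, hB'⟩ := hB
  obtain ⟨F1, hF1⟩ : ∃ F, F = ∏ d ∈ Finset.range (∑ i, w i + 1), FA d := ⟨_, rfl⟩
  have hF10 : F1 ≠ 0 := by
    rw [hF1]
    exact Finset.prod_ne_zero_iff.2 fun d _ => hFA d
  refine generally_of_affine (F1 * F2) (mul_ne_zero hF10 hF20) fun P hv hP d v hvw => ?_
  rw [map_mul] at hP
  have hP1 := left_ne_zero_of_mul hP
  have hP2 := right_ne_zero_of_mul hP
  rw [hF1, map_prod] at hP1
  rw [pforms_cons (E := s + 2)]
  have e1 : ∀ i, w i + (s + 3) - 1 = w i + (s + 2) := fun i => by omega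
  have e2 : d + (s + 3) = d + (s + 2) + 1 := by omega
  simp only [e1, e2]
  refine ⟨fun hd => ?_, fun hd => ?_⟩
  · have hle1 : ∀ i, v i ≤ 1 := by
      intro i
      by_contra hcon
      push Not at hcon
      have h1 : 1 < v i ^ (s + 3) := one_lt_pow₀ hcon (by omega)
      have h2 : v i ^ (s + 3) ≤ ∑ i, v i ^ (s + 3) :=
        single_le_sum (f := fun i => v i ^ (s + 3)) (fun i _ => pow_nonneg (hvw.1 i) _)
          (mem_univ i)
      have h3 := hvw.2.1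
      linarith
    have hdB : d ∈ Finset.range (∑ i, w i + 1) := by
      rw [Finset.mem_range, Nat.lt_succ_iff]
      have h2 : ∑ i, v i ^ (s + 2) * (w i : ℝ) ≤ ∑ i, (w i : ℝ) := by
        refine sum_le_sum fun i _ => ?_
        have h3 : v i ^ (s + 2) ≤ 1 := pow_le_one₀ (hvw.1 i) (hle1 i)
        have h4 : (0 : ℝ) ≤ w i := Nat.cast_nonneg _
        nlinarith
      have h3 : (d : ℝ) ≤ ((∑ i, w i : ℕ) : ℝ) := by
        push_cast
        linarith
      exact_mod_cast h3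
    have h5 := vd_eq_bot (hA' d P (Finset.prod_ne_zero_iff.1 hP1 d hdB) ⟨v, hvw, hd⟩)
    refine ⟨h5, ?_⟩
    have h6 := H932R5.finrank_ge d w P
    rw [h5, finrank_bot] at h6
    exact h6
  · refine (hB' P hP2 d ⟨v, hvw, fun i => ?_⟩).finrank
    have h1 := hd i
    push_cast at h1 ⊢
    linarith

end Pool.Agent.L7h91.CUT
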