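import Pool.Agent.L7h91.TWS.Fin4

/-!
# Flattening of a simplex, slopes of arbitrary sign
-/

set_option autoImplicit false

namespace Pool.Agent.L7h91.CUT

open Finset MvPolynomial Pool.Agent.TH603.EL Pool.Agent.TH176.Nag Pool.Agent.TH3.IR

/-- the region is bounded -/
theorem reg_bound {σ : Type} [Fintype σ] {L R : ℝ} {μ ν : σ → ℝ} (hpos : ∀ i, 0 < μ i + ν i)
    (j : σ) (v : ℤ) : ∃ (u : ℤ) (d : ℕ), ∀ m : ℤ × (σ → ℤ),
      (m.1 - v * m.2 j - u, m.2) ∈ RegS L R μ ν → 0 ≤ m.1 ∧ 0 ≤ m.2 j ∧ m.1 + m.2 j ≤ d := by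
  obtain ⟨B, hB⟩ : ∃ B, B = |R - L| * ∑ i, (μ i + ν i)⁻¹ := ⟨_, rfl⟩
  have hB0 : 0 ≤ B := by
    rw [hB]
    exact mul_nonneg (abs_nonneg _) (sum_nonneg fun i _ => (inv_pos.2 (hpos i)).le)
  obtain ⟨A, hA⟩ : ∃ A, A = (∑ i, (|μ i| + |ν i|)) * B := ⟨_, rfl⟩
  obtain ⟨u, hu⟩ : ∃ u : ℤ, u = ⌈-L + A + |(v : ℝ)| * B⌉ := ⟨_, rfl⟩
  have hu1 : -L + A + |(v : ℝ)| * B ≤ u := by rw [hu]; exact Int.le_ceil _
  obtain ⟨d, hd⟩ : ∃ d : ℕ, d = ⌈R + A + |(v : ℝ)| * B + B + u⌉₊ := ⟨_, rfl⟩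
  have hd1 : R + A + |(v : ℝ)| * B + B + u ≤ d := by rw [hd]; exact Nat.le_ceil _
  refine ⟨u, d, ?_⟩
  rintro ⟨m, c⟩ ⟨h0, h1, h2⟩
  simp only at h0 h1 h2 ⊢
  have hc0 : ∀ i, (0 : ℝ) ≤ (c i : ℝ) := fun i => by exact_mod_cast h0 i
  have h3 : ∑ i, (μ i + ν i) * (c i : ℝ) ≤ R - L := by
    simp only [add_mul, sum_add_distrib]
    linarith
  have hcB : ∀ i, (c i : ℝ) ≤ B := by
    intro i
    have h4 : (μ i + ν i) * (c i : ℝ) ≤ ∑ i, (μ i + ν i) * (c i : ℝ) :=
      single_le_sum (f := fun i => (μ i + ν i) * (c i : ℝ))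
        (fun i _ => mul_nonneg (hpos i).le (hc0 i)) (mem_univ i)
    have h5 : (c i : ℝ) ≤ (R - L) * (μ i + ν i)⁻¹ := by
      rw [← div_eq_mul_inv, le_div_iff₀ (hpos i)]
      linarith
    refine h5.trans ?_
    rw [hB]
    have h6 : (μ i + ν i)⁻¹ ≤ ∑ i, (μ i + ν i)⁻¹ :=
      single_le_sum (f := fun i => (μ i + ν i)⁻¹) (fun i _ => (inv_pos.2 (hpos i)).le) (mem_univ i)
    calc (R - L) * (μ i + ν i)⁻¹ ≤ |R - L| * (μ i + ν i)⁻¹ :=
          mul_le_mul_of_nonneg_right (le_abs_self _) (inv_pos.2 (hpos i)).le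
      _ ≤ _ := mul_le_mul_of_nonneg_left h6 (abs_nonneg _)
  have hkap : ∀ κ : σ → ℝ, (∀ i, |κ i| ≤ |μ i| + |ν i|) → |∑ i, κ i * (c i : ℝ)| ≤ A := by
    intro κ hκ
    refine (abs_sum_le_sum_abs _ _).trans ?_
    rw [hA, sum_mul]
    refine sum_le_sum fun i _ => ?_
    rw [abs_mul, abs_of_nonneg (hc0 i)]
    exact mul_le_mul (hκ i) (hcB i) (hc0 i) (add_nonneg (abs_nonneg _) (abs_nonneg _))
  have hM := hkap μ fun i => le_add_of_nonneg_right (abs_nonneg _)
  have hN := hkap ν fun i => le_add_of_nonneg_left (abs_nonneg _)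
  rw [abs_le] at hM hN
  have hv : |(v : ℝ) * c j| ≤ |(v : ℝ)| * B := by
    rw [abs_mul, abs_of_nonneg (hc0 j)]
    exact mul_le_mul_of_nonneg_left (hcB j) (abs_nonneg _)
  rw [abs_le] at hv
  push_cast at h1 h2
  refine ⟨?_, h0 j, ?_⟩
  · have : (0 : ℝ) ≤ (m : ℝ) := by linarith
    exact_mod_cast this
  · have h6 := hcB j
    have : ((m : ℝ) + (c j : ℝ)) ≤ (d : ℝ) := by linarith
    exact_mod_cast this

/-- flattening -/
theorem EmpS_flatG {ι σ : Type} [Fintype σ] [DecidableEq σ] {w : ι → ℕ} {L R : ℝ} {μ ν : σ → ℝ}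
    (j : σ) (hpos : ∀ i, 0 < μ i + ν i) (v : ℤ) (hv : ν j ≤ v) (ha : 0 ≤ μ j + v)
    (h : EmpS w (RegS L ((R * (μ j + v) - L * (v - ν j)) / (μ j + ν j))
      (Function.update μ j (μ j + v))
      (Function.update (fun i => (ν i * (μ j + v) + μ i * (v - ν j)) / (μ j + ν j)) j
        ((μ j + v) * (v - ν j) / (μ j + ν j))))) :
    EmpS w (RegS L R μ ν) := by
  have hj := hpos j
  obtain ⟨u, d, hD'⟩ := reg_bound (L := L) (R := R) hpos j v
  set D : Set (ℤ × (σ → ℤ)) := {m | (m.1 - v * m.2 j - u, m.2) ∈ RegS L R μ ν} with hDdef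
  have hD : ∀ m ∈ D, 0 ≤ m.1 ∧ 0 ≤ m.2 j ∧ m.1 + m.2 j ≤ d := fun m hm => hD' m hm
  set New := RegS L ((R * (μ j + v) - L * (v - ν j)) / (μ j + ν j))
      (Function.update μ j (μ j + v))
      (Function.update (fun i => (ν i * (μ j + v) + μ i * (v - ν j)) / (μ j + ν j)) j
        ((μ j + v) * (v - ν j) / (μ j + ν j))) with hNew
  set D'' : Set (ℤ × (σ → ℤ)) := {m | (m.1 - u, m.2) ∈ New} with hD''def
  -- first change of coordinates
  have hS : EmpS w D → EmpS w (RegS L R μ ν) := by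
    intro hE
    refine hE.comap 1 (Or.inl rfl) (fun i => if i = j then v else 0) u ?_
    intro m hm
    have e : (1 * m.1 + ∑ i, (if i = j then v else 0) * m.2 i + u) - v * m.2 j - u = m.1 := by
      simp only [ite_mul, zero_mul, sum_ite_eq', mem_univ, if_true]
      ring
    change ((1 * m.1 + ∑ i, (if i = j then v else 0) * m.2 i + u) - v * m.2 j - u, m.2) ∈
      RegS L R μ ν
    rw [e]
    exact hm
  -- second change of coordinates
  have hS' : EmpS w D'' := by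
    refine h.comap 1 (Or.inl rfl) (fun _ => 0) (-u) ?_
    intro m hm
    have e : 1 * m.1 + ∑ i : σ, (fun _ => (0 : ℤ)) i * m.2 i + -u = m.1 - u := by
      simp only [zero_mul, sum_const_zero]
      ring
    rw [e]
    exact hm
  apply hS
  refine EmpS_step j hD ?_ hS'
  intro F _ _
  refine ⟨aff (tz F 0 1 0) (1 + tz F 1 0 1), fun x y hx hy l => evp_flat hx hy l, ?_⟩
  intro c f hf0 hf
  have hf' : ∀ m ∈ f.support, 0 ≤ m.1 ∧ 0 ≤ m.2 ∧ m.1 + m.2 ≤ d := by
    intro m hm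
    have := hD _ (hf m hm)
    simpa only [Function.update_self] using this
  refine Flat4.sl_mono (flat_lead hf0 hf') ?_
  rintro ⟨x, k⟩ ⟨hk0, b, b', hb, hb', hk⟩
  simp only at hk0 hb hb' hk
  have m1 := hf _ hb
  have m2 := hf _ hb'
  obtain ⟨p0, -, p2⟩ := m1
  obtain ⟨q0, q1, -⟩ := m2
  simp only [Function.update_self] at p0 p2 q0 q1
  push_cast at p2 q1
  rw [Flat4.sum1] at p2 q1
  have hb0 : 0 ≤ b := by simpa using p0 j
  have hkr : (k : ℝ) ≤ (b' : ℝ) - b := by exact_mod_cast hk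
  have hb0r : (0 : ℝ) ≤ b := by exact_mod_cast hb0
  have he : 0 ≤ (v : ℝ) - ν j := sub_nonneg.2 hv
  change (x - u, Function.update c j k) ∈ New
  refine ⟨?_, ?_, ?_⟩
  · intro i
    by_cases hi : i = j
    · subst hi
      simpa using hk0
    · have := p0 i
      rw [Function.update_of_ne hi] at this
      simp only
      rw [Function.update_of_ne hi]
      exact this
  · simp only
    rw [Flat4.sum2]
    push_cast
    have h5 : (μ j + v) * (k : ℝ) ≤ (μ j + v) * b' := mul_le_mul_of_nonneg_left (by linarith) ha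
    linarith
  · simp only
    rw [Flat4.sum2]
    push_cast
    have h6 : ∑ i ∈ univ.erase j, (ν i * (μ j + v) + μ i * (v - ν j)) / (μ j + ν j) * (c i : ℝ) =
        ((∑ i ∈ univ.erase j, ν i * (c i : ℝ)) * (μ j + v) +
          (∑ i ∈ univ.erase j, μ i * (c i : ℝ)) * (v - ν j)) / (μ j + ν j) := by
      rw [sum_mul, sum_mul, ← sum_add_distrib, sum_div]
      apply sum_congr rfl
      intro i _
      ring
    rw [h6]
    exact Flat4.ineq (y := (x : ℝ) - u) (b := b) (b' := b') hj ha he hkr (by linarith) (by linarith)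

open SFlat3 in
/-- flattening, rank version -/
theorem SurS_flatG {ι σ : Type} [Fintype ι] [Fintype σ] [DecidableEq σ] {w : ι → ℕ} {L R : ℝ}
    {μ ν : σ → ℝ} (hpos : ∀ i, 0 < μ i + ν i) (j : σ)
    (v : ℤ) (hv : ν j ≤ v) (hv0 : 0 < μ j + v)
    (h : SurS w (RegS (L + (μ j + v))
      ((R * (μ j + v) - L * (v - ν j) - (μ j + v) * (v - ν j)) / (μ j + ν j))
      (Function.update μ j (μ j + v))
      (Function.update (fun i => (ν i * (μ j + v) + μ i * (v - ν j)) / (μ j + ν j)) j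
        ((μ j + v) * (v - ν j) / (μ j + ν j))))) :
    SurS w (RegS L R μ ν) := by
  have hj : 0 < μ j + ν j := hpos j
  obtain ⟨u, d, hD0⟩ := reg_bound (L := L) (R := R) hpos j v
  set D : Set (ℤ × (σ → ℤ)) := {m | (m.1 - v * m.2 j - u, m.2) ∈ RegS L R μ ν} with hDdef
  have hD : ∀ m ∈ D, 0 ≤ m.1 ∧ 0 ≤ m.2 j ∧ m.1 + m.2 j ≤ d := fun m hm => hD0 m hm
  set New := RegS (L + (μ j + v))
      ((R * (μ j + v) - L * (v - ν j) - (μ j + v) * (v - ν j)) / (μ j + ν j))
      (Function.update μ j (μ j + v))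
      (Function.update (fun i => (ν i * (μ j + v) + μ i * (v - ν j)) / (μ j + ν j)) j
        ((μ j + v) * (v - ν j) / (μ j + ν j))) with hNew
  set D' : Set (ℤ × (σ → ℤ)) := {m | (m.1 - u, m.2) ∈ New} with hD'def
  -- first change of coordinates
  have hS : SurS w D → SurS w (RegS L R μ ν) := by
    intro hE
    refine hE.comap 1 (Or.inl rfl) (fun i => if i = j then v else 0) u ?_
    intro m hm
    have e : 1 * (m.1 - ∑ i, (if i = j then v else 0) * m.2 i - u) = m.1 - v * m.2 j - u := by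
      simp only [ite_mul, zero_mul, sum_ite_eq', mem_univ, if_true]
      ring
    rw [e]
    exact hm
  -- second change of coordinates
  have hS' : SurS w D' := by
    refine h.comap 1 (Or.inl rfl) (fun _ => 0) (-u) ?_
    intro m hm
    have e : 1 * (m.1 - ∑ i : σ, (fun _ => (0 : ℤ)) i * m.2 i - -u) = m.1 + u := by
      simp only [zero_mul, sum_const_zero]
      ring
    rw [e]
    change (m.1 + u - u, m.2) ∈ New
    rw [add_sub_cancel_right]
    exact hm
  apply hS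
  refine SurS_step j hD ?_ hS'
  intro F _ _
  refine ⟨aff (tz F 0 1 0) (1 + tz F 1 0 1), fun x y hx hy l => evp_flat' hx hy l, ?_⟩
  rintro c x k ⟨h0, h1, h2⟩
  simp only at h0 h1 h2
  have hk0 : 0 ≤ k := by simpa using h0 j
  obtain ⟨k, rfl⟩ := Int.eq_ofNat_of_zero_le hk0
  rw [sum2] at h1 h2
  push_cast at h1 h2
  have h6 : ∑ i ∈ univ.erase j, (ν i * (μ j + v) + μ i * (v - ν j)) / (μ j + ν j) * (c i : ℝ) =
      ((∑ i ∈ univ.erase j, ν i * (c i : ℝ)) * (μ j + v) +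
        (∑ i ∈ univ.erase j, μ i * (c i : ℝ)) * (v - ν j)) / (μ j + ν j) := by
    rw [sum_mul, sum_mul, ← sum_add_distrib, sum_div]
    apply sum_congr rfl
    intro i _
    ring
  rw [h6] at h2
  obtain ⟨b, hb0, hb1, hb2⟩ := exists_b hj hv0 (sub_nonneg.2 hv) h1 h2
  have hci : ∀ i, i ≠ j → 0 ≤ c i := by
    intro i hi
    have := h0 i
    rwa [Function.update_of_ne hi] at this
  -- points of the column
  have hcol : ∀ t : ℤ, b ≤ t → t ≤ b + k → (x, Function.update c j t) ∈ D := by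
    intro t ht1 ht2
    have ht1r : (b : ℝ) ≤ t := by exact_mod_cast ht1
    have ht2r : (t : ℝ) ≤ b + k := by exact_mod_cast ht2
    refine ⟨?_, ?_, ?_⟩
    · intro i
      by_cases hi : i = j
      · subst hi
        simp only [Function.update_self]
        omega
      · simp only
        rw [Function.update_of_ne hi]
        exact hci i hi
    · simp only [Function.update_self]
      rw [sum1]
      push_cast
      have h5 : (μ j + v) * (t : ℝ) ≤ (μ j + v) * (b + k) :=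
        mul_le_mul_of_nonneg_left ht2r hv0.le
      nlinarith
    · simp only [Function.update_self]
      rw [sum1]
      push_cast
      have h5 : (v - ν j) * (b : ℝ) ≤ (v - ν j) * t :=
        mul_le_mul_of_nonneg_left ht1r (sub_nonneg.2 hv)
      nlinarith
  have hx1 := hD _ (hcol (b + k) (by omega) le_rfl)
  simp only [Function.update_self] at hx1
  obtain ⟨f, hf1, hf2⟩ := flat_lift (F := F) (d := d) (i := x) (b := b) (k := k) hx1.1 hb0
    (by omega)
  refine ⟨f, ?_, hf2⟩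
  intro m hm
  obtain ⟨g1, g2, g3⟩ := hf1 m hm
  rw [g1]
  exact hcol m.2 g2 g3

end Pool.Agent.L7h91.CUT
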