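import Pool.Agent.L7h91.CUT.PieceA

/-!
# Flattening the whole simplex by an integral factor in all directions
-/

set_option autoImplicit false

namespace Pool.Agent.L7h91.CUT

open Finset Pool.Agent.TH603.EL Pool.Agent.TH3.IR Pool.Agent.L7h91.IR Pool.Agent.L7h91.TW

/-- the slopes when the directions in `T` are done -/
noncomputable def lv {σ : Type} [DecidableEq σ] (a : ℕ) (T : Finset σ) (i : σ) : ℝ :=
  if i ∈ T then (a : ℝ) ^ (T.card + 1) else (a : ℝ) ^ T.card

theorem lv_pos {σ : Type} [DecidableEq σ] {a : ℕ} (ha : 1 ≤ a) (T : Finset σ) (i : σ) :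
    0 < lv a T i := by
  have : (0 : ℝ) < a := by exact_mod_cast ha
  unfold lv
  split_ifs <;> positivity

theorem lv_insert {σ : Type} [DecidableEq σ] (a : ℕ) {j : σ} {T : Finset σ} (hj : j ∉ T)
    {i : σ} (hi : i ≠ j) : lv a (insert j T) i = a * lv a T i := by
  have hc : (insert j T).card = T.card + 1 := Finset.card_insert_of_notMem hj
  unfold lv
  rw [hc]
  by_cases hiT : i ∈ T
  · rw [if_pos hiT, if_pos (Finset.mem_insert_of_mem hiT)]
    ring
  · have hiT' : i ∉ insert j T := by rw [Finset.mem_insert]; tauto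
    rw [if_neg hiT, if_neg hiT']
    ring

theorem sum_ite1 {σ : Type} [Fintype σ] [DecidableEq σ] (u : ℤ) (j : σ) (y : σ → ℤ) :
    ∑ i, (if i = j then u else 0) * y i = u * y j := by
  simp only [ite_mul, zero_mul, sum_ite_eq', mem_univ, if_true]

theorem sumUp {σ : Type} [Fintype σ] [DecidableEq σ] (f : σ → ℝ) (b : ℝ) (j : σ) (y : σ → ℤ) :
    ∑ i, Function.update f j b i * (y i : ℝ) =
      b * y j + ∑ i ∈ univ.erase j, f i * (y i : ℝ) := by
  rw [← add_sum_erase univ _ (mem_univ j), Function.update_self]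
  congr 1
  refine sum_congr rfl fun i hi => ?_
  rw [Function.update_of_ne (ne_of_mem_erase hi)]

/-- one direction, emptiness -/
theorem EmpS_lev1 {ι σ : Type} [Fintype σ] [DecidableEq σ] {w : ι → ℕ} {a : ℕ} (ha : 1 ≤ a)
    (T : Finset σ) {j : σ} (hj : j ∉ T) (W : ℝ)
    (h : EmpS w (RegS 0 (a * W) (fun _ : σ => 0) (lv a (insert j T)))) :
    EmpS w (RegS 0 W (fun _ : σ => 0) (lv a T)) := by
  have ha0 : (0 : ℝ) < a := by exact_mod_cast ha
  have ha1 : (1 : ℝ) ≤ a := by exact_mod_cast ha
  obtain ⟨t, ht⟩ : ∃ t : ℝ, t = (a : ℝ) ^ T.card := ⟨_, rfl⟩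
  have ht0 : 0 < t := by rw [ht]; positivity
  have hlj : lv a T j = t := by
    unfold lv
    rw [if_neg hj, ht]
  have hc : (insert j T).card = T.card + 1 := Finset.card_insert_of_notMem hj
  have hlj' : lv a (insert j T) j = a ^ 2 * t := by
    unfold lv
    rw [if_pos (mem_insert_self j T), hc, ht]
    ring
  refine EmpS_flatG j (fun i => by rw [zero_add]; exact lv_pos ha T i)
    ((a : ℤ) ^ (T.card + 1)) ?_ ?_ ?_
  · rw [hlj, ht]
    push_cast
    exact pow_le_pow_right₀ ha1 (by omega)
  · push_cast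
    positivity
  have ev : (((a : ℤ) ^ (T.card + 1) : ℤ) : ℝ) = a * t := by
    push_cast
    rw [ht]
    ring
  rw [ev]
  simp only [hlj, zero_add, zero_mul, sub_zero, add_zero]
  have eR : W * (a * t) / t = a * W := by field_simp
  rw [eR]
  refine h.comap 1 (Or.inl rfl) (fun i => if i = j then -(a : ℤ) ^ (T.card + 1) else 0) 0 ?_
  rintro ⟨x, y⟩ ⟨k1, k2, k3⟩
  simp only at k1 k2 k3
  rw [sumUp] at k2 k3
  simp only [zero_mul, sum_const_zero, add_zero, zero_add] at k2 k3
  have e6 : ((1 * x + ∑ i, (if i = j then -(a : ℤ) ^ (T.card + 1) else 0) * y i + 0 : ℤ) : ℝ) =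
      x - a * t * y j := by
    rw [sum_ite1]
    push_cast
    rw [← ev]
    push_cast
    ring
  refine ⟨k1, ?_, ?_⟩
  · simp only
    rw [e6]
    simp only [zero_mul, sum_const_zero, add_zero]
    linarith
  · simp only
    rw [e6, ← add_sum_erase univ _ (mem_univ j), hlj']
    have e7 : ∑ i ∈ univ.erase j, lv a (insert j T) i * (y i : ℝ) =
        ∑ i ∈ univ.erase j, lv a T i * (a * t) / t * (y i : ℝ) := by
      refine sum_congr rfl fun i hi => ?_
      rw [lv_insert a hj (ne_of_mem_erase hi)]
      field_simp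
    have e8 : a * t * (a * t - t) / t = a ^ 2 * t - a * t := by
      field_simp
    rw [e7]
    rw [e8] at k3
    linarith

/-- one direction, independence -/
theorem SurS_lev1 {ι σ : Type} [Fintype ι] [Fintype σ] [DecidableEq σ] {w : ι → ℕ} {a : ℕ}
    (ha : 1 ≤ a) (T : Finset σ) {j : σ} (hj : j ∉ T) (W : ℝ)
    (h : SurS w (RegS 0 (a * (W - a ^ (T.card + 1))) (fun _ : σ => 0) (lv a (insert j T)))) :
    SurS w (RegS 0 W (fun _ : σ => 0) (lv a T)) := by
  have ha0 : (0 : ℝ) < a := by exact_mod_cast ha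
  have ha1 : (1 : ℝ) ≤ a := by exact_mod_cast ha
  obtain ⟨t, ht⟩ : ∃ t : ℝ, t = (a : ℝ) ^ T.card := ⟨_, rfl⟩
  have ht0 : 0 < t := by rw [ht]; positivity
  have hlj : lv a T j = t := by
    unfold lv
    rw [if_neg hj, ht]
  have hc : (insert j T).card = T.card + 1 := Finset.card_insert_of_notMem hj
  have hlj' : lv a (insert j T) j = a ^ 2 * t := by
    unfold lv
    rw [if_pos (mem_insert_self j T), hc, ht]
    ring
  have eat : (a : ℝ) ^ (T.card + 1) = a * t := by
    rw [ht]
    ring
  rw [eat] at h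
  refine SurS_flatG (fun i => by rw [zero_add]; exact lv_pos ha T i) j
    ((a : ℤ) ^ (T.card + 1)) ?_ ?_ ?_
  · rw [hlj, ht]
    push_cast
    exact pow_le_pow_right₀ ha1 (by omega)
  · push_cast
    positivity
  have ev : (((a : ℤ) ^ (T.card + 1) : ℤ) : ℝ) = a * t := by
    push_cast
    exact eat
  rw [ev]
  simp only [hlj, zero_add, zero_mul, sub_zero, add_zero]
  have eR : (W * (a * t) - a * t * (a * t - t)) / t = a * (W - a * t) + a * t := by
    field_simp
    ring
  rw [eR]
  refine h.comap 1 (Or.inl rfl) (fun i => if i = j then -(a : ℤ) ^ (T.card + 1) else 0)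
    (-(a : ℤ) ^ (T.card + 1)) ?_
  rintro ⟨x, y⟩ ⟨k1, k2, k3⟩
  simp only at k1 k2 k3
  rw [← add_sum_erase univ _ (mem_univ j), hlj'] at k3
  simp only [zero_mul, sum_const_zero, add_zero] at k2
  have e6 : ((1 * (x - ∑ i, (if i = j then -(a : ℤ) ^ (T.card + 1) else 0) * y i -
      -(a : ℤ) ^ (T.card + 1)) : ℤ) : ℝ) = x + a * t * y j + a * t := by
    rw [sum_ite1]
    push_cast
    rw [eat]
    ring
  refine ⟨k1, ?_, ?_⟩
  · simp only
    rw [e6, sumUp]
    simp only [zero_mul, sum_const_zero, add_zero]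
    linarith
  · simp only
    rw [e6, sumUp]
    have e7 : ∑ i ∈ univ.erase j, lv a (insert j T) i * (y i : ℝ) =
        ∑ i ∈ univ.erase j, lv a T i * (a * t) / t * (y i : ℝ) := by
      refine sum_congr rfl fun i hi => ?_
      rw [lv_insert a hj (ne_of_mem_erase hi)]
      field_simp
    have e8 : a * t * (a * t - t) / t = a ^ 2 * t - a * t := by
      field_simp
    rw [e7] at k3
    rw [e8]
    linarith

/-- emptiness, all directions -/
theorem EmpS_lev {ι σ : Type} [Fintype σ] {w : ι → ℕ} {a : ℕ} (ha : 1 ≤ a)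
    (d : ℝ) (h : EmpS w (RegS 0 (a ^ Fintype.card σ * d) (fun _ : σ => 0)
      (fun _ => (a : ℝ) ^ (Fintype.card σ + 1)))) :
    EmpS w (RegS 0 d (fun _ : σ => 0) (fun _ => 1)) := by
  classical
  have key : ∀ (c : ℕ) (T : Finset σ), T.card + c = Fintype.card σ →
      EmpS w (RegS 0 (a ^ T.card * d) (fun _ : σ => 0) (lv a T)) := by
    intro c
    induction c with
    | zero =>
      intro T hT
      have hT' : T.card = Fintype.card σ := by omega
      have hTu : T = univ := Finset.card_eq_iff_eq_univ T |>.1 hT'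
      have e1 : lv a T = fun _ => (a : ℝ) ^ (Fintype.card σ + 1) := by
        funext i
        unfold lv
        rw [if_pos (by rw [hTu]; exact mem_univ i), hT']
      rw [e1, hT']
      exact h
    | succ c ih =>
      intro T hT
      obtain ⟨j, hj⟩ : ∃ j, j ∉ T := by
        by_contra hcon
        push Not at hcon
        have h1 : T = univ := Finset.eq_univ_iff_forall.2 hcon
        rw [h1, Finset.card_univ] at hT
        omega
      have hc : (insert j T).card = T.card + 1 := Finset.card_insert_of_notMem hj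
      apply EmpS_lev1 ha T hj
      have h1 := ih (insert j T) (by omega)
      rw [hc, pow_succ] at h1
      have e1 : (a : ℝ) * (a ^ T.card * d) = a ^ T.card * a * d := by ring
      rw [e1]
      exact h1
  have h1 := key (Fintype.card σ) ∅ (by simp)
  rw [Finset.card_empty, pow_zero, one_mul] at h1
  have e1 : lv a (∅ : Finset σ) = fun _ => (1 : ℝ) := by
    funext i
    unfold lv
    rw [if_neg (by simp), Finset.card_empty, pow_zero]
  rw [e1] at h1
  exact h1

/-- independence, all directions -/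
theorem SurS_lev {ι σ : Type} [Fintype ι] [Fintype σ] {w : ι → ℕ} {a : ℕ} (ha : 1 ≤ a)
    (d : ℝ) (h : SurS w (RegS 0 (a ^ Fintype.card σ * (d - Fintype.card σ * a))
      (fun _ : σ => 0) (fun _ => (a : ℝ) ^ (Fintype.card σ + 1)))) :
    SurS w (RegS 0 d (fun _ : σ => 0) (fun _ => 1)) := by
  classical
  have key : ∀ (c : ℕ) (T : Finset σ), T.card + c = Fintype.card σ →
      SurS w (RegS 0 (a ^ T.card * (d - T.card * a)) (fun _ : σ => 0) (lv a T)) := by
    intro c
    induction c with
    | zero =>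
      intro T hT
      have hT' : T.card = Fintype.card σ := by omega
      have hTu : T = univ := Finset.card_eq_iff_eq_univ T |>.1 hT'
      have e1 : lv a T = fun _ => (a : ℝ) ^ (Fintype.card σ + 1) := by
        funext i
        unfold lv
        rw [if_pos (by rw [hTu]; exact mem_univ i), hT']
      rw [e1, hT']
      exact h
    | succ c ih =>
      intro T hT
      obtain ⟨j, hj⟩ : ∃ j, j ∉ T := by
        by_contra hcon
        push Not at hcon
        have h1 : T = univ := Finset.eq_univ_iff_forall.2 hcon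
        rw [h1, Finset.card_univ] at hT
        omega
      have hc : (insert j T).card = T.card + 1 := Finset.card_insert_of_notMem hj
      apply SurS_lev1 ha T hj
      have h1 := ih (insert j T) (by omega)
      rw [hc] at h1
      have e1 : (a : ℝ) * (a ^ T.card * (d - T.card * a) - a ^ (T.card + 1)) =
          a ^ (T.card + 1) * (d - ((T.card + 1 : ℕ) : ℝ) * a) := by
        push_cast
        ring
      rw [e1]
      exact h1
  have h1 := key (Fintype.card σ) ∅ (by simp)
  rw [Finset.card_empty, pow_zero, one_mul, Nat.cast_zero, zero_mul, sub_zero] at h1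
  have e1 : lv a (∅ : Finset σ) = fun _ => (1 : ℝ) := by
    funext i
    unfold lv
    rw [if_neg (by simp), Finset.card_empty, pow_zero]
  rw [e1] at h1
  exact h1

end Pool.Agent.L7h91.CUT
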