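import Pool.Agent.L7h91.CUT.RunS

/-!
# The pieces
-/

set_option autoImplicit false

namespace Pool.Agent.L7h91.CUT

open Finset Pool.Agent.TH603.EL Pool.Agent.TH3.IR Pool.Agent.L7h91.IR Pool.Agent.L7h91.TW

theorem sumU {σ : Type} [Fintype σ] [DecidableEq σ] (κ b : ℝ) (l : σ) (c : σ → ℤ) :
    ∑ i, Function.update (fun _ : σ => κ) l b i * (c i : ℝ) =
      b * c l + κ * ∑ i ∈ univ.erase l, (c i : ℝ) := by
  rw [← add_sum_erase univ _ (mem_univ l), Function.update_self, mul_sum]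
  congr 1
  refine sum_congr rfl fun i hi => ?_
  rw [Function.update_of_ne (ne_of_mem_erase hi)]

theorem sumI {σ : Type} [Fintype σ] [DecidableEq σ] (l : σ) (c : σ → ℤ) :
    ((∑ i, (if i = l then (0 : ℤ) else -2) * c i : ℤ) : ℝ) =
      -2 * ∑ i ∈ univ.erase l, (c i : ℝ) := by
  rw [← add_sum_erase univ _ (mem_univ l), if_pos rfl, mul_sum]
  push_cast
  rw [zero_mul, zero_add]
  refine sum_congr rfl fun i hi => ?_
  rw [if_neg (ne_of_mem_erase hi)]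

/-- the numbers of a piece -/
theorem piece_num {γ θ Λ : ℝ} {n : ℕ} (hγ0 : 0 ≤ γ) (hγ : γ ≤ 1 / 2) (hθ : 0 < θ)
    (hγθ : γ + θ ≤ 1) (hΛ0 : 0 < Λ) (hΛ : 2 + θ / (4 * Λ ^ n) < θ * Λ) :
    3 / 2 ≤ 2 - γ ∧ 2 - γ ≤ (2 - γ) ^ 2 / θ ∧ 2 < Λ ∧
      1 + 1 / (2 * ((2 - γ) ^ 2 / θ) * Λ ^ n) < θ * Λ / (2 - γ) := by
  have hb : 3 / 2 ≤ 2 - γ := by linarith
  have hθ1 : θ ≤ 1 := by linarith
  have h0 : 0 < θ / (4 * Λ ^ n) := by positivity
  have hΛ2 : 2 < Λ := by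
    by_contra hcon
    push Not at hcon
    nlinarith
  refine ⟨hb, ?_, hΛ2, ?_⟩
  · rw [le_div_iff₀ hθ]
    nlinarith
  · obtain ⟨b, hbd⟩ : ∃ b, b = 2 - γ := ⟨_, rfl⟩
    rw [← hbd] at hb ⊢
    have hb2 : b ≤ 2 := by linarith
    have hb0 : 0 < b := by linarith
    obtain ⟨c, hc⟩ : ∃ c, c = θ / Λ ^ n := ⟨_, rfl⟩
    have hc0 : 0 < c := by rw [hc]; positivity
    have hc1 : c ≤ 1 := by
      rw [hc, div_le_one (by positivity)]
      have := one_le_pow₀ (by linarith : 1 ≤ Λ) (n := n)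
      linarith
    have e1 : 1 / (2 * (b ^ 2 / θ) * Λ ^ n) = c / (2 * b ^ 2) := by
      rw [hc]
      field_simp
    have e2 : θ / (4 * Λ ^ n) = c / 4 := by
      rw [hc]
      field_simp
    rw [e2] at hΛ
    rw [e1, lt_div_iff₀ hb0]
    have e3 : (1 + c / (2 * b ^ 2)) * b = b + c / (2 * b) := by
      field_simp
    rw [e3]
    refine lt_of_le_of_lt ?_ hΛ
    have h1 : c / (2 * b) ≤ 2 - b + c / 4 := by
      rw [div_le_iff₀ (by positivity)]
      nlinarith [mul_nonneg (by linarith : 0 ≤ 2 - b) (by linarith : 0 ≤ 4 * b - c)]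
    linarith

theorem flat_eq {γ θ : ℝ} (hθ : 0 < θ) :
    ((γ + θ) * (-γ + 2) + -γ * (2 - (γ + θ))) / θ = 2 := by
  rw [div_eq_iff hθ.ne']
  ring

/-- emptiness for a piece, `γ ≤ 1 / 2` -/
theorem EmpS_piece0 {ι σ : Type} [Fintype ι] [Fintype σ] (hσ : 2 ≤ Fintype.card σ)
    {w : ι → ℕ} {γ θ Λ L R : ℝ} (hγ0 : 0 ≤ γ) (hγ : γ ≤ 1 / 2) (hθ : 0 < θ) (hγθ : γ + θ ≤ 1)
    (hΛ0 : 0 < Λ) (hΛ : 2 + θ / (4 * Λ ^ (Fintype.card σ - 2)) < θ * Λ) (hk : (Fintype.card ι : ℝ) ≤ θ * Λ ^ (Fintype.card σ + 1))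
    (hLR : 0 ≤ R - L) (hw : Λ ^ Fintype.card σ * (R - L) < ∑ i, (w i : ℝ)) :
    EmpS w (RegS L R (fun _ : σ => -γ) (fun _ => γ + θ)) := by
  classical
  have : Nonempty σ := by
    rw [← Fintype.card_pos_iff]
    omega
  obtain ⟨l⟩ := this
  obtain ⟨n1, n2, n3, n4⟩ := piece_num hγ0 hγ hθ hγθ hΛ0 hΛ
  have hsum : -γ + (γ + θ) = θ := by ring
  have hb0 : 0 < 2 - γ := by linarith
  refine EmpS_flatG l (fun _ => by rw [hsum]; exact hθ) 2 (by push_cast; linarith)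
    (by push_cast; linarith) ?_
  push_cast
  simp only [hsum, flat_eq hθ]
  obtain ⟨R1, hR1⟩ : ∃ R1, R1 = (R * (-γ + 2) - L * (2 - (γ + θ))) / θ := ⟨_, rfl⟩
  obtain ⟨b, hb⟩ : ∃ b, b = 2 - γ := ⟨_, rfl⟩
  obtain ⟨a, ha⟩ : ∃ a, a = b ^ 2 / θ := ⟨_, rfl⟩
  have e1 : -γ + 2 = b := by rw [hb]; ring
  have e2 : b * (2 - (γ + θ)) / θ = a - b := by
    rw [ha, hb]
    field_simp
    ring
  rw [← hR1, e1, e2]
  rw [← hb] at n1 n2 n4 hb0
  rw [← ha] at n2 n4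
  have ha0 : 0 < a := by rw [ha]; positivity
  have hab0 : 0 ≤ a - b := by linarith
  have hWW : -L - -R1 = b * (R - L) / θ := by
    rw [hR1, hb]
    field_simp
    ring
  -- reflection
  have h1 : EmpS w (RegS (-R1) (-L) (Function.update (fun _ : σ => (0 : ℝ)) l (a - b))
      (fun _ => b)) := by
    refine EmpS_run hσ (a := a) (b := b) (Λ := Λ) n1 n2 n3 ?_ ?_ l ?_ ?_ ?_ ?_ ?_ ?_
    · have e3 : Λ * b / a = θ * Λ / b := by
        rw [ha]
        field_simp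
      rw [e3]
      exact n4.le
    · have e3 : b ^ 2 / a = θ := by
        rw [ha]
        field_simp
      rw [e3]
      exact hk
    · rw [hWW]
      positivity
    · rw [hWW]
      refine lt_of_le_of_lt (le_of_eq ?_) hw
      rw [ha]
      field_simp
    · intro i
      by_cases hi : i = l
      · subst hi
        rw [Function.update_self]
        exact hab0
      · rw [Function.update_of_ne hi]
    · intro i
      exact hb0.le
    · intro i
      unfold sg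
      rw [Finset.card_empty]
      by_cases hi : i = l
      · subst hi
        rw [Function.update_self, if_pos rfl]
        ring
      · rw [Function.update_of_ne hi, if_neg hi, if_neg (by simp)]
        ring
    · intro i _
      exact n1
  refine h1.comap (-1) (Or.inr rfl) (fun i => if i = l then 0 else -2) 0 ?_
  rintro ⟨x, y⟩ ⟨k1, k2, k3⟩
  simp only at k1 k2 k3
  have hsb : ∑ i, b * (y i : ℝ) = b * y l + b * ∑ i ∈ univ.erase l, (y i : ℝ) := by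
    rw [← add_sum_erase univ _ (mem_univ l), mul_sum]
  rw [sumU] at k2 k3
  refine ⟨k1, ?_, ?_⟩
  · simp only
    rw [sumU, Int.cast_add, Int.cast_add, sumI]
    push_cast
    linarith
  · simp only
    rw [hsb, Int.cast_add, Int.cast_add, sumI]
    push_cast
    have e3 : b * ∑ i ∈ univ.erase l, (y i : ℝ) = 2 * ∑ i ∈ univ.erase l, (y i : ℝ) -
        γ * ∑ i ∈ univ.erase l, (y i : ℝ) := by
      rw [hb]
      ring
    linarith

/-- independence for a piece, `γ ≤ 1 / 2` -/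
theorem SurS_piece0 {ι σ : Type} [Fintype ι] [Fintype σ] (hσ : 2 ≤ Fintype.card σ)
    (m : ℕ) {γ θ Λ L R : ℝ} (hγ0 : 0 ≤ γ) (hγ : γ ≤ 1 / 2) (hθ : 0 < θ) (hγθ : γ + θ ≤ 1)
    (hΛ0 : 0 < Λ) (hΛ : 2 + θ / (4 * Λ ^ (Fintype.card σ - 2)) < θ * Λ) (hk : θ * Λ ^ (Fintype.card σ + 1) = (Fintype.card ι : ℝ))
    (hw : θ * (Λ * (m + Fintype.card σ + 1) + Fintype.card σ) ≤ R - L + θ / 3) :
    SurS (fun _ : ι => m) (RegS L R (fun _ : σ => -γ) (fun _ => γ + θ)) := by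
  classical
  have : Nonempty σ := by
    rw [← Fintype.card_pos_iff]
    omega
  obtain ⟨l⟩ := this
  obtain ⟨n1, n2, n3, n4⟩ := piece_num hγ0 hγ hθ hγθ hΛ0 hΛ
  have hsum : -γ + (γ + θ) = θ := by ring
  have hb0 : 0 < 2 - γ := by linarith
  refine SurS_flatG (fun _ => by rw [hsum]; exact hθ) l 2 (by push_cast; linarith)
    (by push_cast; linarith) ?_
  push_cast
  simp only [hsum, flat_eq hθ]
  obtain ⟨b, hb⟩ : ∃ b, b = 2 - γ := ⟨_, rfl⟩
  obtain ⟨a, ha⟩ : ∃ a, a = b ^ 2 / θ := ⟨_, rfl⟩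
  have e1 : -γ + 2 = b := by rw [hb]; ring
  have e2 : b * (2 - (γ + θ)) / θ = a - b := by
    rw [ha, hb]
    field_simp
    ring
  rw [e1, e2]
  obtain ⟨R1, hR1⟩ : ∃ R1, R1 = (R * b - L * (2 - (γ + θ)) - b * (2 - (γ + θ))) / θ := ⟨_, rfl⟩
  rw [← hR1]
  rw [← hb] at n1 n2 n4 hb0
  rw [← ha] at n2 n4
  have ha0 : 0 < a := by rw [ha]; positivity
  have hab0 : 0 ≤ a - b := by linarith
  have hWW : -(L + b) - -R1 = b * (R - L - b) / θ := by
    rw [hR1, hb]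
    field_simp
    ring
  -- reflection
  have h1 : SurS (fun _ : ι => m) (RegS (-R1) (-(L + b))
      (Function.update (fun _ : σ => (0 : ℝ)) l (a - b)) (fun _ => b)) := by
    refine SurS_run hσ m (a := a) (b := b) (Λ := Λ) n1 n2 n3 ?_ ?_ l ?_ ?_ ?_ ?_ ?_
    · have e3 : Λ * b / a = θ * Λ / b := by
        rw [ha]
        field_simp
      rw [e3]
      exact n4
    · have e3 : b ^ 2 / a = θ := by
        rw [ha]
        field_simp
      rw [e3]
      exact hk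
    · rw [hWW, le_div_iff₀ hθ]
      have h2 : θ ≤ 2 / 3 * b * θ := by nlinarith
      have h3 : b * (θ * (Λ * (m + Fintype.card σ + 1) + Fintype.card σ)) ≤
          b * (R - L + θ / 3) := mul_le_mul_of_nonneg_left hw hb0.le
      have h7 : 2 ≤ θ * Λ := by
        have : 0 < θ / (4 * Λ ^ (Fintype.card σ - 2)) := by positivity
        linarith
      have h4 : b * 2 ≤ b * (θ * Λ) := mul_le_mul_of_nonneg_left h7 hb0.le
      have h5 : b ≤ 2 := by rw [hb]; linarith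
      have h6 : b * b ≤ b * 2 := mul_le_mul_of_nonneg_left h5 hb0.le
      nlinarith
    · intro i
      by_cases hi : i = l
      · subst hi
        rw [Function.update_self]
        exact hab0
      · rw [Function.update_of_ne hi]
    · intro i
      exact hb0.le
    · intro i
      unfold sg
      rw [Finset.card_empty]
      by_cases hi : i = l
      · subst hi
        rw [Function.update_self, if_pos rfl]
        ring
      · rw [Function.update_of_ne hi, if_neg hi, if_neg (by simp)]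
        ring
    · intro i _
      exact n1
  refine h1.comap (-1) (Or.inr rfl) (fun i => if i = l then 0 else -2) 0 ?_
  rintro ⟨x, y⟩ ⟨k1, k2, k3⟩
  simp only at k1 k2 k3
  have hsb : ∑ i, b * (y i : ℝ) = b * y l + b * ∑ i ∈ univ.erase l, (y i : ℝ) := by
    rw [← add_sum_erase univ _ (mem_univ l), mul_sum]
  rw [sumU] at k2
  rw [hsb] at k3
  have e3 : b * ∑ i ∈ univ.erase l, (y i : ℝ) = 2 * ∑ i ∈ univ.erase l, (y i : ℝ) -
      γ * ∑ i ∈ univ.erase l, (y i : ℝ) := by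
    rw [hb]
    ring
  refine ⟨k1, ?_, ?_⟩
  · simp only
    rw [sumU, Int.cast_mul, Int.cast_sub, Int.cast_sub, sumI]
    push_cast
    linarith
  · simp only
    rw [sumU, Int.cast_mul, Int.cast_sub, Int.cast_sub, sumI]
    push_cast
    linarith

/-- emptiness for a piece -/
theorem EmpS_piece {ι σ : Type} [Fintype ι] [Fintype σ] (hσ : 2 ≤ Fintype.card σ)
    {w : ι → ℕ} {γ θ Λ L R : ℝ} (hγ0 : 0 ≤ γ) (hθ : 0 < θ) (hγθ : γ + θ ≤ 1)
    (hΛ0 : 0 < Λ) (hΛ : 2 + θ / (4 * Λ ^ (Fintype.card σ - 2)) < θ * Λ) (hk : (Fintype.card ι : ℝ) ≤ θ * Λ ^ (Fintype.card σ + 1))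
    (hLR : 0 ≤ R - L) (hw : Λ ^ Fintype.card σ * (R - L) < ∑ i, (w i : ℝ)) :
    EmpS w (RegS L R (fun _ : σ => -γ) (fun _ => γ + θ)) := by
  by_cases hγ : γ ≤ 1 / 2
  · exact EmpS_piece0 hσ hγ0 hγ hθ hγθ hΛ0 hΛ hk hLR hw
  push Not at hγ
  have h1 := EmpS_piece0 (ι := ι) (σ := σ) hσ (w := w) (γ := 1 - γ - θ) (θ := θ) (Λ := Λ)
    (L := -R) (R := -L) (by linarith) (by linarith) hθ (by linarith) hΛ0 hΛ hk (by linarith)
    (by rw [show -L - -R = R - L by ring]; exact hw)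
  refine h1.comap (-1) (Or.inr rfl) (fun _ => -1) 0 ?_
  rintro ⟨x, y⟩ ⟨k1, k2, k3⟩
  simp only [← mul_sum] at k1 k2 k3
  have e1 : ((∑ i, (-1 : ℤ) * y i : ℤ) : ℝ) = -∑ i, (y i : ℝ) := by
    rw [← mul_sum]
    push_cast
    ring
  refine ⟨k1, ?_, ?_⟩
  · simp only
    rw [Int.cast_add, Int.cast_add, e1, ← mul_sum]
    push_cast
    linarith
  · simp only
    rw [Int.cast_add, Int.cast_add, e1, ← mul_sum]
    push_cast
    linarith

/-- independence for a piece -/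
theorem SurS_piece {ι σ : Type} [Fintype ι] [Fintype σ] (hσ : 2 ≤ Fintype.card σ)
    (m : ℕ) {γ θ Λ L R : ℝ} (hγ0 : 0 ≤ γ) (hθ : 0 < θ) (hγθ : γ + θ ≤ 1)
    (hΛ0 : 0 < Λ) (hΛ : 2 + θ / (4 * Λ ^ (Fintype.card σ - 2)) < θ * Λ) (hk : θ * Λ ^ (Fintype.card σ + 1) = (Fintype.card ι : ℝ))
    (hw : θ * (Λ * (m + Fintype.card σ + 1) + Fintype.card σ) ≤ R - L + θ / 3) :
    SurS (fun _ : ι => m) (RegS L R (fun _ : σ => -γ) (fun _ => γ + θ)) := by
  by_cases hγ : γ ≤ 1 / 2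
  · exact SurS_piece0 hσ m hγ0 hγ hθ hγθ hΛ0 hΛ hk hw
  push Not at hγ
  have h1 := SurS_piece0 (ι := ι) (σ := σ) hσ m (γ := 1 - γ - θ) (θ := θ) (Λ := Λ)
    (L := -R) (R := -L) (by linarith) (by linarith) hθ (by linarith) hΛ0 hΛ hk
    (by rw [show -L - -R = R - L by ring]; exact hw)
  refine h1.comap (-1) (Or.inr rfl) (fun _ => -1) 0 ?_
  rintro ⟨x, y⟩ ⟨k1, k2, k3⟩
  simp only [← mul_sum] at k1 k2 k3
  have e1 : ((∑ i, (-1 : ℤ) * y i : ℤ) : ℝ) = -∑ i, (y i : ℝ) := by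
    rw [← mul_sum]
    push_cast
    ring
  refine ⟨k1, ?_, ?_⟩
  · simp only
    rw [Int.cast_mul, Int.cast_sub, Int.cast_sub, e1, ← mul_sum]
    push_cast
    linarith
  · simp only
    rw [Int.cast_mul, Int.cast_sub, Int.cast_sub, e1, ← mul_sum]
    push_cast
    linarith

end Pool.Agent.L7h91.CUT
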