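import Pool.Agent.L7h91.CUT.Piece

/-!
# The pieces, arbitrary slopes
-/

set_option autoImplicit false

namespace Pool.Agent.L7h91.CUT

open Finset Pool.Agent.TH603.EL Pool.Agent.TH3.IR Pool.Agent.L7h91.IR Pool.Agent.L7h91.TW

theorem sumJ {σ : Type} [Fintype σ] [DecidableEq σ] (v : ℤ) (l : σ) (c : σ → ℤ) :
    ((∑ i, (if i = l then (0 : ℤ) else -v) * c i : ℤ) : ℝ) =
      -v * ∑ i ∈ univ.erase l, (c i : ℝ) := by
  rw [← add_sum_erase univ _ (mem_univ l), if_pos rfl, mul_sum]
  push_cast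
  rw [zero_mul, zero_add]
  refine sum_congr rfl fun i hi => ?_
  rw [if_neg (ne_of_mem_erase hi)]

theorem flat_eqA {γ s v : ℝ} (hs : 0 < s) :
    ((γ + s) * (-γ + v) + -γ * (v - (γ + s))) / s = v := by
  rw [div_eq_iff hs.ne']
  ring

/-- the numbers of a piece -/
theorem piece_numA {s Λ b : ℝ} {n : ℕ} (hs : 0 < s) (hΛ : 2 < Λ) (hsΛ : 3 ≤ s * Λ)
    (h1 : s < b) (h2 : 3 / 2 < b) (h3 : b ≤ max s (3 / 2) + 1) :
    b ≤ b ^ 2 / s ∧ 1 + 1 / (2 * (b ^ 2 / s) * Λ ^ n) < s * Λ / b := by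
  have hb0 : 0 < b := by linarith
  refine ⟨?_, ?_⟩
  · rw [le_div_iff₀ hs]
    nlinarith
  · have hone : 1 ≤ Λ ^ n := one_le_pow₀ (by linarith)
    have e1 : 1 / (2 * (b ^ 2 / s) * Λ ^ n) ≤ s / (2 * b ^ 2) := by
      rw [div_le_div_iff₀ (by positivity) (by positivity)]
      have e2 : s * (2 * (b ^ 2 / s) * Λ ^ n) = 2 * b ^ 2 * Λ ^ n := by
        field_simp
      rw [e2, one_mul]
      nlinarith [sq_nonneg b]
    have e3 : b + s / (2 * b) < s * Λ := by
      rcases le_total s (3 / 2) with hle | hle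
      · rw [max_eq_right hle] at h3
        have h4 : s / (2 * b) < 3 - b := by
          rw [div_lt_iff₀ (by positivity)]
          nlinarith [mul_nonneg (by linarith : 0 ≤ b - 3 / 2) (by linarith : 0 ≤ 5 / 2 - b)]
        linarith
      · rw [max_eq_left hle] at h3
        have h4 : s / (2 * b) < 1 / 2 := by
          rw [div_lt_iff₀ (by positivity)]
          linarith
        nlinarith
    rw [lt_div_iff₀ hb0]
    have e4 : (1 + 1 / (2 * (b ^ 2 / s) * Λ ^ n)) * b ≤ (1 + s / (2 * b ^ 2)) * b :=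
      mul_le_mul_of_nonneg_right (by linarith) hb0.le
    have e5 : (1 + s / (2 * b ^ 2)) * b = b + s / (2 * b) := by
      field_simp
    linarith

/-- the choice of the first slope -/
theorem exists_v (γ s : ℝ) : ∃ v : ℤ, s < (v : ℝ) - γ ∧ 3 / 2 < (v : ℝ) - γ ∧
    (v : ℝ) - γ ≤ max s (3 / 2) + 1 := by
  refine ⟨⌊max s (3 / 2) + γ⌋ + 1, ?_, ?_, ?_⟩
  · have h1 := Int.lt_floor_add_one (max s (3 / 2) + γ)
    have h2 := le_max_left s (3 / 2)
    push_cast
    linarith
  · have h1 := Int.lt_floor_add_one (max s (3 / 2) + γ)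
    have h2 := le_max_right s (3 / 2)
    push_cast
    linarith
  · have h1 := Int.floor_le (max s (3 / 2) + γ)
    push_cast
    linarith

/-- emptiness for a piece -/
theorem EmpS_pieceA {ι σ : Type} [Fintype ι] [Fintype σ] (hσ : 2 ≤ Fintype.card σ)
    {w : ι → ℕ} {γ s Λ L R : ℝ} (hs : 0 < s) (hΛ : 2 < Λ) (hsΛ : 3 ≤ s * Λ)
    (hk : (Fintype.card ι : ℝ) ≤ s * Λ ^ (Fintype.card σ + 1))
    (hLR : 0 ≤ R - L) (hw : Λ ^ Fintype.card σ * (R - L) < ∑ i, (w i : ℝ)) :
    EmpS w (RegS L R (fun _ : σ => -γ) (fun _ => γ + s)) := by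
  classical
  have : Nonempty σ := by
    rw [← Fintype.card_pos_iff]
    omega
  obtain ⟨l⟩ := this
  obtain ⟨v, v1, v2, v3⟩ := exists_v γ s
  obtain ⟨n2, n4⟩ := piece_numA (n := Fintype.card σ - 2) hs hΛ hsΛ v1 v2 v3
  have hsum : -γ + (γ + s) = s := by ring
  refine EmpS_flatG l (fun _ => by rw [hsum]; exact hs) v (by linarith) (by linarith) ?_
  simp only [hsum, flat_eqA hs]
  obtain ⟨R1, hR1⟩ : ∃ R1, R1 = (R * (-γ + v) - L * (v - (γ + s))) / s := ⟨_, rfl⟩
  obtain ⟨b, hb⟩ : ∃ b, b = (v : ℝ) - γ := ⟨_, rfl⟩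
  obtain ⟨a, ha⟩ : ∃ a, a = b ^ 2 / s := ⟨_, rfl⟩
  have e1 : -γ + v = b := by rw [hb]; ring
  have e2 : b * (v - (γ + s)) / s = a - b := by
    rw [ha, hb]
    field_simp
    ring
  rw [← hR1, e1, e2]
  rw [← hb] at n2 n4 v1 v2
  rw [← ha] at n2 n4
  have hb0 : 0 < b := by linarith
  have ha0 : 0 < a := by rw [ha]; positivity
  have hab0 : 0 ≤ a - b := by linarith
  have hWW : -L - -R1 = b * (R - L) / s := by
    rw [hR1, hb]
    field_simp
    ring
  -- reflection
  have h1 : EmpS w (RegS (-R1) (-L) (Function.update (fun _ : σ => (0 : ℝ)) l (a - b))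
      (fun _ => b)) := by
    refine EmpS_run hσ (a := a) (b := b) (Λ := Λ) v2.le n2 hΛ ?_ ?_ l ?_ ?_ ?_ ?_ ?_ ?_
    · have e3 : Λ * b / a = s * Λ / b := by
        rw [ha]
        field_simp
      rw [e3]
      exact n4.le
    · have e3 : b ^ 2 / a = s := by
        rw [ha]
        field_simp
      rw [e3]
      exact hk
    · rw [hWW]
      positivity
    · rw [hWW]
      refine lt_of_le_of_lt (le_of_eq ?_) hw
      rw [ha]
      field_simp
    · intro i
      by_cases hi : i = l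
      · subst hi
        rw [Function.update_self]
        exact hab0
      · rw [Function.update_of_ne hi]
    · intro i
      exact hb0.le
    · intro i
      unfold sg
      rw [Finset.card_empty]
      by_cases hi : i = l
      · subst hi
        rw [Function.update_self, if_pos rfl]
        ring
      · rw [Function.update_of_ne hi, if_neg hi, if_neg (by simp)]
        ring
    · intro i _
      exact v2.le
  refine h1.comap (-1) (Or.inr rfl) (fun i => if i = l then 0 else -v) 0 ?_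
  rintro ⟨x, y⟩ ⟨k1, k2, k3⟩
  simp only at k1 k2 k3
  have hsb : ∑ i, b * (y i : ℝ) = b * y l + b * ∑ i ∈ univ.erase l, (y i : ℝ) := by
    rw [← add_sum_erase univ _ (mem_univ l), mul_sum]
  rw [sumU] at k2 k3
  have e3 : b * ∑ i ∈ univ.erase l, (y i : ℝ) = v * ∑ i ∈ univ.erase l, (y i : ℝ) -
      γ * ∑ i ∈ univ.erase l, (y i : ℝ) := by
    rw [hb]
    ring
  refine ⟨k1, ?_, ?_⟩
  · simp only
    rw [sumU, Int.cast_add, Int.cast_add, sumJ]
    push_cast
    linarith
  · simp only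
    rw [hsb, Int.cast_add, Int.cast_add, sumJ]
    push_cast
    linarith

/-- independence for a piece -/
theorem SurS_pieceA {ι σ : Type} [Fintype ι] [Fintype σ] (hσ : 2 ≤ Fintype.card σ)
    (m : ℕ) {γ s Λ L R : ℝ} (hs : 0 < s) (hΛ : 2 < Λ) (hsΛ : 3 ≤ s * Λ)
    (hk : s * Λ ^ (Fintype.card σ + 1) = (Fintype.card ι : ℝ))
    (hw : s * (Λ * (m + Fintype.card σ + 2) + Fintype.card σ) ≤ R - L + 1) :
    SurS (fun _ : ι => m) (RegS L R (fun _ : σ => -γ) (fun _ => γ + s)) := by
  classical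
  have : Nonempty σ := by
    rw [← Fintype.card_pos_iff]
    omega
  obtain ⟨l⟩ := this
  obtain ⟨v, v1, v2, v3⟩ := exists_v γ s
  obtain ⟨n2, n4⟩ := piece_numA (n := Fintype.card σ - 2) hs hΛ hsΛ v1 v2 v3
  have hsum : -γ + (γ + s) = s := by ring
  refine SurS_flatG (fun _ => by rw [hsum]; exact hs) l v (by linarith) (by linarith) ?_
  simp only [hsum, flat_eqA hs]
  obtain ⟨b, hb⟩ : ∃ b, b = (v : ℝ) - γ := ⟨_, rfl⟩
  obtain ⟨a, ha⟩ : ∃ a, a = b ^ 2 / s := ⟨_, rfl⟩
  have e1 : -γ + v = b := by rw [hb]; ring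
  have e2 : b * (v - (γ + s)) / s = a - b := by
    rw [ha, hb]
    field_simp
    ring
  rw [e1, e2]
  obtain ⟨R1, hR1⟩ : ∃ R1, R1 = (R * b - L * (v - (γ + s)) - b * (v - (γ + s))) / s := ⟨_, rfl⟩
  rw [← hR1]
  rw [← hb] at n2 n4 v1 v2 v3
  rw [← ha] at n2 n4
  have hb0 : 0 < b := by linarith
  have ha0 : 0 < a := by rw [ha]; positivity
  have hab0 : 0 ≤ a - b := by linarith
  have hWW : -(L + b) - -R1 = b * (R - L - b) / s := by
    rw [hR1, hb]
    field_simp
    ring
  -- reflection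
  have h1 : SurS (fun _ : ι => m) (RegS (-R1) (-(L + b))
      (Function.update (fun _ : σ => (0 : ℝ)) l (a - b)) (fun _ => b)) := by
    refine SurS_run hσ m (a := a) (b := b) (Λ := Λ) v2.le n2 hΛ ?_ ?_ l ?_ ?_ ?_ ?_ ?_
    · have e3 : Λ * b / a = s * Λ / b := by
        rw [ha]
        field_simp
      rw [e3]
      exact n4
    · have e3 : b ^ 2 / a = s := by
        rw [ha]
        field_simp
      rw [e3]
      exact hk
    · rw [hWW, le_div_iff₀ hs]
      have hm : (0 : ℝ) ≤ (m : ℝ) + Fintype.card σ := by positivity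
      have hb5 : b ≤ s + 5 / 2 := by
        have : max s (3 / 2) ≤ s + 3 / 2 := max_le (by linarith) (by linarith)
        linarith
      have h3 : b * (s * (Λ * (m + Fintype.card σ) + Fintype.card σ - 1) + 1) ≤
          b * (R - L - b) := by
        refine mul_le_mul_of_nonneg_left ?_ hb0.le
        nlinarith
      have h4 : (1 : ℝ) * s ≤ b := by linarith
      nlinarith
    · intro i
      by_cases hi : i = l
      · subst hi
        rw [Function.update_self]
        exact hab0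
      · rw [Function.update_of_ne hi]
    · intro i
      exact hb0.le
    · intro i
      unfold sg
      rw [Finset.card_empty]
      by_cases hi : i = l
      · subst hi
        rw [Function.update_self, if_pos rfl]
        ring
      · rw [Function.update_of_ne hi, if_neg hi, if_neg (by simp)]
        ring
    · intro i _
      exact v2.le
  refine h1.comap (-1) (Or.inr rfl) (fun i => if i = l then 0 else -v) 0 ?_
  rintro ⟨x, y⟩ ⟨k1, k2, k3⟩
  simp only at k1 k2 k3
  have hsb : ∑ i, b * (y i : ℝ) = b * y l + b * ∑ i ∈ univ.erase l, (y i : ℝ) := by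
    rw [← add_sum_erase univ _ (mem_univ l), mul_sum]
  rw [sumU] at k2
  rw [hsb] at k3
  have e3 : b * ∑ i ∈ univ.erase l, (y i : ℝ) = v * ∑ i ∈ univ.erase l, (y i : ℝ) -
      γ * ∑ i ∈ univ.erase l, (y i : ℝ) := by
    rw [hb]
    ring
  refine ⟨k1, ?_, ?_⟩
  · simp only
    rw [sumU, Int.cast_mul, Int.cast_sub, Int.cast_sub, sumJ]
    push_cast
    linarith
  · simp only
    rw [sumU, Int.cast_mul, Int.cast_sub, Int.cast_sub, sumJ]
    push_cast
    linarith

end Pool.Agent.L7h91.CUT
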