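import Pool.Agent.L7h91.CUT.Solve

/-!
# Emptiness for the regions of the pieces
-/

set_option autoImplicit false

namespace Pool.Agent.L7h91.CUT

open Finset Pool.Agent.TH603.EL Pool.Agent.TH3.IR Pool.Agent.L7h91.IR Pool.Agent.L7h91.TW

/-- the two last flattenings -/
theorem fin3 {ι σ : Type} [Fintype ι] [Fintype σ] [DecidableEq σ] {w : ι → ℕ} {L R : ℝ}
    {μ ν : σ → ℝ} (hμ : ∀ i, 0 ≤ μ i) (hν : ∀ i, 0 ≤ ν i) {q l : σ} (hql : q ≠ l)
    {Λ ζ t E E' W : ℝ} (ht : 0 < t) (hζ : 0 < ζ) (hΛ : 2 ≤ Λ) (hE : E = Λ * ζ / 2) (hEE : E ≤ E')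
    (h1E : 1 + 1 / t ≤ E') (hk : (Fintype.card ι : ℝ) ≤ Λ * E ^ 2 * t / 2)
    (hsl : μ l + ν l = (t + 1) ^ 2 / t) (hsq : μ q + ν q = ζ * (t + 1))
    (hsi : ∀ i, i ≠ q → i ≠ l → μ i + ν i = E * (t + 1)) (hW : R - L = 2 * W * (t + 1) / t)
    (hw : Λ * E' * W < ∑ i, (w i : ℝ))
    (h1 : ∃ v : ℤ, E' * (t + 1) - μ l = v) (h2 : ∃ v : ℤ, E * E' * t - μ q = v) :
    EmpS w (RegS L R μ ν) := by
  obtain ⟨v, hv⟩ := h1
  obtain ⟨v', hv'⟩ := h2
  have hΛ0 : 0 < Λ := by linarith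
  have hE0 : 0 < E := by rw [hE]; positivity
  have hE'0 : 0 < E' := by linarith
  have hζE : ζ ≤ E := by
    rw [hE]
    nlinarith
  have hpos : ∀ i, 0 < μ i + ν i := by
    intro i
    by_cases h1 : i = q
    · subst h1
      rw [hsq]
      positivity
    · by_cases h2 : i = l
      · subst h2
        rw [hsl]
        positivity
      · rw [hsi i h1 h2]
        positivity
  have hlam : E' * t / (t + 1) * ((t + 1) ^ 2 / t) = E' * (t + 1) := by field_simp
  refine flat' (lam := E' * t / (t + 1)) hμ hν hpos l v ?_ ?_ ?_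
  · rw [← hv]
    have h3 : (t + 1) ^ 2 / t ≤ E' * (t + 1) := by
      rw [div_le_iff₀ ht]
      have h4 : (1 + 1 / t) * (t * (t + 1)) ≤ E' * (t * (t + 1)) :=
        mul_le_mul_of_nonneg_right h1E (by positivity)
      have h5 : (1 + 1 / t) * (t * (t + 1)) = (t + 1) ^ 2 := by
        field_simp
      rw [h5] at h4
      linarith
    linarith
  · rw [hsl, hlam, ← hv]
    ring
  intro L1 R1 μ1 ν1 hμ1 hν1 hW1 hs1 hleft
  have hs1q : μ1 q + ν1 q = E' * ζ * t := by
    rw [hs1, Function.update_of_ne hql, hsq]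
    field_simp
  have hs1l : μ1 l + ν1 l = E' ^ 2 * t := by
    rw [hs1, Function.update_self, hsl]
    field_simp
  have hs1i : ∀ i, i ≠ q → i ≠ l → μ1 i + ν1 i = E * E' * t := by
    intro i h1 h2
    rw [hs1, Function.update_of_ne h2, hsi i h1 h2]
    field_simp
  have hpos1 : ∀ i, 0 < μ1 i + ν1 i := by
    intro i
    by_cases h1 : i = q
    · subst h1
      rw [hs1q]
      positivity
    · by_cases h2 : i = l
      · subst h2
        rw [hs1l]
        positivity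
      · rw [hs1i i h1 h2]
        positivity
  refine flat' (lam := Λ / 2) hμ1 hν1 hpos1 q v' ?_ ?_ ?_
  · rw [← hv', ← hleft q hql]
    have h3 : E' * ζ * t ≤ E * E' * t := by
      have : E' * t * ζ ≤ E' * t * E := mul_le_mul_of_nonneg_left hζE (by positivity)
      linarith
    linarith
  · rw [hs1q, ← hv', ← hleft q hql, hE]
    ring
  intro L2 R2 μ2 ν2 hμ2 hν2 hW2 hs2 _
  apply EmpS_final hμ2 hν2
  · intro i
    rw [hs2]
    have hkk : (Fintype.card ι : ℝ) ≤ Λ / 2 * (E * E' * t) := by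
      refine hk.trans ?_
      have h3 : Λ * E * t / 2 * E ≤ Λ * E * t / 2 * E' :=
        mul_le_mul_of_nonneg_left hEE (by positivity)
      linarith
    by_cases h1 : i = q
    · subst h1
      rw [Function.update_self, hs1q]
      refine hkk.trans (le_of_eq ?_)
      rw [hE]
      ring
    · rw [Function.update_of_ne h1]
      by_cases h2 : i = l
      · subst h2
        rw [hs1l]
        refine hkk.trans ?_
        have h3 : Λ * E' * t / 2 * E ≤ Λ * E' * t / 2 * E' :=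
          mul_le_mul_of_nonneg_left hEE (by positivity)
        linarith
      · rw [hs1i i h1 h2]
        exact hkk
  · rw [hW2, hW1, hW]
    refine lt_of_le_of_lt (le_of_eq ?_) hw
    field_simp

/-- the sums of the slopes when the directions in `T` are done, `l` is the first one -/
noncomputable def sg {σ : Type} [DecidableEq σ] (a b Λ : ℝ) (l : σ) (T : Finset σ) (i : σ) : ℝ :=
  if i = l then a * Λ ^ T.card else if i ∈ T then b * Λ ^ (T.card + 1) else b * Λ ^ T.card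

theorem sg_pos {σ : Type} [DecidableEq σ] {a b Λ : ℝ} (ha : 0 < a) (hb : 0 < b) (hΛ : 0 < Λ)
    (l : σ) (T : Finset σ) (i : σ) : 0 < sg a b Λ l T i := by
  unfold sg
  split_ifs <;> positivity

theorem sg_insert {σ : Type} [DecidableEq σ] (a b Λ : ℝ) {l j : σ} {T : Finset σ} (hj : j ∉ T)
    (hjl : j ≠ l) (i : σ) : Function.update (fun i => Λ * sg a b Λ l T i) j
      (Λ ^ 2 * sg a b Λ l T j) i = sg a b Λ l (insert j T) i := by
  have hc : (insert j T).card = T.card + 1 := Finset.card_insert_of_notMem hj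
  by_cases hi : i = j
  · subst hi
    rw [Function.update_self]
    unfold sg
    rw [if_neg hjl, if_neg hj, if_neg hjl, if_pos (Finset.mem_insert_self i T), hc]
    ring
  · rw [Function.update_of_ne hi]
    unfold sg
    rw [hc]
    by_cases hil : i = l
    · rw [if_pos hil, if_pos hil]
      ring
    · rw [if_neg hil, if_neg hil]
      by_cases hiT : i ∈ T
      · rw [if_pos hiT, if_pos (Finset.mem_insert_of_mem hiT)]
        ring
      · have hiT' : i ∉ insert j T := by rw [Finset.mem_insert]; tauto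
        rw [if_neg hiT, if_neg hiT']
        ring

/-- a further direction -/
theorem exists_dir {σ : Type} [Fintype σ] [DecidableEq σ] {l q : σ} {T : Finset σ} {c : ℕ}
    (hT : T.card + (c + 1) + 2 = Fintype.card σ) : ∃ j, j ∉ T ∧ j ≠ l ∧ j ≠ q := by
  by_contra hcon
  push Not at hcon
  have h1 : (Finset.univ : Finset σ) ⊆ insert l (insert q T) := by
    intro i _
    rw [Finset.mem_insert, Finset.mem_insert]
    by_cases h2 : i ∈ T
    · exact Or.inr (Or.inr h2)
    · by_cases h3 : i = l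
      · exact Or.inl h3
      · exact Or.inr (Or.inl (hcon i h2 h3))
  have h2 := Finset.card_le_card h1
  have h3 := Finset.card_insert_le l (insert q T)
  have h4 := Finset.card_insert_le q T
  rw [Finset.card_univ] at h2
  omega

theorem mem_T {σ : Type} [Fintype σ] [DecidableEq σ] {l q i : σ} {T : Finset σ} (hlq : l ≠ q)
    (hl : l ∉ T) (hq : q ∉ T) (hT : T.card + 2 = Fintype.card σ) (h1 : i ≠ l) (h2 : i ≠ q) :
    i ∈ T := by
  by_contra h3
  have h4 : (insert i (insert l (insert q T))).card = T.card + 3 := by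
    rw [Finset.card_insert_of_notMem, Finset.card_insert_of_notMem,
      Finset.card_insert_of_notMem hq]
    · simp [hl, hlq]
    · simp [h1, h2, h3]
  have h5 := Finset.card_le_univ (insert i (insert l (insert q T)))
  omega

/-- the treatment of the last direction -/
theorem baseE {ι σ : Type} [Fintype ι] [Fintype σ] [DecidableEq σ] {w : ι → ℕ} {a b Λ W0 : ℝ}
    (hb : 3 / 2 ≤ b) (hab : b ≤ a) (hΛ : 2 < Λ)
    (hr : 1 + 1 / (2 * a * Λ ^ (Fintype.card σ - 2)) ≤ Λ * b / a) (hW0 : 0 ≤ W0)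
    (hk : (Fintype.card ι : ℝ) ≤ b ^ 2 / a * Λ ^ (Fintype.card σ + 1))
    (hw : Λ ^ Fintype.card σ * b / a * W0 < ∑ i, (w i : ℝ)) (l q : σ) (hlq : l ≠ q) :
    ∀ T : Finset σ, l ∉ T → q ∉ T → T.card + 2 = Fintype.card σ →
      ∀ (L R : ℝ) (μ ν : σ → ℝ), (∀ i, 0 ≤ μ i) → (∀ i, 0 ≤ ν i) →
        R - L = W0 * Λ ^ T.card → (∀ i, μ i + ν i = sg a b Λ l T i) →
        (3 / 2 ≤ ν q ∨ 1 ≤ T.card) → EmpS w (RegS L R μ ν) := by
  intro T hl hq hT L R μ ν hμ hν hW hs hready
  have hc1 : Fintype.card σ = T.card + 2 := by omega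
  rw [hc1] at hw hk
  have hc2 : Fintype.card σ - 2 = T.card := by omega
  rw [hc2] at hr
  have hΛ1 : 1 ≤ Λ := by linarith
  have hΛ0 : 0 < Λ := by linarith
  have hb0 : 0 < b := by linarith
  have ha0 : 0 < a := by linarith
  have hone := one_le_pow₀ hΛ1 (n := T.card)
  have hql : q ≠ l := Ne.symm hlq
  obtain ⟨t, ht⟩ : ∃ t, t = 2 * a * Λ ^ T.card := ⟨_, rfl⟩
  obtain ⟨ζ, hζ⟩ : ∃ ζ, ζ = 2 * b / a := ⟨_, rfl⟩
  obtain ⟨E, hE⟩ : ∃ E, E = Λ * ζ / 2 := ⟨_, rfl⟩
  have hta : 2 * a ≤ t := by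
    rw [ht]
    nlinarith
  have ht0 : 0 < t := by linarith
  have hζ0 : 0 < ζ := by rw [hζ]; positivity
  have hE1 : E = Λ * b / a := by
    rw [hE, hζ]
    field_simp
  have hE0 : 0 < E := by rw [hE]; positivity
  have h1E : 1 + 1 / t ≤ E := by
    rw [hE1, ht]
    exact hr
  have hζt : 1 < ζ * (t - 1) := by
    have h1 : ζ ≤ 2 := by
      rw [hζ, div_le_iff₀ ha0]
      linarith
    have h2 : 4 * b ≤ ζ * t := by
      have h3 : ζ * (2 * a) ≤ ζ * t := mul_le_mul_of_nonneg_left hta hζ0.le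
      have h4 : ζ * (2 * a) = 4 * b := by
        rw [hζ]
        field_simp
        ring
      linarith
    linarith
  have hsl : sg a b Λ l T l = t / 2 := by
    unfold sg
    rw [if_pos rfl, ht]
    ring
  have hsq : sg a b Λ l T q = t * ζ / 4 := by
    unfold sg
    rw [if_neg hql, if_neg hq, ht, hζ]
    field_simp
    ring
  have hsi : ∀ i, i ≠ q → i ≠ l → sg a b Λ l T i = E * t / 2 := by
    intro i h2 h1
    have h0 : i ∈ T := mem_T hlq hl hq hT h1 h2
    unfold sg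
    rw [if_neg h1, if_pos h0, ht, hE1]
    field_simp
    ring
  obtain ⟨W, hWd⟩ : ∃ W, W = W0 * Λ ^ T.card := ⟨_, rfl⟩
  have hW0' : 0 ≤ W := by rw [hWd]; positivity
  have hw' : Λ * E * W < ∑ i, (w i : ℝ) := by
    refine lt_of_le_of_lt (le_of_eq ?_) hw
    rw [hE1, hWd]
    field_simp
    ring
  have hk' : (Fintype.card ι : ℝ) ≤ Λ * E ^ 2 * t / 2 := by
    refine hk.trans (le_of_eq ?_)
    rw [hE1, ht]
    field_simp
    ring
  -- the choice of `E'`
  obtain ⟨S, hS⟩ : ∃ S, S = (∑ i, (w i : ℝ)) - Λ * E * W := ⟨_, rfl⟩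
  have hS0 : 0 < S := by rw [hS]; linarith
  have hΛW : 0 ≤ Λ * W := by positivity
  have hpq : E < E + S / (Λ * W + 1) := by
    have : 0 < S / (Λ * W + 1) := by positivity
    linarith
  obtain ⟨E', he1, he2, hcases⟩ := choice ht0 hΛ hζ0 hE hζt hpq
  have hwE : Λ * E' * W < ∑ i, (w i : ℝ) := by
    have h1 : (E' - E) * (Λ * W) ≤ S / (Λ * W + 1) * (Λ * W) :=
      mul_le_mul_of_nonneg_right (by linarith) hΛW
    have h2 : S / (Λ * W + 1) * (Λ * W) < S := by
      rw [div_mul_eq_mul_div, div_lt_iff₀ (by linarith)]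
      nlinarith
    nlinarith
  have key : ∀ τ a' : ℝ, 0 < τ → τ < a' → a' < 1 →
      EmpS w (RegS (-(2 * W * (τ + a' / t))) (2 * W * (1 - τ + (1 - a') / t))
        (sm (sg a b Λ l T) q l τ a') (sm (sg a b Λ l T) q l (1 - τ) (1 - a'))) →
      EmpS w (RegS L R μ ν) := by
    intro τ a' h1 h2 h3 h4
    refine EmpS_twist hμ hν hql ?_ ?_ h1 h2 h3 (s := sg a b Λ l T) hs (W := W)
      (by rw [hW, hWd]) ?_
    · rcases hready with h5 | h5
      · exact Or.inr h5
      · left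
        rw [hs]
        unfold sg
        rw [if_neg hql, if_neg hq]
        have h6 : Λ ^ 1 ≤ Λ ^ T.card := pow_le_pow_right₀ hΛ1 h5
        rw [pow_one] at h6
        nlinarith
    · rw [hs, hsl]
      linarith
    · rw [hsl, show 2 * (t / 2) = t by ring]
      exact h4
  have esm_l : ∀ τ a' : ℝ, sm (sg a b Λ l T) q l τ a' l = t * τ + (2 + 1 / t) * a' := by
    intro τ a'
    rw [sm_l, hsl, show 2 * (t / 2) = t by ring]
  have esm_q : ∀ τ a' : ℝ, sm (sg a b Λ l T) q l τ a' q = ζ * (t * τ + a') := by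
    intro τ a'
    rw [sm_q _ hql, hsl, hsq, show 2 * (t / 2) = t by ring]
    field_simp
  have esm_i : ∀ τ a' : ℝ, ∀ i, i ≠ q → i ≠ l →
      sm (sg a b Λ l T) q l τ a' i = E * (t * τ + a') := by
    intro τ a' i h1 h2
    rw [sm_i _ h1 h2, hsl, hsi i h1 h2, show 2 * (t / 2) = t by ring]
    field_simp
  have hnn : ∀ τ a' : ℝ, 0 ≤ τ → 0 ≤ a' → ∀ i, 0 ≤ sm (sg a b Λ l T) q l τ a' i := by
    intro τ a' h1 h2 i
    by_cases h3 : i = q
    · subst h3
      rw [esm_q]
      positivity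
    · by_cases h4 : i = l
      · subst h4
        rw [esm_l]
        positivity
      · rw [esm_i τ a' i h3 h4]
        positivity
  rcases hcases with ⟨τ, a', h1, h2, h3, ⟨n, hn⟩, m, hm⟩ | ⟨τ, a', h1, h2, h3, ⟨n, hn⟩, m, hm⟩
  · apply key τ a' h1 h2 h3
    refine fin3 (hnn τ a' h1.le (by linarith)) (hnn (1 - τ) (1 - a') (by linarith) (by linarith))
      hql (W := W) ht0 hζ0 hΛ.le hE he1.le (by linarith) hk' ?_ ?_ ?_ ?_ hwE ⟨n, ?_⟩ ⟨m, ?_⟩
    · rw [esm_l, esm_l]
      field_simp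
      ring
    · rw [esm_q, esm_q]
      ring
    · intro i h4 h5
      rw [esm_i _ _ i h4 h5, esm_i _ _ i h4 h5]
      ring
    · field_simp
      ring
    · rw [esm_l, ← hn]
      ring
    · rw [esm_q]
      exact hm
  · apply key τ a' h1 h2 h3
    apply Pool.Agent.L7h91.TW.refl
    refine fin3 (hnn (1 - τ) (1 - a') (by linarith) (by linarith)) (hnn τ a' h1.le (by linarith))
      hql (W := W) ht0 hζ0 hΛ.le hE he1.le (by linarith) hk' ?_ ?_ ?_ ?_ hwE ⟨n, ?_⟩ ⟨m, ?_⟩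
    · rw [esm_l, esm_l]
      field_simp
      ring
    · rw [esm_q, esm_q]
      ring
    · intro i h4 h5
      rw [esm_i _ _ i h4 h5, esm_i _ _ i h4 h5]
      ring
    · field_simp
      ring
    · rw [esm_l, ← hn]
      ring
    · rw [esm_q]
      exact hm

/-- the induction over the directions -/
theorem runE {ι σ : Type} [Fintype σ] [DecidableEq σ] {w : ι → ℕ} {a b Λ W0 : ℝ}
    (ha : 0 < a) (hb : 3 / 2 ≤ b) (hΛ : 2 ≤ Λ) (l q : σ)
    (Base : ∀ T : Finset σ, l ∉ T → q ∉ T → T.card + 2 = Fintype.card σ →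
      ∀ (L R : ℝ) (μ ν : σ → ℝ), (∀ i, 0 ≤ μ i) → (∀ i, 0 ≤ ν i) →
        R - L = W0 * Λ ^ T.card → (∀ i, μ i + ν i = sg a b Λ l T i) →
        (3 / 2 ≤ ν q ∨ 1 ≤ T.card) → EmpS w (RegS L R μ ν)) (c : ℕ) :
    ∀ T : Finset σ, l ∉ T → q ∉ T → T.card + c + 2 = Fintype.card σ →
      ∀ (L R : ℝ) (μ ν : σ → ℝ), (∀ i, 0 ≤ μ i) → (∀ i, 0 ≤ ν i) →
        R - L = W0 * Λ ^ T.card → (∀ i, μ i + ν i = sg a b Λ l T i) →
        (3 / 2 ≤ ν q ∨ 1 ≤ T.card) →
        (∀ j, j ≠ l → j ∉ T → Ready w L R μ ν j) → EmpS w (RegS L R μ ν) := by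
  have hΛ0 : 0 < Λ := by linarith
  have hΛ1 : 1 ≤ Λ := by linarith
  have hb0 : 0 < b := by linarith
  induction c with
  | zero =>
    intro T hl hq hT L R μ ν hμ hν hW hs hr _
    exact Base T hl hq (by omega) L R μ ν hμ hν hW hs hr
  | succ c ih =>
    intro T hl hq hT L R μ ν hμ hν hW hs _ hready
    have hpos : ∀ i, 0 < μ i + ν i := fun i => by rw [hs]; exact sg_pos ha hb0 hΛ0 l T i
    obtain ⟨j, hj, hjl, hjq⟩ := exists_dir (l := l) (q := q) hT
    have hsj : μ j + ν j = b * Λ ^ T.card := by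
      rw [hs]
      unfold sg
      rw [if_neg hjl, if_neg hj]
    have hone : 1 ≤ μ j + ν j := by
      rw [hsj]
      have := one_le_pow₀ hΛ1 (n := T.card)
      nlinarith
    have hc : (insert j T).card = T.card + 1 := Finset.card_insert_of_notMem hj
    refine nodal' hμ hν hpos j l (Ne.symm hjl) hone (hready j hjl hj) hΛ ?_
    intro L' R' μ' ν' hμ' hν' hW' hs' _
    have hs2 : ∀ i, μ' i + ν' i = sg a b Λ l (insert j T) i := by
      intro i
      rw [hs', ← sg_insert a b Λ hj hjl i]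
      simp only [hs]
    refine ih (insert j T) ?_ ?_ (by omega) L' R' μ' ν' hμ' hν' ?_ hs2 (Or.inr (by omega)) ?_
    · rw [Finset.mem_insert]
      push Not
      exact ⟨Ne.symm hjl, hl⟩
    · rw [Finset.mem_insert]
      push Not
      exact ⟨Ne.symm hjq, hq⟩
    · rw [hW', hW, hc]
      ring
    · intro i hil hiT
      refine ready_of hμ' hν' (fun i => by rw [hs2]; exact sg_pos ha hb0 hΛ0 l _ i) i ?_
      rw [hs2]
      unfold sg
      rw [if_neg hil, if_neg hiT, hc]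
      have h6 : Λ ^ 1 ≤ Λ ^ (T.card + 1) := pow_le_pow_right₀ hΛ1 (by omega)
      rw [pow_one] at h6
      nlinarith

/-- emptiness for the region of a piece after the first flattening -/
theorem EmpS_run {ι σ : Type} [Fintype ι] [Fintype σ] [DecidableEq σ] (hσ : 2 ≤ Fintype.card σ)
    {w : ι → ℕ} {a b Λ : ℝ}
    (hb : 3 / 2 ≤ b) (hab : b ≤ a) (hΛ : 2 < Λ)
    (hr : 1 + 1 / (2 * a * Λ ^ (Fintype.card σ - 2)) ≤ Λ * b / a)
    (hk : (Fintype.card ι : ℝ) ≤ b ^ 2 / a * Λ ^ (Fintype.card σ + 1)) (l : σ)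
    {L R : ℝ} {μ ν : σ → ℝ} (hLR : 0 ≤ R - L)
    (hw : Λ ^ Fintype.card σ * b / a * (R - L) < ∑ i, (w i : ℝ))
    (hμ : ∀ i, 0 ≤ μ i) (hν : ∀ i, 0 ≤ ν i)
    (hs : ∀ i, μ i + ν i = sg a b Λ l ∅ i) (hν2 : ∀ i, i ≠ l → 3 / 2 ≤ ν i) :
    EmpS w (RegS L R μ ν) := by
  classical
  obtain ⟨q, hql⟩ : ∃ q : σ, q ≠ l := by
    have : 1 < Fintype.card σ := by omega
    have := Fintype.one_lt_card_iff_nontrivial.1 this
    exact exists_ne l
  obtain ⟨u, hu⟩ : ∃ u : ℤ, 0 ≤ L + u := ⟨⌈-L⌉, by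
    have := Int.le_ceil (-L)
    linarith⟩
  -- translation
  have hT : EmpS w (RegS (L + u) (R + u) μ ν) → EmpS w (RegS L R μ ν) := by
    intro h
    refine h.comap 1 (Or.inl rfl) 0 u ?_
    rintro ⟨x, y⟩ ⟨k1, k2, k3⟩
    simp only at k1 k2 k3
    refine ⟨k1, ?_, ?_⟩
    · simp only [Pi.zero_apply, zero_mul, Finset.sum_const_zero, add_zero, one_mul]
      push_cast
      linarith
    · simp only [Pi.zero_apply, zero_mul, Finset.sum_const_zero, add_zero, one_mul]
      push_cast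
      linarith
  apply hT
  refine runE (W0 := R - L) (by linarith) hb hΛ.le l q
    (baseE hb hab hΛ hr hLR hk hw l q (Ne.symm hql)) (Fintype.card σ - 2) ∅ (by simp)
    (by simp) (by rw [Finset.card_empty]; omega) (L + u) (R + u) μ ν hμ hν ?_ hs
    (Or.inl (hν2 q hql)) ?_
  · rw [Finset.card_empty]
    ring
  · intro j hjl _ τ h0 h1 h
    exact NodalAux.nodal_pos hu hμ hν j (hν2 j hjl) h0 h1 h

end Pool.Agent.L7h91.CUT
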