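import Pool.Agent.L7h91.CUT.RunE

/-!
# Independence for the regions of the pieces
-/

set_option autoImplicit false

namespace Pool.Agent.L7h91.CUT

open Finset Pool.Agent.TH603.EL Pool.Agent.TH3.IR Pool.Agent.L7h91.IR Pool.Agent.L7h91.TW

/-- the two last flattenings -/
theorem fin3S {ι σ : Type} [Fintype ι] [Fintype σ] [DecidableEq σ] {m : ℕ} {L R : ℝ}
    {μ ν : σ → ℝ} (hμ : ∀ i, 0 ≤ μ i) (hν : ∀ i, 0 ≤ ν i) {q l : σ} (hql : q ≠ l)
    {Λ ζ t E E' : ℝ} (ht : 0 < t) (hζ : 0 < ζ) (hΛ : 2 ≤ Λ) (hE : E = Λ * ζ / 2) (hEE : E' ≤ E)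
    (h1E : 1 + 1 / t ≤ E') (hk : Λ * E ^ 2 * t / 2 = (Fintype.card ι : ℝ))
    (hsl : μ l + ν l = (t + 1) ^ 2 / t) (hsq : μ q + ν q = ζ * (t + 1))
    (hsi : ∀ i, i ≠ q → i ≠ l → μ i + ν i = E * (t + 1))
    (hW : E ^ 2 * t * m + E' ^ 2 * t + E * E' * t ≤ E' * t / (t + 1) * (R - L))
    (h1 : ∃ v : ℤ, E' * (t + 1) - μ l = v) (h2 : ∃ v : ℤ, E * E' * t - μ q = v) :
    SurS (fun _ : ι => m) (RegS L R μ ν) := by
  obtain ⟨v, hv⟩ := h1
  obtain ⟨v', hv'⟩ := h2
  have hΛ0 : 0 < Λ := by linarith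
  have hE0 : 0 < E := by rw [hE]; positivity
  have ht1 : 0 < 1 / t := by positivity
  have hE'0 : 0 < E' := by linarith
  have hζE : ζ ≤ E := by
    rw [hE]
    nlinarith
  have hpos : ∀ i, 0 < μ i + ν i := by
    intro i
    by_cases h1 : i = q
    · subst h1
      rw [hsq]
      positivity
    · by_cases h2 : i = l
      · subst h2
        rw [hsl]
        positivity
      · rw [hsi i h1 h2]
        positivity
  have hlam : E' * t / (t + 1) * ((t + 1) ^ 2 / t) = E' * (t + 1) := by field_simp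
  refine flatS' (lam := E' * t / (t + 1)) hμ hν hpos l v ?_ (by positivity) ?_ ?_
  · rw [← hv]
    have h3 : (t + 1) ^ 2 / t ≤ E' * (t + 1) := by
      rw [div_le_iff₀ ht]
      have h4 : (1 + 1 / t) * (t * (t + 1)) ≤ E' * (t * (t + 1)) :=
        mul_le_mul_of_nonneg_right h1E (by positivity)
      have h5 : (1 + 1 / t) * (t * (t + 1)) = (t + 1) ^ 2 := by
        field_simp
      rw [h5] at h4
      linarith
    linarith
  · rw [hsl, hlam, ← hv]
    ring
  intro L1 R1 μ1 ν1 hμ1 hν1 hW1 hs1 hleft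
  have hs1q : μ1 q + ν1 q = E' * ζ * t := by
    rw [hs1, Function.update_of_ne hql, hsq]
    field_simp
  have hs1l : μ1 l + ν1 l = E' ^ 2 * t := by
    rw [hs1, Function.update_self, hsl]
    field_simp
  have hs1i : ∀ i, i ≠ q → i ≠ l → μ1 i + ν1 i = E * E' * t := by
    intro i h1 h2
    rw [hs1, Function.update_of_ne h2, hsi i h1 h2]
    field_simp
  have hpos1 : ∀ i, 0 < μ1 i + ν1 i := by
    intro i
    by_cases h1 : i = q
    · subst h1
      rw [hs1q]
      positivity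
    · by_cases h2 : i = l
      · subst h2
        rw [hs1l]
        positivity
      · rw [hs1i i h1 h2]
        positivity
  refine flatS' (lam := Λ / 2) hμ1 hν1 hpos1 q v' ?_ (by positivity) ?_ ?_
  · rw [← hv', ← hleft q hql]
    have h3 : E' * ζ * t ≤ E * E' * t := by
      have : E' * t * ζ ≤ E' * t * E := mul_le_mul_of_nonneg_left hζE (by positivity)
      linarith
    linarith
  · rw [hs1q, ← hv', ← hleft q hql, hE]
    ring
  intro L2 R2 μ2 ν2 hμ2 hν2 hW2 hs2 _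
  apply SurS_final hμ2 hν2
  · intro i
    rw [hs2]
    have hkk : Λ / 2 * (E * E' * t) ≤ (Fintype.card ι : ℝ) := by
      rw [← hk]
      have h3 : Λ * E * t / 2 * E' ≤ Λ * E * t / 2 * E :=
        mul_le_mul_of_nonneg_left hEE (by positivity)
      linarith
    by_cases h1 : i = q
    · subst h1
      rw [Function.update_self, hs1q]
      refine le_trans (le_of_eq ?_) hkk
      rw [hE]
      ring
    · rw [Function.update_of_ne h1]
      by_cases h2 : i = l
      · subst h2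
        rw [hs1l]
        refine le_trans ?_ hkk
        have h3 : Λ * E' * t / 2 * E' ≤ Λ * E' * t / 2 * E :=
          mul_le_mul_of_nonneg_left hEE (by positivity)
        linarith
      · rw [hs1i i h1 h2]
        exact hkk
  · rw [hW2, hW1, hsl, hs1q, ← hk]
    have e1 : (E' * t / (t + 1)) ^ 2 * ((t + 1) ^ 2 / t) = E' ^ 2 * t := by
      field_simp
    have e2 : (Λ / 2) ^ 2 * (E' * ζ * t) = Λ / 2 * (E * E' * t) := by
      rw [hE]
      ring
    rw [e1, e2]
    have h3 := mul_le_mul_of_nonneg_left hW (by positivity : 0 ≤ Λ / 2)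
    linarith

/-- the treatment of the last direction -/
theorem baseS {ι σ : Type} [Fintype ι] [Fintype σ] [DecidableEq σ] (m : ℕ) {a b Λ : ℝ}
    (hb : 3 / 2 ≤ b) (hab : b ≤ a) (hΛ : 2 < Λ)
    (hr : 1 + 1 / (2 * a * Λ ^ (Fintype.card σ - 2)) < Λ * b / a)
    (hk : b ^ 2 / a * Λ ^ (Fintype.card σ + 1) = (Fintype.card ι : ℝ))
    (l q : σ) (hlq : l ≠ q) :
    ∀ T : Finset σ, l ∉ T → q ∉ T → T.card + 2 = Fintype.card σ →
      ∀ (L R : ℝ) (μ ν : σ → ℝ), (∀ i, 0 ≤ μ i) → (∀ i, 0 ≤ ν i) →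
        Λ ^ T.card * (b * (Λ * (m + 2) + 1)) + 1 ≤ R - L → (∀ i, μ i + ν i = sg a b Λ l T i) →
        (3 / 2 ≤ ν q ∨ 1 ≤ T.card) → SurS (fun _ : ι => m) (RegS L R μ ν) := by
  intro T hl hq hT L R μ ν hμ hν hW hs hready
  have hc1 : Fintype.card σ = T.card + 2 := by omega
  rw [hc1] at hk
  have hc2 : Fintype.card σ - 2 = T.card := by omega
  rw [hc2] at hr
  have hΛ1 : 1 ≤ Λ := by linarith
  have hΛ0 : 0 < Λ := by linarith
  have hb0 : 0 < b := by linarith
  have ha0 : 0 < a := by linarith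
  have hone := one_le_pow₀ hΛ1 (n := T.card)
  have hql : q ≠ l := Ne.symm hlq
  obtain ⟨t, ht⟩ : ∃ t, t = 2 * a * Λ ^ T.card := ⟨_, rfl⟩
  obtain ⟨ζ, hζ⟩ : ∃ ζ, ζ = 2 * b / a := ⟨_, rfl⟩
  obtain ⟨E, hE⟩ : ∃ E, E = Λ * ζ / 2 := ⟨_, rfl⟩
  have hta : 2 * a ≤ t := by
    rw [ht]
    nlinarith
  have ht0 : 0 < t := by linarith
  have hζ0 : 0 < ζ := by rw [hζ]; positivity
  have hE1 : E = Λ * b / a := by
    rw [hE, hζ]
    field_simp
  have hE0 : 0 < E := by rw [hE]; positivity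
  have h1E : 1 + 1 / t < E := by
    rw [hE1, ht]
    exact hr
  have hζt : 1 < ζ * (t - 1) := by
    have h1 : ζ ≤ 2 := by
      rw [hζ, div_le_iff₀ ha0]
      linarith
    have h2 : 4 * b ≤ ζ * t := by
      have h3 : ζ * (2 * a) ≤ ζ * t := mul_le_mul_of_nonneg_left hta hζ0.le
      have h4 : ζ * (2 * a) = 4 * b := by
        rw [hζ]
        field_simp
        ring
      linarith
    linarith
  have hsl : sg a b Λ l T l = t / 2 := by
    unfold sg
    rw [if_pos rfl, ht]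
    ring
  have hsq0 : sg a b Λ l T q = b * Λ ^ T.card := by
    unfold sg
    rw [if_neg hql, if_neg hq]
  have hsq : sg a b Λ l T q = t * ζ / 4 := by
    rw [hsq0, ht, hζ]
    field_simp
    ring
  have hsi : ∀ i, i ≠ q → i ≠ l → sg a b Λ l T i = E * t / 2 := by
    intro i h2 h1
    have h0 : i ∈ T := mem_T hlq hl hq hT h1 h2
    unfold sg
    rw [if_neg h1, if_pos h0, ht, hE1]
    field_simp
    ring
  obtain ⟨W, hWd⟩ : ∃ W, W = R - L - sg a b Λ l T q := ⟨_, rfl⟩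
  have hEt : E * t = 2 * b * Λ ^ T.card * Λ := by
    rw [hE1, ht]
    field_simp
  have hWb : E * t * (m + 2) / 2 + 1 ≤ W := by
    rw [hWd, hsq0, hEt]
    linarith
  have hk' : Λ * E ^ 2 * t / 2 = (Fintype.card ι : ℝ) := by
    rw [← hk, hE1, ht]
    field_simp
    ring
  -- the choice of `E'`
  obtain ⟨X, hX⟩ : ∃ X, X = E * t * m := ⟨_, rfl⟩
  have hX0 : 0 ≤ X := by rw [hX]; positivity
  have hpq : max (E * X / (X + 1 / 2)) (1 + 1 / t) < E := by
    refine max_lt ?_ h1E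
    rw [div_lt_iff₀ (by linarith)]
    nlinarith
  obtain ⟨E', he1, he2, hcases⟩ := choice ht0 hΛ hζ0 hE hζt hpq
  have he3 : E * X / (X + 1 / 2) < E' := lt_of_le_of_lt (le_max_left _ _) he1
  have he4 : 1 + 1 / t < E' := lt_of_le_of_lt (le_max_right _ _) he1
  have ht1 : 0 < 1 / t := by positivity
  have hE'0 : 0 < E' := by linarith
  rw [div_lt_iff₀ (by linarith)] at he3
  have hwidth : E ^ 2 * t * m + E' ^ 2 * t + E * E' * t ≤
      E' * t / (t + 1) * (2 * W * (t + 1) / t - 3 / 2) := by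
    have h1 : E' * t / (t + 1) * (2 * W * (t + 1) / t - 3 / 2) =
        2 * E' * W - 3 / 2 * (E' * (t / (t + 1))) := by
      field_simp
    have h2 : E' * (t / (t + 1)) ≤ E' * 1 := by
      apply mul_le_mul_of_nonneg_left _ hE'0.le
      rw [div_le_one (by linarith)]
      linarith
    have h3 : E' * t * E' ≤ E' * t * E := mul_le_mul_of_nonneg_left he2.le (by positivity)
    have h4 := mul_le_mul_of_nonneg_left hWb hE'0.le
    have h5 : E * X = E ^ 2 * t * m := by rw [hX]; ring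
    have h6 : E' * X = E * E' * t * m := by rw [hX]; ring
    rw [h1]
    have h7 : E' * (E * t * (m + 2) / 2 + 1) = E' * X / 2 + E * E' * t + E' := by
      rw [hX]
      ring
    rw [h7] at h4
    have h8 : E' * (X + 1 / 2) = E' * X + E' / 2 := by ring
    rw [h8, h5] at he3
    linarith
  have key : ∀ τ a' : ℝ, 0 < τ → τ < a' → a' < 1 →
      SurS (fun _ : ι => m) (RegS (-(2 * W * (τ + a' / t)) + a' + 1 / 4)
        (2 * W * (1 - τ + (1 - a') / t) - (1 - a') - 1 / 4)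
        (sm (sg a b Λ l T) q l τ a') (sm (sg a b Λ l T) q l (1 - τ) (1 - a'))) →
      SurS (fun _ : ι => m) (RegS L R μ ν) := by
    intro τ a' h1 h2 h3 h4
    refine SurS_twist hμ hν hql ?_ ?_ h1 h2 h3 (s := sg a b Λ l T) hs (W := W)
      (by rw [hWd]) (ε := 1 / 4) (by norm_num) ?_
    · rcases hready with h5 | h5
      · exact Or.inr h5
      · left
        rw [hs, hsq0]
        have h6 : Λ ^ 1 ≤ Λ ^ T.card := pow_le_pow_right₀ hΛ1 h5
        rw [pow_one] at h6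
        nlinarith
    · rw [hs, hsl]
      linarith
    · rw [hsl, show 2 * (t / 2) = t by ring]
      exact h4
  have esm_l : ∀ τ a' : ℝ, sm (sg a b Λ l T) q l τ a' l = t * τ + (2 + 1 / t) * a' := by
    intro τ a'
    rw [sm_l, hsl, show 2 * (t / 2) = t by ring]
  have esm_q : ∀ τ a' : ℝ, sm (sg a b Λ l T) q l τ a' q = ζ * (t * τ + a') := by
    intro τ a'
    rw [sm_q _ hql, hsl, hsq, show 2 * (t / 2) = t by ring]
    field_simp
  have esm_i : ∀ τ a' : ℝ, ∀ i, i ≠ q → i ≠ l →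
      sm (sg a b Λ l T) q l τ a' i = E * (t * τ + a') := by
    intro τ a' i h1 h2
    rw [sm_i _ h1 h2, hsl, hsi i h1 h2, show 2 * (t / 2) = t by ring]
    field_simp
  have hnn : ∀ τ a' : ℝ, 0 ≤ τ → 0 ≤ a' → ∀ i, 0 ≤ sm (sg a b Λ l T) q l τ a' i := by
    intro τ a' h1 h2 i
    by_cases h3 : i = q
    · subst h3
      rw [esm_q]
      positivity
    · by_cases h4 : i = l
      · subst h4
        rw [esm_l]
        positivity
      · rw [esm_i τ a' i h3 h4]
        positivity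
  rcases hcases with ⟨τ, a', h1, h2, h3, ⟨n, hn⟩, m', hm⟩ | ⟨τ, a', h1, h2, h3, ⟨n, hn⟩, m', hm⟩
  · apply key τ a' h1 h2 h3
    refine fin3S (hnn τ a' h1.le (by linarith)) (hnn (1 - τ) (1 - a') (by linarith) (by linarith))
      hql ht0 hζ0 hΛ.le hE he2.le he4.le hk' ?_ ?_ ?_ ?_ ⟨n, ?_⟩ ⟨m', ?_⟩
    · rw [esm_l, esm_l]
      field_simp
      ring
    · rw [esm_q, esm_q]
      ring
    · intro i h4 h5
      rw [esm_i _ _ i h4 h5, esm_i _ _ i h4 h5]
      ring
    · refine hwidth.trans (le_of_eq ?_)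
      field_simp
      ring
    · rw [esm_l, ← hn]
      ring
    · rw [esm_q]
      exact hm
  · apply key τ a' h1 h2 h3
    apply reflS
    refine fin3S (hnn (1 - τ) (1 - a') (by linarith) (by linarith)) (hnn τ a' h1.le (by linarith))
      hql ht0 hζ0 hΛ.le hE he2.le he4.le hk' ?_ ?_ ?_ ?_ ⟨n, ?_⟩ ⟨m', ?_⟩
    · rw [esm_l, esm_l]
      field_simp
      ring
    · rw [esm_q, esm_q]
      ring
    · intro i h4 h5
      rw [esm_i _ _ i h4 h5, esm_i _ _ i h4 h5]
      ring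
    · refine hwidth.trans (le_of_eq ?_)
      field_simp
      ring
    · rw [esm_l, ← hn]
      ring
    · rw [esm_q]
      exact hm

/-- the induction over the directions -/
theorem runS' {ι σ : Type} [Fintype ι] [Fintype σ] [DecidableEq σ] (m : ℕ) {a b Λ : ℝ}
    (ha : 0 < a) (hb : 3 / 2 ≤ b) (hΛ : 2 ≤ Λ) (l q : σ)
    (Base : ∀ T : Finset σ, l ∉ T → q ∉ T → T.card + 2 = Fintype.card σ →
      ∀ (L R : ℝ) (μ ν : σ → ℝ), (∀ i, 0 ≤ μ i) → (∀ i, 0 ≤ ν i) →
        Λ ^ T.card * (b * (Λ * (m + 2) + 1)) + 1 ≤ R - L → (∀ i, μ i + ν i = sg a b Λ l T i) →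
        (3 / 2 ≤ ν q ∨ 1 ≤ T.card) → SurS (fun _ : ι => m) (RegS L R μ ν)) (c : ℕ) :
    ∀ T : Finset σ, l ∉ T → q ∉ T → T.card + c + 2 = Fintype.card σ →
      ∀ (L R : ℝ) (μ ν : σ → ℝ), (∀ i, 0 ≤ μ i) → (∀ i, 0 ≤ ν i) →
        Λ ^ T.card * (b * (Λ * (m + 2) + 1 + c * (Λ + 1))) + 1 ≤ R - L →
        (∀ i, μ i + ν i = sg a b Λ l T i) →
        (3 / 2 ≤ ν q ∨ 1 ≤ T.card) →
        (∀ j, j ≠ l → j ∉ T → ReadyS (fun _ : ι => m) L R μ ν j) →
        SurS (fun _ : ι => m) (RegS L R μ ν) := by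
  have hΛ0 : 0 < Λ := by linarith
  have hΛ1 : 1 ≤ Λ := by linarith
  have hb0 : 0 < b := by linarith
  induction c with
  | zero =>
    intro T hl hq hT L R μ ν hμ hν hW hs hr _
    refine Base T hl hq (by omega) L R μ ν hμ hν ?_ hs hr
    refine le_trans (le_of_eq ?_) hW
    push_cast
    ring
  | succ c ih =>
    intro T hl hq hT L R μ ν hμ hν hW hs _ hready
    have hpos : ∀ i, 0 < μ i + ν i := fun i => by rw [hs]; exact sg_pos ha hb0 hΛ0 l T i
    obtain ⟨j, hj, hjl, hjq⟩ := exists_dir (l := l) (q := q) hT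
    have hsj : μ j + ν j = b * Λ ^ T.card := by
      rw [hs]
      unfold sg
      rw [if_neg hjl, if_neg hj]
    have hone : 1 ≤ μ j + ν j := by
      rw [hsj]
      have := one_le_pow₀ hΛ1 (n := T.card)
      nlinarith
    have hc : (insert j T).card = T.card + 1 := Finset.card_insert_of_notMem hj
    refine nodalS' hμ hν hpos j l (Ne.symm hjl) hone (hready j hjl hj) hΛ ?_
    intro L' R' μ' ν' hμ' hν' hW' hs' _
    have hs2 : ∀ i, μ' i + ν' i = sg a b Λ l (insert j T) i := by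
      intro i
      rw [hs', ← sg_insert a b Λ hj hjl i]
      simp only [hs]
    refine ih (insert j T) ?_ ?_ (by omega) L' R' μ' ν' hμ' hν' ?_ hs2 (Or.inr (by omega)) ?_
    · rw [Finset.mem_insert]
      push Not
      exact ⟨Ne.symm hjl, hl⟩
    · rw [Finset.mem_insert]
      push Not
      exact ⟨Ne.symm hjq, hq⟩
    · rw [hW', hsj, hc]
      have h3 := mul_le_mul_of_nonneg_left hW hΛ0.le
      push_cast at h3 ⊢
      have h4 : Λ * (Λ ^ T.card * (b * (Λ * (m + 2) + 1 + ((c : ℝ) + 1) * (Λ + 1))) + 1) =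
          Λ ^ (T.card + 1) * (b * (Λ * (m + 2) + 1 + (c : ℝ) * (Λ + 1))) +
            Λ * (b * Λ ^ T.card) + Λ ^ 2 * (b * Λ ^ T.card) + Λ := by
        ring
      rw [h4] at h3
      linarith
    · intro i hil hiT
      refine readyS_of hμ' hν' (fun i => by rw [hs2]; exact sg_pos ha hb0 hΛ0 l _ i) i ?_
      rw [hs2]
      unfold sg
      rw [if_neg hil, if_neg hiT, hc]
      have h6 : Λ ^ 1 ≤ Λ ^ (T.card + 1) := pow_le_pow_right₀ hΛ1 (by omega)
      rw [pow_one] at h6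
      nlinarith

/-- independence for the region of a piece after the first flattening -/
theorem SurS_run {ι σ : Type} [Fintype ι] [Fintype σ] [DecidableEq σ] (hσ : 2 ≤ Fintype.card σ)
    (m : ℕ) {a b Λ : ℝ}
    (hb : 3 / 2 ≤ b) (hab : b ≤ a) (hΛ : 2 < Λ)
    (hr : 1 + 1 / (2 * a * Λ ^ (Fintype.card σ - 2)) < Λ * b / a)
    (hk : b ^ 2 / a * Λ ^ (Fintype.card σ + 1) = (Fintype.card ι : ℝ)) (l : σ)
    {L R : ℝ} {μ ν : σ → ℝ}
    (hw : b * (Λ * (m + Fintype.card σ) + Fintype.card σ - 1) + 1 ≤ R - L)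
    (hμ : ∀ i, 0 ≤ μ i) (hν : ∀ i, 0 ≤ ν i)
    (hs : ∀ i, μ i + ν i = sg a b Λ l ∅ i) (hν2 : ∀ i, i ≠ l → 3 / 2 ≤ ν i) :
    SurS (fun _ : ι => m) (RegS L R μ ν) := by
  classical
  obtain ⟨q, hql⟩ : ∃ q : σ, q ≠ l := by
    have : 1 < Fintype.card σ := by omega
    have := Fintype.one_lt_card_iff_nontrivial.1 this
    exact exists_ne l
  obtain ⟨u, hu⟩ : ∃ u : ℤ, 0 ≤ L + u := ⟨⌈-L⌉, by
    have := Int.le_ceil (-L)
    linarith⟩
  -- translation
  have hT : SurS (fun _ : ι => m) (RegS (L + u) (R + u) μ ν) →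
      SurS (fun _ : ι => m) (RegS L R μ ν) := by
    intro h
    refine h.comap 1 (Or.inl rfl) 0 u ?_
    rintro ⟨x, y⟩ ⟨k1, k2, k3⟩
    simp only at k1 k2 k3
    refine ⟨k1, ?_, ?_⟩
    · simp only [Pi.zero_apply, zero_mul, Finset.sum_const_zero, sub_zero, one_mul]
      push_cast
      linarith
    · simp only [Pi.zero_apply, zero_mul, Finset.sum_const_zero, sub_zero, one_mul]
      push_cast
      linarith
  apply hT
  refine runS' m (by linarith) hb hΛ.le l q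
    (baseS m hb hab hΛ hr hk l q (Ne.symm hql)) (Fintype.card σ - 2) ∅ (by simp)
    (by simp) (by rw [Finset.card_empty]; omega) (L + u) (R + u) μ ν hμ hν ?_ hs
    (Or.inl (hν2 q hql)) ?_
  · rw [Finset.card_empty, pow_zero]
    have h1 : ((Fintype.card σ - 2 : ℕ) : ℝ) = (Fintype.card σ : ℝ) - 2 := by
      rw [Nat.cast_sub hσ]
      norm_num
    rw [h1]
    refine le_trans (le_of_eq ?_) (hw.trans (le_of_eq ?_))
    · ring
    · ring
  · intro j hjl _ τ h0 h1 h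
    exact SN.nodal_pos hu hμ hν j (hν2 j hjl) h0 h1 h

end Pool.Agent.L7h91.CUT
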