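import Pool.Agent.L7h91.CUT.Cut

/-!
# The choice of the parameters of the last step
-/

set_option autoImplicit false

namespace Pool.Agent.L7h91.CUT

theorem solve2 {t x z : ℝ} (hz1 : 1 < z) (hzt : z < t) (hne : ∀ n : ℤ, x - z - z / t ≠ n) :
    (∃ τ a : ℝ, 0 < τ ∧ τ < a ∧ a < 1 ∧ t * τ + a = z ∧ ∃ n : ℤ, x - z - (1 + 1 / t) * a = n) ∨
    (∃ τ a : ℝ, 0 < τ ∧ τ < a ∧ a < 1 ∧ t * (1 - τ) + (1 - a) = z ∧
      ∃ n : ℤ, x - z - (1 + 1 / t) * (1 - a) = n) := by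
  have ht : 1 < t := hz1.trans hzt
  have ht0 : 0 < t := by linarith
  obtain ⟨f, hf⟩ : ∃ f, f = Int.fract (x - z) := ⟨_, rfl⟩
  have hf0 : 0 ≤ f := by rw [hf]; exact Int.fract_nonneg _
  have hf1 : f < 1 := by rw [hf]; exact Int.fract_lt_one _
  have hfe : x - z = ⌊x - z⌋ + f := by
    rw [hf]
    exact (Int.floor_add_fract _).symm
  have hp : 0 < 1 + 1 / t := by positivity
  have hkey : ∀ a : ℝ, t * ((1 + 1 / t) * a) = (t + 1) * a := by
    intro a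
    field_simp
  by_cases h1 : z / t < f
  · left
    obtain ⟨a, ha⟩ : ∃ a, a = f / (1 + 1 / t) := ⟨_, rfl⟩
    have ha' : (1 + 1 / t) * a = f := by
      rw [ha]
      field_simp
    have ha1 : a < 1 := by
      rw [ha, div_lt_one hp]
      have : 0 < 1 / t := by positivity
      linarith
    have h2 := hkey a
    rw [ha'] at h2
    rw [div_lt_iff₀ ht0] at h1
    refine ⟨(z - a) / t, a, div_pos (by linarith) ht0, ?_, ha1, ?_, ⌊x - z⌋, ?_⟩
    · rw [div_lt_iff₀ ht0]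
      nlinarith
    · rw [mul_div_cancel₀ _ ht0.ne']
      ring
    · rw [ha']
      linarith
  by_cases h2 : f < 1 / t
  · left
    obtain ⟨a, ha⟩ : ∃ a, a = (f + 1) / (1 + 1 / t) := ⟨_, rfl⟩
    have ha' : (1 + 1 / t) * a = f + 1 := by
      rw [ha]
      field_simp
    have ha1 : a < 1 := by
      rw [ha, div_lt_one hp]
      linarith
    have h3 := hkey a
    rw [ha'] at h3
    refine ⟨(z - a) / t, a, div_pos (by linarith) ht0, ?_, ha1, ?_, ⌊x - z⌋ - 1, ?_⟩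
    · rw [div_lt_iff₀ ht0]
      nlinarith
    · rw [mul_div_cancel₀ _ ht0.ne']
      ring
    · rw [ha']
      push_cast
      linarith
  right
  push Not at h1 h2
  have hf0' : 0 < f := lt_of_lt_of_le (by positivity) h2
  have h3 : f < z / t := by
    refine lt_of_le_of_ne h1 ?_
    intro h
    apply hne ⌊x - z⌋
    rw [← h]
    linarith
  rw [lt_div_iff₀ ht0] at h3
  obtain ⟨a, ha⟩ : ∃ a, a = f / (1 + 1 / t) := ⟨_, rfl⟩
  have ha' : (1 + 1 / t) * a = f := by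
    rw [ha]
    field_simp
  have ha0 : 0 < a := by
    rw [ha]
    positivity
  have ha1 : a < 1 := by
    rw [ha, div_lt_one hp]
    have : 0 < 1 / t := by positivity
    linarith
  have h4 := hkey a
  rw [ha'] at h4
  refine ⟨1 - (z - a) / t, 1 - a, ?_, ?_, by linarith, ?_, ⌊x - z⌋, ?_⟩
  · have : (z - a) / t < 1 := by
      rw [div_lt_one ht0]
      linarith
    linarith
  · have : a < (z - a) / t := by
      rw [lt_div_iff₀ ht0]
      nlinarith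
    linarith
  · rw [sub_sub_cancel, mul_div_cancel₀ _ ht0.ne']
    ring
  · rw [sub_sub_cancel, ha']
    linarith

theorem perturb {t Λ ζ p q : ℝ} (ht : 0 < t) (hΛ : 2 < Λ) (hpq : p < q) :
    ∃ E' : ℝ, p < E' ∧ E' < q ∧
      ∀ m n : ℤ, E' * (t + 1) * (1 - Λ / 2) - (1 + 1 / t) * m / ζ ≠ n := by
  obtain ⟨C, hC⟩ : ∃ C : Set ℝ, C = Set.range (fun p : ℤ × ℤ =>
      ((p.2 : ℝ) + (1 + 1 / t) * p.1 / ζ) / ((t + 1) * (1 - Λ / 2))) := ⟨_, rfl⟩
  have hC1 : C.Countable := by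
    rw [hC]
    exact Set.countable_range _
  obtain ⟨E', hE', h1, h2⟩ := (hC1.dense_compl ℝ).exists_between hpq
  refine ⟨E', h1, h2, fun m n h => hE' ?_⟩
  rw [hC]
  refine ⟨(m, n), ?_⟩
  simp only
  have hne : (t + 1) * (1 - Λ / 2) ≠ 0 := by
    apply mul_ne_zero
    · linarith
    · linarith
  rw [div_eq_iff hne]
  linarith

/-- the choice of the parameters -/
theorem choice {t Λ ζ p q E : ℝ} (ht : 0 < t) (hΛ : 2 < Λ) (hζ : 0 < ζ) (hE : E = Λ * ζ / 2)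
    (hζt : 1 < ζ * (t - 1)) (hpq : p < q) :
    ∃ E' : ℝ, p < E' ∧ E' < q ∧
      ((∃ τ a : ℝ, 0 < τ ∧ τ < a ∧ a < 1 ∧
          (∃ n : ℤ, E' * (t + 1) - (t * τ + a) - (1 + 1 / t) * a = n) ∧
          ∃ m : ℤ, E * E' * t - ζ * (t * τ + a) = m) ∨
        (∃ τ a : ℝ, 0 < τ ∧ τ < a ∧ a < 1 ∧
          (∃ n : ℤ, E' * (t + 1) - (t * (1 - τ) + (1 - a)) - (1 + 1 / t) * (1 - a) = n) ∧
          ∃ m : ℤ, E * E' * t - ζ * (t * (1 - τ) + (1 - a)) = m)) := by
  obtain ⟨E', h1, h2, h3⟩ := perturb (ζ := ζ) ht hΛ hpq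
  refine ⟨E', h1, h2, ?_⟩
  obtain ⟨m, hm⟩ : ∃ m : ℤ, m = ⌊ζ - E * E' * t⌋ + 1 := ⟨_, rfl⟩
  have hm1 : ζ - E * E' * t < m := by
    rw [hm]
    push_cast
    exact Int.lt_floor_add_one _
  have hm2 : (m : ℝ) ≤ ζ - E * E' * t + 1 := by
    rw [hm]
    push_cast
    have := Int.floor_le (ζ - E * E' * t)
    linarith
  obtain ⟨z, hz⟩ : ∃ z, z = (E * E' * t + m) / ζ := ⟨_, rfl⟩
  have hz' : ζ * z = E * E' * t + m := by
    rw [hz]
    field_simp
  have hz1 : 1 < z := by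
    rw [hz, lt_div_iff₀ hζ]
    linarith
  have hz2 : z < t := by
    rw [hz, div_lt_iff₀ hζ]
    linarith
  have hne : ∀ n : ℤ, E' * (t + 1) - z - z / t ≠ n := by
    intro n h
    apply h3 m n
    rw [← h, hz, hE]
    field_simp
    ring
  rcases solve2 hz1 hz2 hne with ⟨τ, a, g1, g2, g3, g4, g5⟩ | ⟨τ, a, g1, g2, g3, g4, g5⟩
  · left
    refine ⟨τ, a, g1, g2, g3, ?_, -m, ?_⟩
    · rw [g4]
      exact g5
    · rw [g4, hz']
      push_cast
      ring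
  · right
    refine ⟨τ, a, g1, g2, g3, ?_, -m, ?_⟩
    · rw [g4]
      exact g5
    · rw [g4, hz']
      push_cast
      ring

end Pool.Agent.L7h91.CUT
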